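import Mathlib
import Pool.Agent.TH739.PA.Exi

/-!
# Decoupling along general families of finite sets
-/

set_option autoImplicit false

open Filter Topology MeasureTheory ProbabilityTheory Set
open scoped ENNReal NNReal

noncomputable section

namespace Pool.Agent.TH739.PB

open Pool.Agent.TH739.PA (av avr avr_add avr_sub avr_mul avr_mono avr_nonneg avr_const_le avr_abs
  avr_bound)
open Pool.Agent.TH739.Poi (pv pv_nonneg pv_le pv_true pv_false measurable_pv val val_hasSum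
  coeff_zero Om PP Th TT W W_meas W_union prob_W sec_W pm pm_prob gU gU_bd Hi Hi_bd V V_meas
  V_union prob_V Ov Hi_eq exists_kappa pv_mem_meas q_bd IsVoid fin_biUnion)

variable {I ι : Type} {𝔣 : Filter I} {Bx : I → Finset ι}

/-- The averages converge. -/
def Cn (𝔣 : Filter I) (Bx : I → Finset ι) (a : ι → ℝ) : Prop :=
  ∃ L : ℝ, Tendsto (fun N => avr (Bx N) a) 𝔣 (𝓝 L)

/-- Convergent averages are stable under small changes. -/
theorem Cn_of_close {a b d : ι → ℝ} (ha : Cn 𝔣 Bx a)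
    (hd : Tendsto (fun N => avr (Bx N) d) 𝔣 (𝓝 0)) (h : ∀ n, |b n - a n| ≤ d n) : Cn 𝔣 Bx b := by
  obtain ⟨L, hL⟩ := ha
  refine ⟨L, ?_⟩
  have h1 : Tendsto (fun N => avr (Bx N) fun n => b n - a n) 𝔣 (𝓝 0) := by
    refine squeeze_zero_norm (fun N => ?_) hd
    rw [Real.norm_eq_abs]
    exact (avr_abs _ _).trans (avr_mono fun n _ => h n)
  have h2 := h1.add hL
  rw [zero_add] at h2
  refine h2.congr fun N => ?_
  rw [avr_sub]
  ring

/-- Convergence of the weighted frequency of zero from the convergence of the generating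
functions. -/
theorem gfB [𝔣.NeBot] [𝔣.IsCountablyGenerated] {κ : ι → Option ℕ} {w : ι → ℝ}
    (hw : ∀ n, |w n| ≤ 1) {z : ℕ → ℝ} {z₀ : ℝ} (hz₀ : |z₀| < 1)
    (hz : Tendsto z atTop (𝓝 z₀)) (hne : ∀ i, z i ≠ z₀) (hz0 : ∀ i, 0 ≤ z i) (hz1 : ∀ i, z i < 1)
    (h : ∀ i, Cn 𝔣 Bx fun n => w n * val (κ n) (z i)) :
    Cn 𝔣 Bx fun n => w n * pv (κ n = some 0) := by
  let p : I → ℕ → ℝ := fun N k => avr (Bx N) (fun n => w n * pv (κ n = some k))
  have hp : ∀ N k, p N k ∈ Icc (-1 : ℝ) 1 := fun N k => by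
    rw [mem_Icc, ← abs_le]
    refine avr_bound zero_le_one fun n => ?_
    rw [abs_mul, abs_of_nonneg (pv_nonneg _)]
    exact mul_le_one₀ (hw n) (pv_nonneg _) (pv_le _)
  have hps : ∀ N i, ∑' k, p N k * z i ^ k = avr (Bx N) (fun n => w n * val (κ n) (z i)) := by
    intro N i
    have h1 : HasSum (fun k => ∑ n ∈ Bx N, w n * (pv (κ n = some k) * z i ^ k))
        (∑ n ∈ Bx N, w n * val (κ n) (z i)) :=
      hasSum_sum fun n _ => (val_hasSum (κ n) (z i)).mul_left (w n)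
    have h2 := (h1.mul_left ((Bx N).card : ℝ)⁻¹).tsum_eq
    rw [avr, ← h2]
    congr 1
    funext k
    show ((Bx N).card : ℝ)⁻¹ * (∑ n ∈ Bx N, w n * pv (κ n = some k)) * z i ^ k = _
    rw [mul_assoc, Finset.sum_mul]
    simp only [mul_assoc]
  choose L hL using h
  have hK : IsCompact (Set.pi univ fun _ : ℕ => Icc (-1 : ℝ) 1) :=
    isCompact_univ_pi fun _ => isCompact_Icc
  have key : ∀ (φ : ℕ → I), Tendsto φ atTop 𝔣 → ∀ q : ℕ → ℝ,
      (∀ k, Tendsto (fun r => p (φ r) k) atTop (𝓝 (q k))) → (∀ k, q k ∈ Icc (-1 : ℝ) 1) →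
      ∀ i, ∑' k, q k * z i ^ k = L i := by
    intro φ hφ q hq hq1 i
    have h1 : Tendsto (fun r => ∑' k, p (φ r) k * z i ^ k) atTop (𝓝 (∑' k, q k * z i ^ k)) := by
      refine tendsto_tsum_of_dominated_convergence (bound := fun k => z i ^ k)
        (summable_geometric_of_lt_one (hz0 i) (hz1 i)) (fun k => (hq k).mul_const _) ?_
      refine Eventually.of_forall fun r k => ?_
      rw [norm_mul, norm_pow, Real.norm_of_nonneg (hz0 i)]
      exact mul_le_of_le_one_left (pow_nonneg (hz0 i) k) (abs_le.mpr (hp _ _))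
    have h2 : Tendsto (fun r => ∑' k, p (φ r) k * z i ^ k) atTop (𝓝 (L i)) := by
      simp only [hps]
      exact (hL i).comp hφ
    exact tendsto_nhds_unique h1 h2
  obtain ⟨x, hx⟩ := exists_seq_tendsto 𝔣
  obtain ⟨q, hqK, φ, hφm, hφ⟩ := hK.tendsto_subseq (x := fun r => p (x r)) fun N => fun k _ =>
    hp (x N) k
  have hφ' := fun k => (tendsto_pi_nhds.mp hφ) k
  have hqs := key (fun r => x (φ r)) (hx.comp hφm.tendsto_atTop) q hφ' fun k => hqK k (mem_univ k)
  refine ⟨q 0, ?_⟩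
  refine tendsto_of_subseq_tendsto fun ns hns => ?_
  obtain ⟨q', hqK', ψ, hψm, hψ⟩ := hK.tendsto_subseq (x := fun r => p (ns r)) fun N => fun k _ =>
    hp (ns N) k
  have hψ' := fun k => (tendsto_pi_nhds.mp hψ) k
  have hqs' := key (fun r => ns (ψ r)) (hns.comp hψm.tendsto_atTop) q' hψ' fun k =>
    hqK' k (mem_univ k)
  have hsm : ∀ (q : ℕ → ℝ), (∀ k, q k ∈ Icc (-1 : ℝ) 1) → ∀ i, Summable fun k => q k * z i ^ k := by
    intro q hq i
    refine Summable.of_norm_bounded (summable_geometric_of_lt_one (hz0 i) (hz1 i)) fun k => ?_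
    rw [norm_mul, norm_pow, Real.norm_of_nonneg (hz0 i)]
    exact mul_le_of_le_one_left (pow_nonneg (hz0 i) k) (abs_le.mpr (hq _))
  have hd := coeff_zero (d := fun k => q' k - q k) (C := 2) (fun k => by
    have h1 := hqK k (mem_univ k)
    have h2 := hqK' k (mem_univ k)
    simp only [mem_Icc] at h1 h2
    rw [abs_le]
    constructor <;> linarith [h1.1, h1.2, h2.1, h2.2]) hz₀ hz hne fun i => by
      simp only [sub_mul]
      rw [(hsm q' (fun k => hqK' k (mem_univ k)) i).tsum_sub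
        (hsm q (fun k => hqK k (mem_univ k)) i), hqs' i, hqs i, sub_self]
  have hd' : q' 0 = q 0 := by
    linarith
  refine ⟨ψ, ?_⟩
  rw [← hd']
  exact hψ' 0

section law

/-- the cylinder sets -/
def cyl (J : Finset ι) : Set (ι → Prop) := {b | ∀ n ∈ J, b n}

theorem cyl_meas (J : Finset ι) : MeasurableSet (cyl J) := by
  have : cyl J = ⋂ n ∈ J, {b : ι → Prop | b n} := by
    ext b
    simp [cyl]
  rw [this]
  refine Finset.measurableSet_biInter J fun n _ => ?_
  exact measurableSet_setOfPred.mpr (measurable_pi_apply n)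

theorem cyl_gen : (MeasurableSpace.pi : MeasurableSpace (ι → Prop)) =
    MeasurableSpace.generateFrom (Set.range cyl) := by
  apply le_antisymm
  · rw [MeasurableSpace.pi]
    refine iSup_le fun n => ?_
    rw [← measurable_iff_comap_le]
    refine @measurable_to_prop _ (MeasurableSpace.generateFrom (Set.range cyl)) _ ?_
    apply MeasurableSpace.measurableSet_generateFrom
    refine ⟨{n}, ?_⟩
    ext b
    simp [cyl]
  · refine MeasurableSpace.generateFrom_le ?_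
    rintro _ ⟨J, rfl⟩
    exact cyl_meas J

theorem cyl_pi : IsPiSystem (Set.range (cyl (ι := ι))) := by
  classical
  rintro _ ⟨J, rfl⟩ _ ⟨J', rfl⟩ _
  refine ⟨J ∪ J', ?_⟩
  ext b
  simp only [cyl, mem_ofPred_eq, mem_inter_iff, Finset.mem_union]
  constructor
  · intro h
    exact ⟨fun n hn => h n (Or.inl hn), fun n hn => h n (Or.inr hn)⟩
  · rintro ⟨h1, h2⟩ n (hn | hn)
    · exact h1 n hn
    · exact h2 n hn

variable {Ω Ω' : Type*} [MeasurableSpace Ω] [MeasurableSpace Ω'] {P : Measure Ω} {P' : Measure Ω'}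

/-- the family of the truth values -/
def seqOf (F : ι → Set Ω) (ω : Ω) : ι → Prop := fun n => ω ∈ F n

theorem seqOf_meas {F : ι → Set Ω} (hF : ∀ n, MeasurableSet (F n)) : Measurable (seqOf F) :=
  measurable_pi_iff.mpr fun n => measurableSet_setOfPred.mp (hF n)

omit [MeasurableSpace Ω] in
theorem preim_cyl (F : ι → Set Ω) (J : Finset ι) : seqOf F ⁻¹' cyl J = ⋂ n ∈ J, F n := by
  ext ω
  simp [seqOf, cyl]

theorem law_eq [IsProbabilityMeasure P] [IsProbabilityMeasure P'] {F : ι → Set Ω}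
    {F' : ι → Set Ω'} (hF : ∀ n, MeasurableSet (F n)) (hF' : ∀ n, MeasurableSet (F' n))
    (h : ∀ J : Finset ι, P (⋂ n ∈ J, F n) = P' (⋂ n ∈ J, F' n)) :
    P.map (seqOf F) = P'.map (seqOf F') := by
  have := Measure.isProbabilityMeasure_map (μ := P) (seqOf_meas hF).aemeasurable
  have := Measure.isProbabilityMeasure_map (μ := P') (seqOf_meas hF').aemeasurable
  refine ext_of_generate_finite (Set.range cyl) cyl_gen cyl_pi ?_ ?_
  · rintro _ ⟨J, rfl⟩
    rw [Measure.map_apply (seqOf_meas hF) (cyl_meas J), Measure.map_apply (seqOf_meas hF')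
      (cyl_meas J), preim_cyl, preim_cyl, h J]
  · rw [measure_univ, measure_univ]

/-- Transfer of almost sure properties. -/
theorem transferP [IsProbabilityMeasure P] [IsProbabilityMeasure P'] {F : ι → Set Ω}
    {F' : ι → Set Ω'} (hF : ∀ n, MeasurableSet (F n)) (hF' : ∀ n, MeasurableSet (F' n))
    (h : ∀ J : Finset ι, P (⋂ n ∈ J, F n) = P' (⋂ n ∈ J, F' n)) {Q : Set (ι → Prop)}
    (hQ : MeasurableSet Q) (hc : ∀ᵐ ω ∂P, seqOf F ω ∈ Q) : ∀ᵐ ω ∂P', seqOf F' ω ∈ Q := by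
  rw [← ae_map_iff (p := fun b => b ∈ Q) (seqOf_meas hF').aemeasurable hQ, ← law_eq hF hF' h]
  exact (ae_map_iff (p := fun b => b ∈ Q) (seqOf_meas hF).aemeasurable hQ).mpr hc

theorem meas_avr (s : Finset ι) (w : ι → ℝ) :
    Measurable fun b : ι → Prop => avr s fun n => w n * pv (b n) := by
  unfold avr
  refine Measurable.const_mul ?_ _
  refine Finset.measurable_fun_sum _ fun n _ => ?_
  exact (measurable_pv.comp (measurable_pi_apply n)).const_mul _

/-- Transfer of almost sure convergence. -/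
theorem transfer [Countable I] [𝔣.IsCountablyGenerated] [IsProbabilityMeasure P]
    [IsProbabilityMeasure P'] {F : ι → Set Ω}
    {F' : ι → Set Ω'} (hF : ∀ n, MeasurableSet (F n)) (hF' : ∀ n, MeasurableSet (F' n))
    (h : ∀ J : Finset ι, P (⋂ n ∈ J, F n) = P' (⋂ n ∈ J, F' n)) {w : ι → ℝ}
    (hc : ∀ᵐ ω ∂P, Cn 𝔣 Bx fun n => w n * pv (ω ∈ F n)) :
    ∀ᵐ ω ∂P', Cn 𝔣 Bx fun n => w n * pv (ω ∈ F' n) := by
  have hQ : MeasurableSet {b : ι → Prop | ∃ L : ℝ, Tendsto (fun N => avr (Bx N) fun n =>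
      w n * pv (b n)) 𝔣 (𝓝 L)} := measurableSet_exists_tendsto fun N => meas_avr (Bx N) w
  exact transferP hF hF' h hQ hc

/-- Transfer of almost sure convergence to zero. -/
theorem transfer0 [Countable I] [𝔣.IsCountablyGenerated] [IsProbabilityMeasure P]
    [IsProbabilityMeasure P'] {F : ι → Set Ω}
    {F' : ι → Set Ω'} (hF : ∀ n, MeasurableSet (F n)) (hF' : ∀ n, MeasurableSet (F' n))
    (h : ∀ J : Finset ι, P (⋂ n ∈ J, F n) = P' (⋂ n ∈ J, F' n))
    (hc : ∀ᵐ ω ∂P, Tendsto (fun N => avr (Bx N) fun n => pv (ω ∉ F n)) 𝔣 (𝓝 0)) :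
    ∀ᵐ ω ∂P', Tendsto (fun N => avr (Bx N) fun n => pv (ω ∉ F' n)) 𝔣 (𝓝 0) := by
  have hm : ∀ N, Measurable fun b : ι → Prop => avr (Bx N) fun n => pv (¬ b n) := by
    intro N
    unfold avr
    refine Measurable.const_mul ?_ _
    refine Finset.measurable_fun_sum _ fun n _ => ?_
    exact measurable_pv.comp (Measurable.comp (measurable_from_top (f := Not))
      (measurable_pi_apply n))
  have hQ : MeasurableSet {b : ι → Prop | Tendsto (fun N => avr (Bx N) fun n =>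
      pv (¬ b n)) 𝔣 (𝓝 0)} := measurableSet_tendsto (𝓝 0) hm
  exact transferP hF hF' h hQ hc

end law

variable {Y : Type*} [MeasurableSpace Y] {m : ℕ} {ν : ℕ → Measure Y} {y₀ : Y}

/-- Convergence for the conditional probabilities. -/
theorem conv_HiB [𝔣.NeBot] [𝔣.IsCountablyGenerated] [∀ k, IsFiniteMeasure (ν k)] {q : ℝ}
    (h0 : 0 ≤ q) (h1 : m * q ≤ 1) [IsProbabilityMeasure (pm m q)] {C : ι → Fin m → Set Y}
    (hC : ∀ n j, MeasurableSet (C n j)) {w : ι → ℝ} (hw : ∀ n, |w n| ≤ 1)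
    (hc : ∀ᵐ p ∂((PP ν y₀).prod (TT m q)), Cn 𝔣 Bx fun n => w n * pv (p ∈ W (C n))) :
    ∀ᵐ ω ∂(PP ν y₀), Cn 𝔣 Bx fun n => w n * Hi (gU q (C n)) ω := by
  have hW : ∀ n, MeasurableSet (W (C n) : Set (Om Y × Th)) := fun n => W_meas fun j => hC n j
  have h2 := Measure.ae_ae_of_ae_prod hc
  filter_upwards [h2] with ω hω
  let F : I → Th → ℝ := fun N θ => avr (Bx N) (fun n => w n * pv ((ω, θ) ∈ W (C n)))
  have hpm : ∀ n, Measurable fun θ : Th => pv ((ω, θ) ∈ W (C n)) := fun n =>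
    (pv_mem_meas (hW n)).comp measurable_prodMk_left
  have hFm : ∀ N, Measurable (F N) := fun N =>
    (Finset.measurable_fun_sum _ fun n _ => (hpm n).const_mul _).const_mul _
  have hFb : ∀ N θ, |F N θ| ≤ 1 := fun N θ => by
    refine avr_bound zero_le_one fun n => ?_
    rw [abs_mul, abs_of_nonneg (pv_nonneg _)]
    exact mul_le_one₀ (hw n) (pv_nonneg _) (pv_le _)
  have hint : ∀ N, ∫ θ, F N θ ∂(TT m q) = avr (Bx N) (fun n => w n * Hi (gU q (C n)) ω) := by
    intro N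
    show ∫ θ, ((Bx N).card : ℝ)⁻¹ * ∑ n ∈ Bx N, w n * pv ((ω, θ) ∈ W (C n)) ∂(TT m q) = _
    rw [integral_const_mul, integral_finsetSum _ fun n _ =>
      (Integrable.of_bound (hpm n).aestronglyMeasurable 1 (Eventually.of_forall fun θ => by
        rw [Real.norm_of_nonneg (pv_nonneg _)]
        exact pv_le _)).const_mul _]
    unfold avr
    congr 1
    refine Finset.sum_congr rfl fun n _ => ?_
    rw [integral_const_mul]
    congr 1
    have e1 : (fun θ : Th => pv ((ω, θ) ∈ W (C n))) =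
        {θ : Th | (ω, θ) ∈ W (C n)}.indicator 1 := by
      funext θ
      by_cases h : (ω, θ) ∈ W (C n)
      · rw [pv_true h, indicator_of_mem (show θ ∈ {θ : Th | (ω, θ) ∈ W (C n)} from h)]
        rfl
      · rw [pv_false h, indicator_of_notMem (show θ ∉ {θ : Th | (ω, θ) ∈ W (C n)} from h)]
    have hs : MeasurableSet {θ : Th | (ω, θ) ∈ W (C n)} := measurable_prodMk_left (hW n)
    rw [e1, integral_indicator_one hs, measureReal_def,
      sec_W h0 h1 (fun j => hC n j) ω, ENNReal.toReal_ofReal]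
    exact (Hi_bd (fun y => (gU_bd h0 h1 _ y).1) (fun y => (gU_bd h0 h1 _ y).2) ω).1
  let L : Th → ℝ := fun θ => limUnder 𝔣 fun N => F N θ
  have hL : ∀ᵐ θ ∂(TT m q), Tendsto (fun N => F N θ) 𝔣 (𝓝 (L θ)) := by
    filter_upwards [hω] with θ hθ
    obtain ⟨l, hl⟩ := hθ
    exact (tendsto_nhds_limUnder ⟨l, hl⟩)
  refine ⟨∫ θ, L θ ∂(TT m q), ?_⟩
  have h3 := tendsto_integral_filter_of_dominated_convergence (μ := TT m q) (F := F) (f := L)
    (l := 𝔣) (fun _ => (1 : ℝ)) (Eventually.of_forall fun N => (hFm N).aestronglyMeasurable)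
    (Eventually.of_forall fun N => Eventually.of_forall fun θ => by
      rw [Real.norm_eq_abs]
      exact hFb N θ) (integrable_const _) hL
  exact h3.congr hint

omit [MeasurableSpace Y] in
/-- From the conditional probabilities to the void events. -/
theorem conv_VB_of [𝔣.NeBot] [𝔣.IsCountablyGenerated] {C : ι → Fin m → Set Y} {ω : Om Y}
    {w : ι → ℝ} (hw : ∀ n, |w n| ≤ 1)
    (hQ : Tendsto (fun N => avr (Bx N) fun n => pv (ω ∉ V (Ov (C n)))) 𝔣 (𝓝 0))
    (h : ∀ i : ℕ, Cn 𝔣 Bx fun n =>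
      w n * Hi (gU ((m + 1 : ℝ)⁻¹ * (1 - 1 / ((i : ℝ) + 2))) (C n)) ω) :
    Cn 𝔣 Bx fun n => w n * pv (ω ∈ V (⋃ j, C n j)) := by
  choose κ hκ1 hκ2 using fun n => exists_kappa ω (⋃ j, C n j)
  have e : (fun n => w n * pv (ω ∈ V (⋃ j, C n j))) = fun n => w n * pv (κ n = some 0) := by
    funext n
    rw [← hκ2 n]
  rw [e]
  let q : ℕ → ℝ := fun i => (m + 1 : ℝ)⁻¹ * (1 - 1 / ((i : ℝ) + 2))
  have hm : (0 : ℝ) < (m : ℝ) + 1 := by positivity
  have hi2 : ∀ i : ℕ, 0 < 1 / ((i : ℝ) + 2) ∧ 1 / ((i : ℝ) + 2) ≤ 1 / 2 := by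
    intro i
    refine ⟨by positivity, ?_⟩
    exact one_div_le_one_div_of_le (by norm_num) (by have : (0 : ℝ) ≤ i := by positivity
                                                     linarith)
  have hinv : (m + 1 : ℝ)⁻¹ ≤ 1 := inv_le_one_of_one_le₀ (by linarith)
  have hinv0 : 0 < (m + 1 : ℝ)⁻¹ := by positivity
  have hq0 : ∀ i, 0 < q i := fun i => mul_pos hinv0 (by linarith [(hi2 i).2])
  have hq1 : ∀ i, q i ≤ 1 := fun i => by
    show (m + 1 : ℝ)⁻¹ * (1 - 1 / ((i : ℝ) + 2)) ≤ 1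
    nlinarith [(hi2 i).1, (hi2 i).2]
  have hqm : ∀ i, m * q i ≤ 1 := fun i => (q_bd m i).2
  have htend : Tendsto (fun i => 1 - q i) atTop (𝓝 (1 - (m + 1 : ℝ)⁻¹)) := by
    have h4 : Tendsto (fun i : ℕ => 1 / ((i : ℝ) + 2)) atTop (𝓝 0) := by
      have h5 := tendsto_one_div_add_atTop_nhds_zero_nat (𝕜 := ℝ)
      have h6 := h5.comp (tendsto_add_atTop_nat 1)
      refine h6.congr fun i => ?_
      simp only [Function.comp_apply]
      push_cast
      ring_nf
    have h7 : Tendsto (fun i : ℕ => 1 - (m + 1 : ℝ)⁻¹ * (1 - 1 / ((i : ℝ) + 2))) atTop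
        (𝓝 (1 - (m + 1 : ℝ)⁻¹ * (1 - 0))) :=
      ((h4.const_sub 1).const_mul _).const_sub 1
    rw [sub_zero, mul_one] at h7
    exact h7
  refine gfB hw (z := fun i => 1 - q i) (z₀ := 1 - (m + 1 : ℝ)⁻¹) ?_ htend ?_ ?_ ?_ ?_
  · rw [abs_lt]
    constructor <;> linarith
  · intro i h5
    have h6 : q i = (m + 1 : ℝ)⁻¹ := by linarith
    have h7 : (m + 1 : ℝ)⁻¹ * (1 - 1 / ((i : ℝ) + 2)) = (m + 1 : ℝ)⁻¹ * 1 := by
      rw [mul_one]
      exact h6
    have h8 := mul_left_cancel₀ hinv0.ne' h7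
    linarith [(hi2 i).1]
  · intro i
    linarith [hq1 i]
  · intro i
    linarith [hq0 i]
  · intro i
    refine Cn_of_close (h i) hQ fun n => ?_
    have hz := hκ1 n (1 - q i) (by linarith [hq1 i]) (by linarith [hq0 i])
    rw [sub_sub_cancel] at hz
    rw [← hz, ← mul_sub, abs_mul]
    refine (mul_le_of_le_one_left (abs_nonneg _) (hw n)).trans ?_
    by_cases hn : ω ∈ V (Ov (C n))
    · rw [← Hi_eq hn]
      show |Hi (gU (q i) (C n)) ω - Hi (gU (q i) (C n)) ω| ≤ _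
      rw [sub_self, abs_zero]
      exact pv_nonneg _
    · rw [pv_true hn]
      have b1 := Hi_bd (g := fun y => 1 - q i * pv (y ∈ ⋃ j, C n j))
        (fun y => by nlinarith [pv_nonneg (y ∈ ⋃ j, C n j), pv_le (y ∈ ⋃ j, C n j), hq0 i, hq1 i])
        (fun y => by nlinarith [pv_nonneg (y ∈ ⋃ j, C n j), pv_le (y ∈ ⋃ j, C n j), hq0 i]) ω
      have b2 := Hi_bd (g := gU (q i) (C n)) (fun y => (gU_bd (hq0 i).le (hqm i) _ y).1)
        (fun y => (gU_bd (hq0 i).le (hqm i) _ y).2) ω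
      show |_ - Hi (gU (q i) (C n)) ω| ≤ 1
      rw [abs_le]
      constructor <;> linarith [b1.1, b1.2, b2.1, b2.2]

end Pool.Agent.TH739.PB
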