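import Mathlib
import Pool.Agent.TH739.PB.Core
import Pool.Agent.W761.Box.Clos

/-!
# Boxes and linear sequences in groups
-/

set_option autoImplicit false

open Filter Topology MeasureTheory ProbabilityTheory Set
open scoped ENNReal NNReal

noncomputable section

namespace Pool.Agent.TH739.PB

open Pool.Agent.TH739.PA (av avr avr_add avr_sub avr_mul avr_mono avr_nonneg avr_const_le avr_abs
  avr_bound Good int_lim)
open Pool.Agent.TH739.Poi (pv pv_nonneg pv_le pv_true pv_false measurable_pv)
open Pool.Agent.W761.Box (bx orb orb_mp dz)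

/-- The box `[0, M_1) × ⋯ × [0, M_k)`. -/
def box (k : ℕ) (M : Fin k → ℕ) : Finset (Fin k → ℕ) :=
  Fintype.piFinset fun j => Finset.range (M j)

theorem box_card (k : ℕ) (M : Fin k → ℕ) : (box k M).card = ∏ j, M j := by
  rw [box, Fintype.card_piFinset]
  simp

theorem mem_box {k : ℕ} {M n : Fin k → ℕ} : n ∈ box k M ↔ ∀ l, n l < M l := by
  simp [box]

theorem avr_box (k : ℕ) (M : Fin k → ℕ) (a : (Fin k → ℕ) → ℝ) : avr (box k M) a = bx k M a := by
  rw [avr, bx, box_card]
  push_cast
  rfl

/-- Products `u_1^(n_1) ⋯ u_k^(n_k)` in a group. -/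
def lin {G : Type*} [Group G] {k : ℕ} (u : Fin k → G) (n : Fin k → ℕ) : G :=
  (List.ofFn fun l => u l ^ n l).prod

section orbit

variable {G X Y : Type*} [Group G]

theorem perm_iter (t : Equiv.Perm X) (n : ℕ) (x : X) : (t : X → X)^[n] x = (t ^ n) x := by
  rw [Equiv.Perm.coe_pow]

theorem orb_lin (Φ : G →* Equiv.Perm X) : ∀ (k : ℕ) (u : Fin k → G) (n : Fin k → ℕ) (x : X),
    orb k (fun l => (Φ (u l) : X → X)) n x = Φ (lin u n) x
  | 0, u, n, x => by
    simp [orb, lin]
  | k + 1, u, n, x => by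
    have h1 := orb_lin Φ k (Fin.tail u) (Fin.tail n) x
    show (Φ (u 0) : X → X)^[n 0] (orb k (fun l => (Φ (Fin.tail u l) : X → X)) (Fin.tail n) x) = _
    rw [h1, perm_iter, ← map_pow, ← Equiv.Perm.mul_apply, ← map_mul, lin, lin, List.ofFn_succ,
      List.prod_cons]
    rfl

theorem orb_prod : ∀ (k : ℕ) (σ : Fin k → X → X) (τ : Fin k → Y → Y) (n : Fin k → ℕ) (p : X × Y),
    orb k (fun l p => (σ l p.1, τ l p.2)) n p = (orb k σ n p.1, orb k τ n p.2)
  | 0, _, _, _, _ => rfl
  | k + 1, σ, τ, n, p => by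
    have h1 := orb_prod k (Fin.tail σ) (Fin.tail τ) (Fin.tail n) p
    have h2 : ∀ (r : ℕ) (f : X → X) (g : Y → Y) (p : X × Y),
        (fun p : X × Y => (f p.1, g p.2))^[r] p = (f^[r] p.1, g^[r] p.2) := by
      intro r f g
      induction r with
      | zero => intro p; rfl
      | succ r ih =>
        intro p
        rw [Function.iterate_succ_apply, ih, Function.iterate_succ_apply,
          Function.iterate_succ_apply]
    show (fun p : X × Y => (σ 0 p.1, τ 0 p.2))^[n 0]
      (orb k (fun l p => (Fin.tail σ l p.1, Fin.tail τ l p.2)) (Fin.tail n) p) = _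
    rw [h1, h2]
    rfl

theorem orb_pi {m : ℕ} : ∀ (k : ℕ) (σ : Fin m → Fin k → X → X) (n : Fin k → ℕ) (z : Fin m → X),
    orb k (fun l z j => σ j l (z j)) n z = fun j => orb k (σ j) n (z j)
  | 0, _, _, _ => rfl
  | k + 1, σ, n, z => by
    have h1 := orb_pi k (fun j => Fin.tail (σ j)) (Fin.tail n) z
    have h2 : ∀ (r : ℕ) (f : Fin m → X → X) (z : Fin m → X),
        (fun (z : Fin m → X) j => f j (z j))^[r] z = fun j => (f j)^[r] (z j) := by
      intro r f
      induction r with
      | zero => intro z; rfl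
      | succ r ih =>
        intro z
        rw [Function.iterate_succ_apply, ih]
        funext j
        rw [Function.iterate_succ_apply]
    show (fun (z : Fin m → X) j => σ j 0 (z j))^[n 0]
      (orb k (fun l z j => Fin.tail (σ j) l (z j)) (Fin.tail n) z) = _
    rw [h1, h2]
    rfl

end orbit

section good

variable {Z : Type} [MeasurableSpace Z] {P : Measure Z} [IsProbabilityMeasure P]

theorem good_orb (k : ℕ) {σ : Fin k → Z → Z} (hσ : ∀ l, MeasurePreserving (σ l) P P) :
    Good atTop (box k) P (orb k σ) := by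
  intro F hF ⟨C, hC⟩
  have h := dz k σ hσ F hF C hC
  simp only [avr_box]
  exact h

theorem good_lin {G : Type*} [Group G] {Φ : G →* Equiv.Perm Z}
    (hΦ : ∀ g, MeasurePreserving (Φ g) P P) {k : ℕ} (u : Fin k → G) :
    Good atTop (box k) P (fun n x => Φ (lin u n) x) := by
  have h := good_orb k (P := P) (σ := fun l => (Φ (u l) : Z → Z)) fun l => hΦ _
  have e : (fun n x => Φ (lin u n) x) = orb k (fun l => (Φ (u l) : Z → Z)) := by
    funext n x
    exact (orb_lin Φ k u n x).symm
  rw [e]
  exact h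

end good

end Pool.Agent.TH739.PB
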