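import Mathlib
import Pool.Agent.TH739.PB.Core

/-!
# Joint convergence: reduction to void events and to marked points
-/

set_option autoImplicit false

open Filter Topology MeasureTheory ProbabilityTheory Set
open scoped ENNReal NNReal symmDiff

noncomputable section

namespace Pool.Agent.TH739.PB

open Pool.Agent.TH739.PA (av avr avr_add avr_sub avr_mul avr_mono avr_nonneg avr_const_le avr_abs
  avr_bound av_ofReal av_add av_mul av_sub av_norm Good int_lim Cls_conv closed_slot ind_BM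
  BM_update BM_add BM_smul ext_one ext_all pr pr_update int_snd Qf)
open Pool.Agent.TH739.Poi (pv pv_nonneg pv_le pv_true pv_false measurable_pv
  Om PP Th TT W W_meas W_union prob_W pm pm_prob gU Hi V V_meas V_union prob_V Ov q_bd IsVoid
  fin_biUnion Rec Rec_pi Rec_univ Rec_gen)
open Pool.Agent.W761.Gauss (BM)

section slot

variable {X Y W : Type} [MeasurableSpace X] [MeasurableSpace Y] [MeasurableSpace W]
  {μ : Measure X} {ν : Measure Y} {κ : Measure W} {S : W → W} {T : Y → Y} {E : Set W → Set Y}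
  {m : ℕ} {I ι : Type} {𝔣 : Filter I} {Bx : I → Finset ι}

/-- The averages of the products converge almost everywhere. -/
def CZ (𝔣 : Filter I) (Bx : I → Finset ι) (μ : Measure X) (ν : Measure Y)
    (g : Fin m → ι → X × Y → X × Y) (F : Fin m → X × Y → ℂ) : Prop :=
  ∀ᵐ z ∂(μ.prod ν), ∃ L : ℂ, Tendsto (fun N : I => av (Bx N) fun n => pr g F n z) 𝔣 (𝓝 L)

/-- Closure in one slot. -/
theorem CZ_closed [𝔣.NeBot] [𝔣.IsCountablyGenerated] [IsProbabilityMeasure μ]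
    [IsProbabilityMeasure ν] {g : Fin m → ι → X × Y → X × Y}
    (hg : ∀ j n, MeasurePreserving (g j n) (μ.prod ν) (μ.prod ν))
    (hgood : ∀ j, Good 𝔣 Bx (μ.prod ν) (g j))
    {F : Fin m → X × Y → ℂ} (hF : ∀ j, BM (F j)) (k : Fin m) {h : X × Y → ℂ} (hh : BM h)
    (H : ∀ ε : ℝ, 0 < ε → ∃ h' : X × Y → ℂ, BM h' ∧ ∫ z, ‖h z - h' z‖ ∂(μ.prod ν) ≤ ε ∧
      CZ 𝔣 Bx μ ν g (Function.update F k h')) : CZ 𝔣 Bx μ ν g (Function.update F k h) := by
  choose hFm CF hCF using hF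
  set D : ℝ := ∏ l ∈ Finset.univ.erase k, (|CF l| + 1) with hD
  have hD0 : 0 ≤ D := Finset.prod_nonneg fun l _ => by positivity
  have hR : ∀ (n : ι) (z : X × Y), ‖∏ l ∈ Finset.univ.erase k, F l (g l n z)‖ ≤ D := by
    intro n z
    rw [norm_prod]
    refine Finset.prod_le_prod (fun l _ => norm_nonneg _) fun l _ => ?_
    exact ((hCF l _).trans (le_abs_self _)).trans (by linarith)
  let Λ : (X × Y → ℂ) → I → X × Y → ℂ := fun h N z => av (Bx N) fun n =>
    h (g k n z) * ∏ l ∈ Finset.univ.erase k, F l (g l n z)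
  have hΛ : ∀ h z, (fun N : I => av (Bx N) fun n =>
      pr g (Function.update F k h) n z) = fun N => Λ h N z := by
    intro h z
    funext N
    show _ = av _ _
    congr 1
    funext n
    rw [pr_update]
  have hmain := closed_slot (μ := μ.prod ν) (Cls_conv 𝔣)
    (B := Bx) (g := g k) (hg k) (hgood k) (Λ := Λ) hD0 (h := h)
    (fun ε hε => by
      obtain ⟨h', hB, hi, hP⟩ := H ε hε
      refine ⟨h', hB, hi, ?_⟩
      filter_upwards [hP] with z hz
      rw [hΛ] at hz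
      exact hz) ?_
  · filter_upwards [hmain] with z hz
    rw [hΛ]
    exact hz
  intro h' hh'
  obtain ⟨hhm, Ch, hCh⟩ := id hh
  obtain ⟨hhm', Ch', hCh'⟩ := id hh'
  refine ⟨fun z => ‖h z - h' z‖, (hhm.sub hhm').norm, ⟨Ch + Ch', fun z => ?_⟩,
    fun z => norm_nonneg _, ?_, ?_⟩
  · rw [abs_of_nonneg (norm_nonneg _)]
    exact (norm_sub_le _ _).trans (add_le_add (hCh z) (hCh' z))
  · have : 0 ≤ ∫ z, ‖h z - h' z‖ ∂(μ.prod ν) := integral_nonneg fun z => norm_nonneg _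
    linarith
  · intro N z
    show ‖av _ _ - av _ _‖ ≤ _
    rw [← av_sub, ← avr_mul]
    refine (av_norm _ _).trans (avr_mono fun n _ => ?_)
    rw [← sub_mul, norm_mul, mul_comm]
    exact mul_le_mul_of_nonneg_right (hR n z) (norm_nonneg _)

/-- Extension in one slot. -/
theorem CZ_step [𝔣.NeBot] [𝔣.IsCountablyGenerated] [IsProbabilityMeasure μ]
    [IsProbabilityMeasure ν] (hE : IsVoid κ S ν T E)
    {g : Fin m → ι → X × Y → X × Y}
    (hg : ∀ j n, MeasurePreserving (g j n) (μ.prod ν) (μ.prod ν))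
    (hgood : ∀ j, Good 𝔣 Bx (μ.prod ν) (g j))
    {ℛ : Set (Set W)} (hℛ : ∀ A ∈ ℛ, MeasurableSet A ∧ κ A ≠ ∞)
    (hd : ∀ A, MeasurableSet A → κ A ≠ ∞ → ∀ ε : ℝ, 0 < ε → ∃ B ∈ ℛ, (κ (A ∆ B)).toReal ≤ ε)
    (F : Fin m → X × Y → ℂ) (k : Fin m) (hF : ∀ j, BM (F j))
    (hQ : ∀ e ∈ Qf (X := X) E ℛ, CZ 𝔣 Bx μ ν g (Function.update F k e)) (h : X × Y → ℂ)
    (hh : BM h) : CZ 𝔣 Bx μ ν g (Function.update F k h) := by
  have hcl : ∀ h, BM h → (∀ ε : ℝ, 0 < ε → ∃ g' : X × Y → ℂ, BM g' ∧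
      ∫ z, ‖h z - g' z‖ ∂(μ.prod ν) ≤ ε ∧ CZ 𝔣 Bx μ ν g (Function.update F k g')) →
      CZ 𝔣 Bx μ ν g (Function.update F k h) := fun h hh H => CZ_closed hg hgood hF k hh H
  refine ext_one (μ := μ.prod ν) (P := fun h => CZ 𝔣 Bx μ ν g (Function.update F k h)) ?_ ?_ hcl
    (𝒬 := Rec μ ν κ E) (fun D hD => hD.1) (Rec_pi hE) ?_ (Rec_gen hE) ?_ hh
  · intro f f' hf hf' h1 h2
    filter_upwards [h1, h2] with z hz hz'
    obtain ⟨L, hL⟩ := hz
    obtain ⟨L', hL'⟩ := hz'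
    refine ⟨L + L', (hL.add hL').congr fun N => ?_⟩
    rw [← av_add]
    congr 1
    funext n
    rw [pr_update, pr_update, pr_update, Pi.add_apply]
    ring
  · intro c f hf h1
    filter_upwards [h1] with z hz
    obtain ⟨L, hL⟩ := hz
    refine ⟨c * L, (hL.const_mul c).congr fun N => ?_⟩
    rw [← av_mul]
    congr 1
    funext n
    rw [pr_update, pr_update]
    ring
  · have := Rec_univ (μ₁ := μ) hE (MeasurableSet.univ (α := X))
    rwa [univ_prod_univ] at this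
  · rintro D ⟨hDm, D₁, A, hD₁, hA, hAf, e⟩
    refine hcl _ (ind_BM hDm 1) fun ε hε => ?_
    obtain ⟨B, hB, hAB⟩ := hd A hA hAf ε hε
    obtain ⟨hBm, hBf⟩ := hℛ B hB
    refine ⟨(D₁ ×ˢ E B).indicator fun _ => 1, ind_BM (hD₁.prod (hE.meas B hBm hBf)) 1, ?_,
      hQ _ ⟨D₁, B, hD₁, hB, rfl⟩⟩
    have e1 : (fun z => ‖D.indicator (fun _ => (1 : ℂ)) z -
        (D₁ ×ˢ E B).indicator (fun _ => (1 : ℂ)) z‖) ≤ᵐ[μ.prod ν] fun z =>
        ‖(E A).indicator (fun _ => (1 : ℂ)) z.2 - (E B).indicator (fun _ => (1 : ℂ)) z.2‖ := by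
      filter_upwards [indicator_ae_eq_of_ae_eq_set (f := fun _ : X × Y => (1 : ℂ)) e] with z hz
      rw [hz]
      by_cases h0 : z.1 ∈ D₁
      · by_cases h1 : z.2 ∈ E A <;> by_cases h2 : z.2 ∈ E B <;> simp [h0, h1, h2, Set.indicator]
      · have h3 : z ∉ D₁ ×ˢ E A := fun h => h0 h.1
        have h4 : z ∉ D₁ ×ˢ E B := fun h => h0 h.1
        rw [indicator_of_notMem h3, indicator_of_notMem h4, sub_self, norm_zero]
        exact norm_nonneg _
    have hm2 : Measurable fun y => ‖(E A).indicator (fun _ => (1 : ℂ)) y -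
        (E B).indicator (fun _ => (1 : ℂ)) y‖ :=
      ((measurable_const.indicator (hE.meas A hA hAf)).sub
        (measurable_const.indicator (hE.meas B hBm hBf))).norm
    have hb2 : ∀ y, ‖(E A).indicator (fun _ => (1 : ℂ)) y -
        (E B).indicator (fun _ => (1 : ℂ)) y‖ ≤ 1 := by
      intro y
      by_cases h1 : y ∈ E A <;> by_cases h2 : y ∈ E B <;> simp [h1, h2]
    refine (integral_mono_of_nonneg (Eventually.of_forall fun z => norm_nonneg _) ?_ e1).trans ?_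
    · exact Integrable.of_bound (hm2.comp measurable_snd).aestronglyMeasurable 1
        (Eventually.of_forall fun z => by
          rw [norm_norm]
          exact hb2 _)
    · have e2 := int_snd (μ := μ) (ν := ν) fun y => ‖(E A).indicator (fun _ => (1 : ℂ)) y -
        (E B).indicator (fun _ => (1 : ℂ)) y‖
      rw [e2]
      exact (hE.dist hA hBm hAf hBf).trans hAB

end slot

section base

variable {X Y Wt : Type} [MeasurableSpace X] [MeasurableSpace Y] [MeasurableSpace Wt]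
  {μ : Measure X} {ν : Measure Y} {ρ : ℕ → Measure Wt} {y₀ : Wt} {S : Wt → Wt} {T : Y → Y}
  {E : Set Wt → Set Y} {m : ℕ} {I ι : Type} {𝔣 : Filter I} {Bx : I → Finset ι}

theorem fin_iUnion {κ : Measure Wt} {C : Fin m → Set Wt} (hf : ∀ j, κ (C j) ≠ ∞) :
    κ (⋃ j, C j) ≠ ∞ := by
  have := fin_biUnion (ν := κ) (Finset.univ : Finset (Fin m)) (B := C) hf
  simpa using this

/-- equality of the finite intersection probabilities -/
theorem inter_prob [∀ k, IsFiniteMeasure (ρ k)] [IsProbabilityMeasure ν]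
    (hE : IsVoid (Measure.sum ρ) S ν T E) {B : ι → Set Wt} (hB : ∀ n, MeasurableSet (B n))
    (hBf : ∀ n, Measure.sum ρ (B n) ≠ ∞) (J : Finset ι) :
    PP ρ y₀ (⋂ n ∈ J, V (B n)) = ν (⋂ n ∈ J, E (B n)) := by
  rw [← V_union, prob_V (Finset.measurableSet_biUnion _ fun n _ => hB n) (fin_biUnion J hBf),
    ← measure_congr (hE.biUnion J hB hBf),
    hE.prob _ (Finset.measurableSet_biUnion _ fun n _ => hB n) (fin_biUnion J hBf)]

/-- From marked points to void events. -/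
theorem base_conv [Countable I] [𝔣.NeBot] [𝔣.IsCountablyGenerated] [∀ k, IsFiniteMeasure (ρ k)]
    [IsProbabilityMeasure μ] [IsProbabilityMeasure ν]
    (hE : IsVoid (Measure.sum ρ) S ν T E) {w : ι → X → ℝ} (hwm : ∀ n, Measurable (w n))
    (hw : ∀ n x, |w n x| ≤ 1) {C : ι → Fin m → Set Wt} (hC : ∀ n j, MeasurableSet (C n j))
    (hCf : ∀ n j, Measure.sum ρ (C n j) ≠ ∞)
    (h1 : ∀ (q : ℝ) [IsProbabilityMeasure (pm m q)], 0 ≤ q → m * q ≤ 1 →
      ∀ᵐ x ∂μ, ∀ᵐ p ∂((PP ρ y₀).prod (TT m q)), Cn 𝔣 Bx fun n => w n x * pv (p ∈ W (C n)))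
    (h2 : ∀ᵐ ω ∂(PP ρ y₀), Tendsto (fun N => avr (Bx N) fun n => pv (ω ∉ V (Ov (C n)))) 𝔣 (𝓝 0)) :
    ∀ᵐ z ∂(μ.prod ν), Cn 𝔣 Bx fun n => w n z.1 * pv (z.2 ∈ E (⋃ j, C n j)) := by
  have h3 : ∀ᵐ x ∂μ, ∀ i : ℕ, ∀ᵐ ω ∂(PP ρ y₀), Cn 𝔣 Bx fun n =>
      w n x * Hi (gU ((m + 1 : ℝ)⁻¹ * (1 - 1 / ((i : ℝ) + 2))) (C n)) ω := by
    rw [ae_all_iff]
    intro i
    have := pm_prob (q_bd m i).1 (q_bd m i).2
    filter_upwards [h1 ((m + 1 : ℝ)⁻¹ * (1 - 1 / ((i : ℝ) + 2))) (q_bd m i).1 (q_bd m i).2]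
      with x hx
    exact conv_HiB (q_bd m i).1 (q_bd m i).2 hC (fun n => hw n x) hx
  have hD : ∀ n, MeasurableSet (⋃ j, C n j) := fun n => MeasurableSet.iUnion fun j => hC n j
  have hDf : ∀ n, Measure.sum ρ (⋃ j, C n j) ≠ ∞ := fun n => fin_iUnion (hCf n)
  have h4 : ∀ᵐ x ∂μ, ∀ᵐ y ∂ν, Cn 𝔣 Bx fun n => w n x * pv (y ∈ E (⋃ j, C n j)) := by
    filter_upwards [h3] with x hx
    refine transfer (P := PP ρ y₀) (fun n => V_meas (hD n)) (fun n => hE.meas _ (hD n) (hDf n))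
      (inter_prob hE hD hDf) ?_
    filter_upwards [ae_all_iff.mpr hx, h2] with ω hω hω'
    exact conv_VB_of (C := C) (w := fun n => w n x) (fun n => hw n x) hω' hω
  have hms : MeasurableSet {z : X × Y | Cn 𝔣 Bx fun n => w n z.1 * pv (z.2 ∈ E (⋃ j, C n j))} := by
    refine measurableSet_exists_tendsto fun N => ?_
    unfold avr
    refine (Finset.measurable_fun_sum _ fun n _ => ?_).const_mul _
    refine ((hwm n).comp measurable_fst).mul ?_
    exact (Poi.pv_mem_meas (hE.meas _ (hD n) (hDf n))).comp measurable_snd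
  exact (Measure.ae_prod_mem_iff_ae_ae_mem hms).mpr h4

/-- Identification of the products. -/
theorem mem_iff {κ : Measure Wt} [IsProbabilityMeasure ν] (hE : IsVoid κ S ν T E)
    [Countable ι] {b : Fin m → ι → Y → Y} {γ : Fin m → ι → Wt → Wt}
    (hγ : ∀ j n, MeasurePreserving (γ j n) κ κ)
    (hbγ : ∀ j n A, MeasurableSet A → κ A ≠ ∞ → (b j n ⁻¹' E A : Set Y) =ᵐ[ν] E (γ j n ⁻¹' A))
    {A : Fin m → Set Wt} (hA : ∀ j, MeasurableSet (A j)) (hAf : ∀ j, κ (A j) ≠ ∞) :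
    ∀ᵐ y ∂ν, ∀ n, (y ∈ E (⋃ j, γ j n ⁻¹' A j)) ↔ ∀ j, b j n y ∈ E (A j) := by
  have hC : ∀ j n, MeasurableSet (γ j n ⁻¹' A j) := fun j n => (hγ j n).measurable (hA j)
  have hCf : ∀ j n, κ (γ j n ⁻¹' A j) ≠ ∞ := fun j n => by
    rw [(hγ j n).measure_preimage (hA j).nullMeasurableSet]
    exact hAf j
  rw [ae_all_iff]
  intro n
  have h7 := hE.biUnion (Finset.univ : Finset (Fin m)) (fun j => hC j n) (fun j => hCf j n)
  have h8 : ∀ᵐ y ∂ν, ∀ j : Fin m, (y ∈ E (γ j n ⁻¹' A j)) ↔ b j n y ∈ E (A j) := by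
    rw [ae_all_iff]
    intro j
    filter_upwards [hbγ j n (A j) (hA j) (hAf j)] with y hy
    exact (Iff.of_eq hy).symm
  filter_upwards [h7, h8] with y hy hy'
  have h9 : (y ∈ E (⋃ i ∈ (Finset.univ : Finset (Fin m)), γ i n ⁻¹' A i)) ↔
      y ∈ ⋂ i ∈ (Finset.univ : Finset (Fin m)), E (γ i n ⁻¹' A i) := Iff.of_eq hy
  have h10 : (⋃ i ∈ (Finset.univ : Finset (Fin m)), γ i n ⁻¹' A i) = ⋃ j, γ j n ⁻¹' A j := by
    simp
  rw [h10] at h9
  rw [h9]
  simp only [Finset.mem_univ, iInter_true, mem_iInter]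
  exact forall_congr' hy'

omit [MeasurableSpace Wt] in
/-- The overlaps. -/
theorem ovl_sum {C : ι → Fin m → Set Wt} {ω : Om Wt}
    (h : ∀ i j : Fin m, i < j →
      Tendsto (fun N => avr (Bx N) fun n => pv (ω ∉ V (C n i ∩ C n j))) 𝔣 (𝓝 0)) :
    Tendsto (fun N => avr (Bx N) fun n => pv (ω ∉ V (Ov (C n)))) 𝔣 (𝓝 0) := by
  let c : Fin m × Fin m → ι → ℝ := fun p n =>
    if p.1 < p.2 then pv (ω ∉ V (C n p.1 ∩ C n p.2)) else 0
  have hc0 : ∀ p n, 0 ≤ c p n := by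
    intro p n
    show 0 ≤ if p.1 < p.2 then _ else _
    split_ifs
    · exact pv_nonneg _
    · exact le_rfl
  have hc : Tendsto (fun N => avr (Bx N) fun n => ∑ p ∈ (Finset.univ : Finset (Fin m × Fin m)),
      c p n) 𝔣 (𝓝 0) := by
    have h3 : Tendsto (fun N => ∑ p ∈ (Finset.univ : Finset (Fin m × Fin m)),
        avr (Bx N) (c p)) 𝔣 (𝓝 (∑ p ∈ (Finset.univ : Finset (Fin m × Fin m)), 0)) := by
      refine tendsto_finsetSum _ fun p _ => ?_
      by_cases hp : p.1 < p.2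
      · have : c p = fun n => pv (ω ∉ V (C n p.1 ∩ C n p.2)) := by
          funext n
          exact if_pos hp
        rw [this]
        exact h p.1 p.2 hp
      · have : c p = fun _ => 0 := by
          funext n
          exact if_neg hp
        rw [this]
        refine tendsto_const_nhds.congr fun N => ?_
        simp [avr]
    rw [Finset.sum_const_zero] at h3
    refine h3.congr fun N => ?_
    unfold avr
    rw [Finset.sum_comm, ← Finset.mul_sum]
  refine squeeze_zero (fun N => avr_nonneg fun n => pv_nonneg _) (fun N => avr_mono ?_) hc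
  intro n _
  by_cases h : ω ∉ V (Ov (C n))
  · rw [pv_true h]
    simp only [V, mem_ofPred_eq, not_forall, not_not] at h
    obtain ⟨k, l, hl, i, j, hij, hi, hj⟩ := h
    have h4 : c (i, j) n = 1 := by
      show (if i < j then pv (ω ∉ V (C n i ∩ C n j)) else 0) = 1
      rw [if_pos hij]
      refine pv_true fun h5 => ?_
      exact h5 k l hl ⟨hi, hj⟩
    rw [← h4]
    exact Finset.single_le_sum (f := fun p => c p n) (fun p _ => hc0 p n) (Finset.mem_univ (i, j))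
  · rw [pv_false h]
    exact Finset.sum_nonneg fun p _ => hc0 p n

end base

end Pool.Agent.TH739.PB
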