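import Mathlib
import Pool.Agent.TH739.PB.Box

/-!
# Negligible families over boxes
-/

set_option autoImplicit false

open Filter Topology MeasureTheory ProbabilityTheory Set
open scoped ENNReal NNReal

noncomputable section

namespace Pool.Agent.TH739.PB

open Pool.Agent.TH739.PA (av avr avr_add avr_sub avr_mul avr_mono avr_nonneg avr_const_le avr_abs
  avr_bound Good int_lim)
open Pool.Agent.TH739.Poi (pv pv_nonneg pv_le pv_true pv_false measurable_pv)
open Pool.Agent.W761.Box (bx orb orb_mp dz)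

open Classical in
/-- Set the dummy coordinates to zero. -/
def proj {k : ℕ} (D : Fin k → Prop) (n : Fin k → ℕ) : Fin k → ℕ := fun l => if D l then 0 else n l

open Classical in
/-- Take the dummy coordinates from the second vector. -/
def mix {k : ℕ} (D : Fin k → Prop) (n' n : Fin k → ℕ) : Fin k → ℕ :=
  fun l => if D l then n l else n' l

/-- Vectors whose dummy coordinates are zero. -/
def Sub {k : ℕ} (D : Fin k → Prop) : Type := {p : Fin k → ℕ // ∀ l, D l → p l = 0}

instance {k : ℕ} (D : Fin k → Prop) : Countable (Sub D) :=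
  inferInstanceAs (Countable {p : Fin k → ℕ // ∀ l, D l → p l = 0})

variable {k : ℕ} {D : Fin k → Prop}

theorem proj_mem (n : Fin k → ℕ) (l : Fin k) (h : D l) : proj D n l = 0 := if_pos h

theorem freq_le (M : Fin k → ℕ) (p : Fin k → ℕ) [∀ l, Decidable (D l)] :
    avr (box k M) (fun n => pv (proj D n = p)) ≤ ∏ l, (if D l then (1 : ℝ) else (M l : ℝ)⁻¹) := by
  classical
  have h0 : (0 : ℝ) ≤ ∏ l, (if D l then (1 : ℝ) else (M l : ℝ)⁻¹) := by
    refine Finset.prod_nonneg fun l _ => ?_
    split_ifs <;> positivity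
  by_cases hM : ∀ l, 0 < M l
  swap
  · rw [not_forall] at hM
    obtain ⟨l, hl⟩ := hM
    have h1 : box k M = ∅ := by
      refine Finset.eq_empty_iff_forall_notMem.mpr fun n hn => ?_
      have := mem_box.mp hn l
      omega
    rw [h1, avr]
    simpa using h0
  rw [avr, box_card]
  have h1 : ∑ n ∈ box k M, pv (proj D n = p) ≤ ∏ l, (if D l then (M l : ℝ) else 1) := by
    have e : ∑ n ∈ box k M, pv (proj D n = p) = ((box k M).filter fun n => proj D n = p).card := by
      rw [Finset.card_filter]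
      push_cast
      refine Finset.sum_congr rfl fun n _ => ?_
      by_cases h : proj D n = p
      · rw [pv_true h, if_pos h]
      · rw [pv_false h, if_neg h]
    rw [e]
    have h2 : (box k M).filter (fun n => proj D n = p) ⊆
        Fintype.piFinset (fun l => if D l then Finset.range (M l) else {p l}) := by
      intro n hn
      rw [Finset.mem_filter] at hn
      rw [Fintype.mem_piFinset]
      intro l
      by_cases hl : D l
      · rw [if_pos hl, Finset.mem_range]
        exact mem_box.mp hn.1 l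
      · rw [if_neg hl, Finset.mem_singleton, ← hn.2]
        exact (if_neg hl).symm
    have h3 := Finset.card_le_card h2
    rw [Fintype.card_piFinset] at h3
    have h4 : ∏ l, (if D l then Finset.range (M l) else {p l}).card =
        ∏ l, (if D l then M l else 1) := by
      refine Finset.prod_congr rfl fun l _ => ?_
      by_cases hl : D l
      · rw [if_pos hl, if_pos hl, Finset.card_range]
      · rw [if_neg hl, if_neg hl, Finset.card_singleton]
    rw [h4] at h3
    calc (((box k M).filter fun n => proj D n = p).card : ℝ) ≤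
        ((∏ l, (if D l then M l else 1) : ℕ) : ℝ) := by exact_mod_cast h3
      _ = ∏ l, (if D l then (M l : ℝ) else 1) := by
        push_cast
        refine Finset.prod_congr rfl fun l _ => ?_
        split_ifs <;> simp
  calc ((∏ l, M l : ℕ) : ℝ)⁻¹ * ∑ n ∈ box k M, pv (proj D n = p) ≤
      ((∏ l, M l : ℕ) : ℝ)⁻¹ * ∏ l, (if D l then (M l : ℝ) else 1) :=
        mul_le_mul_of_nonneg_left h1 (by positivity)
    _ = ∏ l, (if D l then (1 : ℝ) else (M l : ℝ)⁻¹) := by
      push_cast
      rw [← Finset.prod_inv_distrib, ← Finset.prod_mul_distrib]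
      refine Finset.prod_congr rfl fun l _ => ?_
      have : (M l : ℝ) ≠ 0 := by exact_mod_cast (hM l).ne'
      split_ifs
      · rw [inv_mul_cancel₀ this]
      · rw [mul_one]

theorem freq_le' (M : Fin k → ℕ) (p : Sub D) :
    avr (box k M) (fun n => pv (proj D n = p.1)) ≤ ∏ l, (1 + (p.1 l : ℝ))⁻¹ := by
  classical
  by_cases h : ∃ n ∈ box k M, proj D n = p.1
  · obtain ⟨n, hn, he⟩ := h
    refine (freq_le M p.1).trans (Finset.prod_le_prod (fun l _ => ?_) fun l _ => ?_)
    · split_ifs <;> positivity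
    · by_cases hl : D l
      · rw [if_pos hl, p.2 l hl]
        simp
      · rw [if_neg hl]
        have h1 := mem_box.mp hn l
        have h2 : n l = p.1 l := by
          rw [← he]
          exact (if_neg hl).symm
        rw [h2] at h1
        have h3 : (p.1 l : ℝ) + 1 ≤ M l := by exact_mod_cast h1
        exact inv_anti₀ (by positivity) (by linarith)
  · have h1 : avr (box k M) (fun n => pv (proj D n = p.1)) = 0 := by
      rw [avr, Finset.sum_eq_zero, mul_zero]
      intro n hn
      exact pv_false fun he => h ⟨n, hn, he⟩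
    rw [h1]
    exact Finset.prod_nonneg fun l _ => by positivity

theorem freq_tend (hD : ∃ l, ¬ D l) (p : Fin k → ℕ) :
    Tendsto (fun M => avr (box k M) (fun n => pv (proj D n = p))) atTop (𝓝 0) := by
  classical
  obtain ⟨l₀, hl₀⟩ := hD
  have h1 : Tendsto (fun M : Fin k → ℕ => (M l₀ : ℝ)⁻¹) atTop (𝓝 0) := by
    have h2 : Tendsto (fun M : Fin k → ℕ => M l₀) atTop atTop := by
      rw [tendsto_atTop]
      intro b
      filter_upwards [eventually_ge_atTop (fun _ => b)] with M hM
      exact hM l₀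
    exact tendsto_inv_atTop_zero.comp (tendsto_natCast_atTop_atTop.comp h2)
  refine squeeze_zero (fun M => avr_nonneg fun n => pv_nonneg _) (fun M => ?_) h1
  refine (freq_le M p).trans ?_
  rw [← Finset.mul_prod_erase _ _ (Finset.mem_univ l₀), if_neg hl₀]
  refine mul_le_of_le_one_right (by positivity) ?_
  refine Finset.prod_le_one (fun l _ => ?_) fun l _ => ?_
  · split_ifs <;> positivity
  · split_ifs
    · exact le_rfl
    · exact Nat.cast_inv_le_one _

/-- The deterministic statement. -/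
theorem tannery (hD : ∃ l, ¬ D l) {β : (Fin k → ℕ) → ℝ} (h0 : ∀ n, 0 ≤ β n)
    (hs : Summable fun p : Sub D => β p.1 / ∏ l, (1 + (p.1 l : ℝ))) :
    Tendsto (fun M => avr (box k M) (fun n => β (proj D n))) atTop (𝓝 0) := by
  have e : ∀ M, avr (box k M) (fun n => β (proj D n)) =
      ∑' p : Sub D, β p.1 * avr (box k M) (fun n => pv (proj D n = p.1)) := by
    intro M
    have h1 : ∀ n, HasSum (fun p : Sub D => β p.1 * pv (proj D n = p.1)) (β (proj D n)) := by
      intro n
      have h2 := hasSum_single (f := fun p : Sub D => β p.1 * pv (proj D n = p.1))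
        (⟨proj D n, fun l hl => proj_mem n l hl⟩ : Sub D) fun p hp => by
          rw [pv_false, mul_zero]
          intro h3
          exact hp (Subtype.ext h3.symm)
      rw [pv_true rfl, mul_one] at h2
      exact h2
    have h3 := (hasSum_sum (s := box k M) fun n _ => h1 n).mul_left ((box k M).card : ℝ)⁻¹
    rw [avr, ← h3.tsum_eq]
    refine tsum_congr fun p => ?_
    rw [avr, ← Finset.mul_sum]
    ring
  simp only [e]
  have h := tendsto_tsum_of_dominated_convergence (𝓕 := atTop)
    (f := fun M (p : Sub D) => β p.1 * avr (box k M) (fun n => pv (proj D n = p.1)))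
    (g := fun _ => (0 : ℝ)) (bound := fun p : Sub D => β p.1 / ∏ l, (1 + (p.1 l : ℝ))) hs
    (fun p => by
      have := (freq_tend hD p.1).const_mul (β p.1)
      rwa [mul_zero] at this)
    (Eventually.of_forall fun M p => by
      rw [Real.norm_of_nonneg (mul_nonneg (h0 _) (avr_nonneg fun n => pv_nonneg _)),
        div_eq_mul_inv, ← Finset.prod_inv_distrib]
      exact mul_le_mul_of_nonneg_left (freq_le' M p) (h0 _))
  rwa [tsum_zero] at h

section prob

variable {Y : Type} [MeasurableSpace Y] {ν : Measure Y} [IsProbabilityMeasure ν]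

/-- Almost sure summability. -/
theorem ae_summable {S : Type*} [Countable S] {g : S → Y → ℝ} (hg : ∀ p, Measurable (g p))
    (h0 : ∀ p y, 0 ≤ g p y) (hb : ∀ p y, g p y ≤ 1) (hs : Summable fun p => ∫ y, g p y ∂ν) :
    ∀ᵐ y ∂ν, Summable fun p => g p y := by
  have hi : ∀ p, Integrable (g p) ν := fun p =>
    Integrable.of_bound (hg p).aestronglyMeasurable 1 (Eventually.of_forall fun y => by
      rw [Real.norm_of_nonneg (h0 _ _)]
      exact hb _ _)
  have h1 : ∫⁻ y, ∑' p, ENNReal.ofReal (g p y) ∂ν ≠ ∞ := by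
    rw [lintegral_tsum fun p => ((hg p).ennreal_ofReal).aemeasurable]
    have h2 : ∀ p, ∫⁻ y, ENNReal.ofReal (g p y) ∂ν = ENNReal.ofReal (∫ y, g p y ∂ν) := fun p =>
      (ofReal_integral_eq_lintegral_ofReal (hi p) (Eventually.of_forall fun y => h0 p y)).symm
    simp only [h2]
    rw [← ENNReal.ofReal_tsum_of_nonneg (fun p => integral_nonneg fun y => h0 p y) hs]
    exact ENNReal.ofReal_ne_top
  have h3 := ae_lt_top' (by fun_prop) h1
  filter_upwards [h3] with y hy
  have h4 := ENNReal.summable_toReal hy.ne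
  refine h4.congr fun p => ?_
  rw [ENNReal.toReal_ofReal (h0 p y)]

theorem orb_congr {X : Type*} : ∀ (k : ℕ) (σ : Fin k → X → X) (n n' : Fin k → ℕ) (x : X)
    (_ : ∀ l, σ l = id ∨ n l = n' l), orb k σ n x = orb k σ n' x
  | 0, _, _, _, _, _ => rfl
  | k + 1, σ, n, n', x, h => by
    have h1 := orb_congr k (Fin.tail σ) (Fin.tail n) (Fin.tail n') x fun l => h l.succ
    show (σ 0)^[n 0] (orb k (Fin.tail σ) (Fin.tail n) x) =
      (σ 0)^[n' 0] (orb k (Fin.tail σ) (Fin.tail n') x)
    rw [h1]
    rcases h 0 with h2 | h2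
    · rw [h2, Function.iterate_id, Function.iterate_id]
    · rw [h2]

theorem mix_box {M n n' : Fin k → ℕ} (hn : n ∈ box k M) (hn' : n' ∈ box k M) :
    mix D n' n ∈ box k M := by
  rw [mem_box] at hn hn' ⊢
  intro l
  unfold mix
  split_ifs
  · exact hn l
  · exact hn' l

theorem mix_mix (n n' : Fin k → ℕ) : mix D (mix D n n') (mix D n' n) = n := by
  funext l
  unfold mix
  split_ifs <;> rfl

/-- Decoupling of the dummy variables. -/
theorem avr_mix (M : Fin k → ℕ) (A : (Fin k → ℕ) → ℝ) :
    avr (box k M) A = avr (box k M) fun n => avr (box k M) fun n' => A (mix D n' n) := by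
  have h1 : ∑ n ∈ box k M, ∑ n' ∈ box k M, A (mix D n' n) = (box k M).card * ∑ n ∈ box k M, A n := by
    rw [← Finset.sum_product']
    have h2 : ∑ x ∈ box k M ×ˢ box k M, A (mix D x.2 x.1) = ∑ x ∈ box k M ×ˢ box k M, A x.1 := by
      refine Finset.sum_nbij' (fun x => (mix D x.2 x.1, mix D x.1 x.2))
        (fun x => (mix D x.2 x.1, mix D x.1 x.2)) ?_ ?_ ?_ ?_ ?_
      · intro x hx
        rw [Finset.mem_product] at hx ⊢
        exact ⟨mix_box hx.1 hx.2, mix_box hx.2 hx.1⟩
      · intro x hx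
        rw [Finset.mem_product] at hx ⊢
        exact ⟨mix_box hx.1 hx.2, mix_box hx.2 hx.1⟩
      · intro x _
        exact Prod.ext (mix_mix _ _) (mix_mix _ _)
      · intro x _
        exact Prod.ext (mix_mix _ _) (mix_mix _ _)
      · intro x _
        rfl
    rw [h2, Finset.sum_product, Finset.mul_sum]
    refine Finset.sum_congr rfl fun n _ => ?_
    show ∑ y ∈ box k M, A n = _
    rw [Finset.sum_const, nsmul_eq_mul]
  by_cases hc : ((box k M).card : ℝ) = 0
  · unfold avr
    rw [hc]
    simp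
  have h3 : (avr (box k M) fun n => avr (box k M) fun n' => A (mix D n' n)) =
      ((box k M).card : ℝ)⁻¹ * (((box k M).card : ℝ)⁻¹ *
        ∑ n ∈ box k M, ∑ n' ∈ box k M, A (mix D n' n)) := by
    show ((box k M).card : ℝ)⁻¹ * ∑ n ∈ box k M, (((box k M).card : ℝ)⁻¹ *
      ∑ n' ∈ box k M, A (mix D n' n)) = _
    rw [← Finset.mul_sum]
  rw [h3, h1, inv_mul_cancel_left₀ hc]
  rfl

/-- **Negligible families with dummy variables.** -/
theorem negl (hD : ∃ l, ¬ D l) {b : (Fin k → ℕ) → Y → ℝ} (hb : ∀ n, Measurable (b n))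
    (h0 : ∀ n y, 0 ≤ b n y) (h1 : ∀ n y, b n y ≤ 1)
    (hs : Summable fun p : Sub D => (∫ y, b p.1 y ∂ν) / ∏ l, (1 + (p.1 l : ℝ)))
    {τ : Fin k → Y → Y} (hτ : ∀ l, MeasurePreserving (τ l) ν ν) (hτD : ∀ l, ¬ D l → τ l = id)
    (hbt : ∀ n, ∀ᵐ y ∂ν, b n y = b (proj D n) (orb k τ n y)) :
    ∀ᵐ y ∂ν, Tendsto (fun M => avr (box k M) fun n => b n y) atTop (𝓝 0) := by
  have hpr : ∀ p : Sub D, (1 : ℝ) ≤ ∏ l, (1 + (p.1 l : ℝ)) := by
    intro p
    have : ∏ l : Fin k, (1 : ℝ) ≤ ∏ l, (1 + (p.1 l : ℝ)) :=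
      Finset.prod_le_prod (fun _ _ => zero_le_one) fun l _ => by
        have : (0 : ℝ) ≤ p.1 l := by positivity
        linarith
    simpa using this
  have hsum : ∀ᵐ y ∂ν, Summable fun p : Sub D => b p.1 y / ∏ l, (1 + (p.1 l : ℝ)) := by
    refine ae_summable (fun p => (hb _).div_const _)
      (fun p y => div_nonneg (h0 _ _) (by linarith [hpr p])) (fun p y => ?_) ?_
    · exact (div_le_self (h0 _ _) (hpr p)).trans (h1 _ _)
    · refine hs.congr fun p => ?_
      rw [integral_div]
  let ψ : (Fin k → ℕ) → Y → ℝ := fun M y => avr (box k M) fun n => b (proj D n) y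
  have hψm : ∀ M, Measurable (ψ M) := fun M =>
    (Finset.measurable_fun_sum _ fun n _ => hb _).const_mul _
  have hψ0 : ∀ M y, 0 ≤ ψ M y := fun M y => avr_nonneg fun n => h0 _ _
  have hψ1 : ∀ M y, ψ M y ≤ 1 := fun M y =>
    (avr_mono fun n _ => h1 _ _).trans (avr_const_le zero_le_one)
  have hψt : ∀ᵐ y ∂ν, Tendsto (fun M => ψ M y) atTop (𝓝 0) := by
    filter_upwards [hsum] with y hy
    exact tannery (β := fun n => b n y) hD (fun n => h0 n y) hy
  let Ψ : ℕ → Y → ℝ := fun K y => ⨆ M : Fin k → ℕ, ψ (fun l => M l + K) y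
  have hbdd : ∀ K y, BddAbove (Set.range fun M : Fin k → ℕ => ψ (fun l => M l + K) y) := by
    intro K y
    refine ⟨1, ?_⟩
    rintro _ ⟨M, rfl⟩
    exact hψ1 (fun l => M l + K) y
  have hΨm : ∀ K, Measurable (Ψ K) := fun K => Measurable.iSup fun M => hψm _
  have hΨ0 : ∀ K y, 0 ≤ Ψ K y := fun K y =>
    (hψ0 (fun l => (fun _ => 0 : Fin k → ℕ) l + K) y).trans (le_ciSup (hbdd K y) (fun _ => 0))
  have hΨ1 : ∀ K y, Ψ K y ≤ 1 := fun K y => ciSup_le fun M => hψ1 (fun l => M l + K) y
  have hΨle : ∀ K M y, (∀ l, K ≤ M l) → ψ M y ≤ Ψ K y := by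
    intro K M y h
    have h2 := le_ciSup (hbdd K y) (fun l => M l - K)
    have h3 : (fun l => M l - K + K) = M := by
      funext l
      exact Nat.sub_add_cancel (h l)
    simp only [h3] at h2
    exact h2
  have hΨlim : ∀ᵐ y ∂ν, Tendsto (fun K => Ψ K y) atTop (𝓝 0) := by
    filter_upwards [hψt] with y hy
    rw [Metric.tendsto_atTop]
    intro ε hε
    obtain ⟨M₀, hM₀⟩ := Metric.tendsto_atTop.mp hy (ε / 2) (by positivity)
    refine ⟨∑ l, M₀ l, fun K hK => ?_⟩
    rw [Real.dist_eq, sub_zero, abs_of_nonneg (hΨ0 K y)]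
    have : Ψ K y ≤ ε / 2 := by
      refine ciSup_le fun M => ?_
      have h2 := hM₀ (fun l => M l + K) fun l => by
        have : M₀ l ≤ ∑ l, M₀ l := Finset.single_le_sum (fun _ _ => Nat.zero_le _)
          (Finset.mem_univ l)
        show M₀ l ≤ M l + K
        omega
      rw [Real.dist_eq, sub_zero, abs_of_nonneg (hψ0 (fun l => M l + K) y)] at h2
      exact h2.le
    linarith
  have hΨint : Tendsto (fun K => ∫ y, Ψ K y ∂ν) atTop (𝓝 0) := by
    have := tendsto_integral_of_dominated_convergence (fun _ => (1 : ℝ))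
      (fun K => (hΨm K).aestronglyMeasurable) (integrable_const _)
      (fun K => Eventually.of_forall fun y => by
        rw [Real.norm_of_nonneg (hΨ0 K y)]
        exact hΨ1 K y) hΨlim
    rwa [integral_zero] at this
  have hgood := good_orb k hτ
  have hE := fun K => hgood (Ψ K) (hΨm K) ⟨1, fun y => by
    rw [abs_of_nonneg (hΨ0 K y)]
    exact hΨ1 K y⟩
  let γ : ℕ → Y → ℝ := fun K y => limUnder atTop fun M => avr (box k M) fun n =>
    Ψ K (orb k τ n y)
  have hγ : ∀ K, ∀ᵐ y ∂ν, Tendsto (fun M => avr (box k M) fun n => Ψ K (orb k τ n y)) atTop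
      (𝓝 (γ K y)) := by
    intro K
    filter_upwards [hE K] with y hy
    exact tendsto_nhds_limUnder hy
  have hγi := fun K => int_lim (fun n => orb_mp k τ hτ n) (hΨm K) zero_le_one (fun y => by
    rw [abs_of_nonneg (hΨ0 K y)]
    exact hΨ1 K y) (hΨ0 K) (hγ K)
  have hsmall : ∀ t : ℕ, ∀ᵐ y ∂ν, ∃ K, γ K y < 1 / ((t : ℝ) + 1) := by
    intro t
    have hε : (0 : ℝ) < 1 / ((t : ℝ) + 1) := by positivity
    rw [ae_iff]
    simp only [not_exists, not_lt]
    have h2 : ∀ K, 1 / ((t : ℝ) + 1) * ν.real {y | ∀ K, 1 / ((t : ℝ) + 1) ≤ γ K y} ≤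
        ∫ y, Ψ K y ∂ν := by
      intro K
      refine le_trans ?_ ((mul_meas_ge_le_integral_of_nonneg (hγi K).1 (hγi K).2.1
        (1 / ((t : ℝ) + 1))).trans (hγi K).2.2)
      refine mul_le_mul_of_nonneg_left ?_ hε.le
      exact measureReal_mono fun x hx => hx K
    have h3 : 1 / ((t : ℝ) + 1) * ν.real {y | ∀ K, 1 / ((t : ℝ) + 1) ≤ γ K y} ≤ 0 :=
      ge_of_tendsto' hΨint h2
    have h4 : ν.real {y | ∀ K, 1 / ((t : ℝ) + 1) ≤ γ K y} = 0 := by
      refine le_antisymm ?_ measureReal_nonneg
      by_contra h5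
      rw [not_le] at h5
      exact absurd h3 (not_le.mpr (mul_pos hε h5))
    exact (measureReal_eq_zero_iff).mp h4
  filter_upwards [ae_all_iff.mpr hγ, ae_all_iff.mpr hsmall, ae_all_iff.mpr hbt] with y hy1 hy2 hy3
  have hkey : ∀ K M, (∀ l, K ≤ M l) → avr (box k M) (fun n => b n y) ≤
      avr (box k M) fun n => Ψ K (orb k τ n y) := by
    intro K M hKM
    rw [avr_mix (D := D) M fun n => b n y]
    refine avr_mono fun n _ => ?_
    have h5 : (avr (box k M) fun n' => b (mix D n' n) y) = ψ M (orb k τ n y) := by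
      show _ = avr (box k M) fun n' => b (proj D n') (orb k τ n y)
      congr 1
      funext n'
      rw [hy3 (mix D n' n)]
      have h6 : proj D (mix D n' n) = proj D n' := by
        funext l
        unfold proj mix
        split_ifs <;> rfl
      have h7 : orb k τ (mix D n' n) y = orb k τ n y := by
        refine orb_congr k τ _ _ y fun l => ?_
        by_cases hl : D l
        · exact Or.inr (if_pos hl)
        · exact Or.inl (hτD l hl)
      rw [h6, h7]
    rw [h5]
    exact hΨle K M _ hKM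
  rw [Metric.tendsto_atTop]
  intro ε hε
  obtain ⟨t, ht⟩ := exists_nat_one_div_lt hε
  obtain ⟨K, hK⟩ := hy2 t
  obtain ⟨M₁, hM₁⟩ := eventually_atTop.mp ((tendsto_order.mp (hy1 K)).2 ε (hK.trans ht))
  refine ⟨fun l => M₁ l + K, fun M hM => ?_⟩
  rw [Real.dist_eq, sub_zero, abs_of_nonneg (avr_nonneg fun n => h0 _ _)]
  refine (hkey K M fun l => ?_).trans_lt (hM₁ M fun l => ?_)
  · have h8 : M₁ l + K ≤ M l := hM l
    omega
  · have h8 : M₁ l + K ≤ M l := hM l
    show M₁ l ≤ M l
    omega

end prob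

end Pool.Agent.TH739.PB
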