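import Mathlib
import Pool.Agent.TH739.PB.Gen
import Pool.Agent.TH739.PB.Tan

/-!
# Linear sequences: marked points and overlaps
-/

set_option autoImplicit false

open Filter Topology MeasureTheory ProbabilityTheory Set
open scoped ENNReal NNReal symmDiff

noncomputable section

namespace Pool.Agent.TH739.PB

open Pool.Agent.TH739.PA (av avr avr_add avr_sub avr_mul avr_mono avr_nonneg avr_const_le avr_abs
  avr_bound av_ofReal av_add av_mul av_sub av_norm Good int_lim Cls_conv closed_slot ind_BM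
  BM_update BM_add BM_smul ext_one ext_all pr pr_update int_snd Qf IsPoissonAction
  exists_isPoissonAction)
open Pool.Agent.TH739.Poi (pv pv_nonneg pv_le pv_true pv_false measurable_pv pv_mem_meas
  Om PP Th TT W W_meas W_union prob_W pm pm_prob gU Hi V V_meas V_union prob_V Ov q_bd IsVoid
  fin_biUnion Rec Rec_pi Rec_univ Rec_gen)
open Pool.Agent.W761.Gauss (BM)
open Pool.Agent.W761.Box (bx orb orb_mp dz)

section group

variable {G : Type*} [Group G] {k : ℕ}

theorem ofFn_mul : ∀ (k : ℕ) (a b : Fin k → G) (_ : ∀ l, b l ∈ Subgroup.center G),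
    (List.ofFn fun l => a l * b l).prod = (List.ofFn a).prod * (List.ofFn b).prod
  | 0, a, b, _ => by simp
  | k + 1, a, b, h => by
    have h1 := ofFn_mul k (fun l => a l.succ) (fun l => b l.succ) fun l => h l.succ
    simp only [List.ofFn_succ, List.prod_cons]
    rw [h1]
    have h2 := Subgroup.mem_center_iff.mp (h 0) (List.ofFn fun l => a l.succ).prod
    calc a 0 * b 0 * ((List.ofFn fun l => a l.succ).prod * (List.ofFn fun l => b l.succ).prod) =
        a 0 * (b 0 * (List.ofFn fun l => a l.succ).prod) * (List.ofFn fun l => b l.succ).prod := by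
          simp only [mul_assoc]
      _ = a 0 * ((List.ofFn fun l => a l.succ).prod * b 0) *
          (List.ofFn fun l => b l.succ).prod := by rw [h2]
      _ = _ := by simp only [mul_assoc]

open Classical in
/-- the central part -/
def cen (D : Fin k → Prop) (u : Fin k → G) (l : Fin k) : G := if D l then u l else 1

theorem lin_split {D : Fin k → Prop} {u : Fin k → G} (hD : ∀ l, D l → u l ∈ Subgroup.center G)
    (n : Fin k → ℕ) : lin u n = lin u (proj D n) * lin (cen D u) n := by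
  unfold lin
  rw [← ofFn_mul]
  · congr 2
    funext l
    by_cases hl : D l
    · have e1 : proj D n l = 0 := if_pos hl
      have e2 : cen D u l = u l := if_pos hl
      rw [e1, e2, pow_zero, one_mul]
    · have e1 : proj D n l = n l := if_neg hl
      have e2 : cen D u l = 1 := if_neg hl
      rw [e1, e2, one_pow, mul_one]
  · intro l
    refine Subgroup.pow_mem _ ?_ _
    by_cases hl : D l
    · have e2 : cen D u l = u l := if_pos hl
      rw [e2]
      exact hD l hl
    · have e2 : cen D u l = 1 := if_neg hl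
      rw [e2]
      exact Subgroup.one_mem _

end group

section joint

variable {X Y Wt G : Type} [Group G] [MeasurableSpace X] [MeasurableSpace Y] [MeasurableSpace Wt]
  {μ : Measure X} {ν : Measure Y} {ρ : ℕ → Measure Wt} {y₀ : Wt} {S : Wt → Wt} {T : Y → Y}
  {E : Set Wt → Set Y} {k m : ℕ}

/-- The averages of the products along `a` converge jointly with every system with `k` measure
preserving transformations. -/
def JC (k m : ℕ) (μ : Measure X) (a : Fin m → (Fin k → ℕ) → X → X) : Prop :=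
  ∀ (Z : Type) (_ : MeasurableSpace Z) (P : Measure Z) (_ : IsProbabilityMeasure P)
    (σ : Fin k → Z → Z), (∀ l, MeasurePreserving (σ l) P P) →
    ∀ H : Z → ℝ, Measurable H → (∃ C : ℝ, ∀ z, |H z| ≤ C) → ∀ F : Fin m → X → ℂ,
    (∀ j, BM (F j)) → ∀ᵐ p ∂(μ.prod P), ∃ L : ℂ, Tendsto (fun M => av (box k M) fun n =>
      (∏ j, F j (a j n p.1)) * (H (orb k σ n p.2) : ℂ)) atTop (𝓝 L)

theorem toReal_smul {κ : Measure Wt} {q : ℝ} (h0 : 0 ≤ q) (B : Set Wt) :
    ((ENNReal.ofReal q • κ) B).toReal = q * (κ B).toReal := by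
  rw [Measure.smul_apply, smul_eq_mul, ENNReal.toReal_mul, ENNReal.toReal_ofReal h0]

/-- **Convergence for the marked points.** -/
theorem conv_marked [∀ k, IsFiniteMeasure (ρ k)] [IsProbabilityMeasure μ] {Θ : G →* Equiv.Perm Wt}
    (hΘ : ∀ g, MeasurePreserving (Θ g) (Measure.sum ρ) (Measure.sum ρ)) (u : Fin m → Fin k → G)
    {a : Fin m → (Fin k → ℕ) → X → X} (hJ : JC k m μ a) {D₁ : Fin m → Set X}
    (hD₁ : ∀ j, MeasurableSet (D₁ j)) {A : Fin m → Set Wt} (hA : ∀ j, MeasurableSet (A j))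
    (hAf : ∀ j, Measure.sum ρ (A j) ≠ ∞) (q : ℝ) [IsProbabilityMeasure (pm m q)] (h0 : 0 ≤ q)
    (h1 : m * q ≤ 1) :
    ∀ᵐ x ∂μ, ∀ᵐ p ∂((PP ρ y₀).prod (TT m q)), Cn atTop (box k) fun n =>
      (∏ j, (D₁ j).indicator (fun _ => (1 : ℝ)) (a j n x)) *
        pv (p ∈ W (fun j => Θ (lin (u j) n) ⁻¹' A j)) := by
  have hne : Nonempty Wt := ⟨y₀⟩
  set κ := Measure.sum ρ with hκ
  have hsf : SFinite κ := by
    rw [hκ]
    infer_instance
  have hC : ∀ n j, MeasurableSet (Θ (lin (u j) n) ⁻¹' A j) := fun n j =>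
    (hΘ _).measurable (hA j)
  have hCf : ∀ n j, κ (Θ (lin (u j) n) ⁻¹' A j) ≠ ∞ := fun n j => by
    rw [(hΘ _).measure_preimage (hA j).nullMeasurableSet]
    exact hAf j
  obtain ⟨Yq, mY, νq, Ψq, hprob, hP⟩ := exists_isPoissonAction (ENNReal.ofReal q • κ) Θ
    fun g => (hΘ g).smul_measure _
  obtain ⟨E, hE, hEq⟩ := hP.void
  have hfin : ∀ B, κ B ≠ ∞ → (ENNReal.ofReal q • κ) B ≠ ∞ := fun B hB =>
    ENNReal.mul_ne_top ENNReal.ofReal_ne_top hB
  let P : Measure (Fin m → Yq) := Measure.pi fun _ => νq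
  let σ : Fin k → (Fin m → Yq) → (Fin m → Yq) := fun l z j => Ψq (u j l) (z j)
  have hσ : ∀ l, MeasurePreserving (σ l) P P := fun l =>
    measurePreserving_pi _ _ fun j => hP.mp _
  let D : Set (Fin m → Yq) := Set.pi univ fun j => E (A j)
  have hDm : MeasurableSet D := MeasurableSet.univ_pi fun j => hE.meas _ (hA j) (hfin _ (hAf j))
  have hJ1 := hJ (Fin m → Yq) inferInstance P inferInstance σ hσ (fun z => pv (z ∈ D))
    (pv_mem_meas hDm) ⟨1, fun z => by
      rw [abs_of_nonneg (pv_nonneg _)]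
      exact pv_le _⟩ (fun j => (D₁ j).indicator fun _ => 1) fun j => ind_BM (hD₁ j) 1
  filter_upwards [Measure.ae_ae_of_ae_prod hJ1] with x hx
  have horb : ∀ n z, orb k σ n z = fun j => Ψq (lin (u j) n) (z j) := by
    intro n z
    have h2 := orb_pi k (fun j l => (Ψq (u j l) : Yq → Yq)) n z
    refine h2.trans ?_
    funext j
    exact orb_lin Ψq k (u j) n (z j)
  refine transfer (P := P) (F := fun n => {z | orb k σ n z ∈ D})
    (F' := fun n => W (fun j => Θ (lin (u j) n) ⁻¹' A j))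
    (fun n => (orb_mp k σ hσ n).measurable hDm) (fun n => W_meas fun j => hC n j) ?_ ?_
  · intro J
    have e1 : (⋂ n ∈ J, {z | orb k σ n z ∈ D}) =
        Set.pi univ fun j => ⋂ n ∈ J, (Ψq (lin (u j) n) ⁻¹' E (A j)) := by
      ext z
      simp only [mem_iInter, mem_ofPred_eq, horb, D, Set.mem_pi, mem_univ, true_imp_iff,
        mem_preimage]
      exact ⟨fun h j n hn => h n hn j, fun h n hn j => h j n hn⟩
    rw [e1, Measure.pi_pi]
    have e2 : ∀ j, νq (⋂ n ∈ J, (Ψq (lin (u j) n) ⁻¹' E (A j))) =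
        ENNReal.ofReal (Real.exp (-(q * (κ (⋃ n ∈ J, Θ (lin (u j) n) ⁻¹' A j)).toReal))) := by
      intro j
      have hm := Finset.measurableSet_biUnion J fun n (_ : n ∈ J) => hC n j
      rw [← toReal_smul h0, ← hE.prob _ hm (hfin _ (fin_biUnion J fun n => hCf n j))]
      refine (measure_congr ?_).trans (measure_congr
        (hE.biUnion J (B := fun n => Θ (lin (u j) n) ⁻¹' A j) (fun n => hC n j)
          fun n => hfin _ (hCf n j))).symm
      have h3 : ∀ᵐ y ∂νq, ∀ n ∈ J, (y ∈ (Ψq (lin (u j) n) ⁻¹' E (A j) : Set Yq)) =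
          (y ∈ E (Θ (lin (u j) n) ⁻¹' A j)) := by
        rw [Finset.eventually_all J]
        intro n _
        exact hEq (lin (u j) n) (A j) (hA j) (hfin _ (hAf j))
      filter_upwards [h3] with y hy
      apply propext
      show y ∈ (⋂ n ∈ J, (Ψq (lin (u j) n) ⁻¹' E (A j))) ↔ y ∈ ⋂ n ∈ J, E (Θ (lin (u j) n) ⁻¹' A j)
      simp only [mem_iInter]
      exact forall₂_congr fun n hn => Iff.of_eq (hy n hn)
    rw [Finset.prod_congr rfl fun j _ => e2 j, ← W_union,
      prob_W (y₀ := y₀) h0 h1 (fun j => Finset.measurableSet_biUnion J fun n _ => hC n j)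
        fun j => fin_biUnion J fun n => hCf n j,
      ← ENNReal.ofReal_prod_of_nonneg fun j _ => (Real.exp_pos _).le, ← Real.exp_sum,
      Finset.sum_neg_distrib, Finset.mul_sum]
  · filter_upwards [hx] with z hz
    obtain ⟨L, hL⟩ := hz
    refine ⟨L.re, ?_⟩
    have h3 := (Complex.continuous_re.tendsto L).comp hL
    refine h3.congr fun M => ?_
    have e3 : (fun n => (∏ j, (D₁ j).indicator (fun _ => (1 : ℂ)) (a j n x)) *
        ((pv (orb k σ n z ∈ D) : ℝ) : ℂ)) = fun n =>
        (((∏ j, (D₁ j).indicator (fun _ => (1 : ℝ)) (a j n x)) *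
          pv (orb k σ n z ∈ D) : ℝ) : ℂ) := by
      funext n
      push_cast
      congr 1
      refine Finset.prod_congr rfl fun j _ => ?_
      by_cases h : a j n x ∈ D₁ j <;> simp [h]
    simp only [Function.comp_apply]
    rw [e3, av_ofReal, Complex.ofReal_re]

/-- **Negligible overlaps.** -/
theorem overlaps [IsProbabilityMeasure ν] {κ : Measure Wt} {Θ : G →* Equiv.Perm Wt}
    {Ψ : G →* Equiv.Perm Y} (hΘ : ∀ g, MeasurePreserving (Θ g) κ κ)
    (hΨ : ∀ g, MeasurePreserving (Ψ g) ν ν) (hE : IsVoid κ S ν T E)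
    (hEq : ∀ g A, MeasurableSet A → κ A ≠ ∞ → (Ψ g ⁻¹' E A : Set Y) =ᵐ[ν] E (Θ g ⁻¹' A))
    {u v : Fin k → G} (huv : u ≠ v) {A B : Set Wt} (hA : MeasurableSet A) (hB : MeasurableSet B)
    (hAf : κ A ≠ ∞)
    (hs : Summable fun p : Sub (fun l => u l = v l ∧ u l ∈ Subgroup.center G) =>
      κ.real (Θ (lin u p.1) ⁻¹' A ∩ Θ (lin v p.1) ⁻¹' B) / ∏ l, (1 + (p.1 l : ℝ))) :
    ∀ᵐ y ∂ν, Tendsto (fun M => avr (box k M) fun n =>
      pv (y ∉ E (Θ (lin u n) ⁻¹' A ∩ Θ (lin v n) ⁻¹' B))) atTop (𝓝 0) := by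
  set D : Fin k → Prop := fun l => u l = v l ∧ u l ∈ Subgroup.center G with hDdef
  let C : (Fin k → ℕ) → Set Wt := fun n => Θ (lin u n) ⁻¹' A ∩ Θ (lin v n) ⁻¹' B
  have hC : ∀ n, MeasurableSet (C n) := fun n =>
    ((hΘ _).measurable hA).inter ((hΘ _).measurable hB)
  have hCf : ∀ n, κ (C n) ≠ ∞ := fun n => by
    refine ne_top_of_le_ne_top ?_ (measure_mono inter_subset_left)
    rw [(hΘ _).measure_preimage hA.nullMeasurableSet]
    exact hAf
  have hD : ∃ l, ¬ D l := by
    obtain ⟨l, hl⟩ := Function.ne_iff.mp huv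
    exact ⟨l, fun h => hl h.1⟩
  have hcen : cen D v = cen D u := by
    funext l
    by_cases hl : D l
    · have e1 : cen D v l = v l := if_pos hl
      have e2 : cen D u l = u l := if_pos hl
      rw [e1, e2, hl.1]
    · have e1 : cen D v l = 1 := if_neg hl
      have e2 : cen D u l = 1 := if_neg hl
      rw [e1, e2]
  have hsplit : ∀ n, C n = Θ (lin (cen D u) n) ⁻¹' C (proj D n) := by
    intro n
    ext w
    show (Θ (lin u n) w ∈ A ∧ Θ (lin v n) w ∈ B) ↔
      (Θ (lin u (proj D n)) (Θ (lin (cen D u) n) w) ∈ A ∧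
        Θ (lin v (proj D n)) (Θ (lin (cen D u) n) w) ∈ B)
    rw [← Equiv.Perm.mul_apply, ← Equiv.Perm.mul_apply, ← map_mul, ← map_mul,
      ← lin_split (fun l hl => hl.2) n]
    rw [← hcen]
    rw [← lin_split (D := D) (u := v) (fun l hl => by
      rw [← hl.1]
      exact hl.2) n]
  have hpm : ∀ n, Measurable fun y => pv (y ∉ E (C n)) := by
    intro n
    have : (fun y => pv (y ∉ E (C n))) = fun y => pv (y ∈ (E (C n))ᶜ) := rfl
    rw [this]
    exact pv_mem_meas (hE.meas _ (hC n) (hCf n)).compl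
  refine negl (D := D) hD (b := fun n y => pv (y ∉ E (C n))) hpm (fun n y => pv_nonneg _)
    (fun n y => pv_le _) ?_ (τ := fun l => (Ψ (cen D u l) : Y → Y)) (fun l => hΨ _) ?_ ?_
  · refine Summable.of_nonneg_of_le (fun p => div_nonneg (integral_nonneg fun y => pv_nonneg _)
      (Finset.prod_nonneg fun l _ => by positivity)) (fun p => ?_) hs
    refine div_le_div_of_nonneg_right ?_ (Finset.prod_nonneg fun l _ => by positivity)
    have e1 : (fun y => pv (y ∉ E (C p.1))) = (E (C p.1))ᶜ.indicator 1 := by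
      funext y
      by_cases h : y ∈ E (C p.1)
      · rw [pv_false (not_not_intro h), indicator_of_notMem (not_not_intro h)]
      · rw [pv_true h, indicator_of_mem h]
        rfl
    rw [e1, integral_indicator_one (hE.meas _ (hC _) (hCf _)).compl,
      measureReal_compl (hE.meas _ (hC _) (hCf _)), probReal_univ, measureReal_def,
      hE.prob _ (hC _) (hCf _), ENNReal.toReal_ofReal (Real.exp_pos _).le]
    have := Real.add_one_le_exp (-(κ (C p.1)).toReal)
    show 1 - _ ≤ (κ (C p.1)).toReal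
    linarith
  · intro l hl
    have e2 : cen D u l = 1 := if_neg hl
    show (Ψ (cen D u l) : Y → Y) = id
    rw [e2, map_one]
    rfl
  · intro n
    have h1 := hEq (lin (cen D u) n) (C (proj D n)) (hC _) (hCf _)
    rw [← hsplit n] at h1
    filter_upwards [h1] with y hy
    have h2 : (Ψ (lin (cen D u) n) y ∈ E (C (proj D n))) = (y ∈ E (C n)) := hy
    show pv (y ∉ E (C n)) = pv (orb k (fun l => (Ψ (cen D u l) : Y → Y)) n y ∉ E (C (proj D n)))
    rw [orb_lin, h2]

end joint

end Pool.Agent.TH739.PB
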