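import Mathlib
import Pool.Agent.TH739.PB.Lin

/-!
# Convergence on products with Poisson suspensions
-/

set_option autoImplicit false

open Filter Topology MeasureTheory ProbabilityTheory Set
open scoped ENNReal NNReal symmDiff

noncomputable section

namespace Pool.Agent.TH739.PB

open Pool.Agent.TH739.PA (av avr avr_add avr_sub avr_mul avr_mono avr_nonneg avr_const_le avr_abs
  avr_bound av_ofReal av_add av_mul av_sub av_norm Good int_lim Cls_conv closed_slot ind_BM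
  BM_update BM_add BM_smul ext_one ext_all pr pr_update int_snd Qf IsPoissonAction
  exists_isPoissonAction)
open Pool.Agent.TH739.Poi (pv pv_nonneg pv_le pv_true pv_false measurable_pv pv_mem_meas
  Om PP Th TT W W_meas W_union prob_W pm pm_prob gU Hi V V_meas V_union prob_V Ov q_bd IsVoid
  fin_biUnion Rec Rec_pi Rec_univ Rec_gen)
open Pool.Agent.W761.Gauss (BM)
open Pool.Agent.W761.Box (bx orb orb_mp dz)

variable {X Y Wt G : Type} [Group G] [MeasurableSpace X] [MeasurableSpace Y] [MeasurableSpace Wt]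
  {μ : Measure X} {ν : Measure Y} {κ : Measure Wt} {k m : ℕ}

/-- The product of two actions. -/
def pact (Φ : G →* Equiv.Perm X) (Ψ : G →* Equiv.Perm Y) : G →* Equiv.Perm (X × Y) where
  toFun g := Equiv.prodCongr (Φ g) (Ψ g)
  map_one' := by
    rw [map_one, map_one]
    rfl
  map_mul' g h := by
    rw [map_mul, map_mul]
    rfl

omit [MeasurableSpace X] [MeasurableSpace Y] in
theorem pact_apply (Φ : G →* Equiv.Perm X) (Ψ : G →* Equiv.Perm Y) (g : G) (z : X × Y) :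
    pact Φ Ψ g z = (Φ g z.1, Ψ g z.2) := rfl

theorem pact_mp [SFinite μ] [SFinite ν] {Φ : G →* Equiv.Perm X} {Ψ : G →* Equiv.Perm Y}
    (hΦ : ∀ g, MeasurePreserving (Φ g) μ μ) (hΨ : ∀ g, MeasurePreserving (Ψ g) ν ν) (g : G) :
    MeasurePreserving (pact Φ Ψ g) (μ.prod ν) (μ.prod ν) := (hΦ g).prod (hΨ g)

/-- Summable overlaps of the sequences `lin u`, `lin v` in the variables on which the quotient
depends. -/
def OvS (κ : Measure Wt) (Θ : G →* Equiv.Perm Wt) (u v : Fin k → G) (A B : Set Wt) : Prop :=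
  Summable fun p : Sub (fun l => u l = v l ∧ u l ∈ Subgroup.center G) =>
    κ.real (Θ (lin u p.1) ⁻¹' A ∩ Θ (lin v p.1) ⁻¹' B) / ∏ l, (1 + (p.1 l : ℝ))

/-- Base case. -/
theorem lin_base [SFinite κ] [Nonempty Wt] [IsProbabilityMeasure μ] [IsProbabilityMeasure ν]
    {Φ : G →* Equiv.Perm X} (hΦ : ∀ g, MeasurePreserving (Φ g) μ μ) {Θ : G →* Equiv.Perm Wt}
    {Ψ : G →* Equiv.Perm Y} (hΘ : ∀ g, MeasurePreserving (Θ g) κ κ)
    (hΨ : ∀ g, MeasurePreserving (Ψ g) ν ν) {E : Set Wt → Set Y} (hE : IsVoid κ id ν id E)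
    (hEq : ∀ g A, MeasurableSet A → κ A ≠ ∞ → (Ψ g ⁻¹' E A : Set Y) =ᵐ[ν] E (Θ g ⁻¹' A))
    {u : Fin m → Fin k → G} (hu : Function.Injective u)
    (hJ : JC k m μ fun j n => (Φ (lin (u j) n) : X → X)) {A : Fin m → Set Wt}
    (hA : ∀ j, MeasurableSet (A j)) (hAf : ∀ j, κ (A j) ≠ ∞)
    (hs : ∀ i j, i ≠ j → OvS κ Θ (u i) (u j) (A i) (A j)) {D₁ : Fin m → Set X}
    (hD₁ : ∀ j, MeasurableSet (D₁ j)) :
    CZ atTop (box k) μ ν (fun j n z => (Φ (lin (u j) n) z.1, Ψ (lin (u j) n) z.2))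
      (fun j => (D₁ j ×ˢ E (A j)).indicator fun _ => (1 : ℂ)) := by
  obtain ⟨y₀⟩ := (inferInstance : Nonempty Wt)
  obtain ⟨ρ, hρf, hρ⟩ : ∃ ρ : ℕ → Measure Wt, (∀ k, IsFiniteMeasure (ρ k)) ∧
      Measure.sum ρ = κ := ⟨sfiniteSeq κ, fun k => inferInstance, sum_sfiniteSeq κ⟩
  subst hρ
  set κ := Measure.sum ρ with hκ
  have hC : ∀ n j, MeasurableSet (Θ (lin (u j) n) ⁻¹' A j) := fun n j =>
    (hΘ _).measurable (hA j)
  have hCf : ∀ n j, κ (Θ (lin (u j) n) ⁻¹' A j) ≠ ∞ := fun n j => by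
    rw [(hΘ _).measure_preimage (hA j).nullMeasurableSet]
    exact hAf j
  let w : (Fin k → ℕ) → X → ℝ := fun n x =>
    ∏ j, (D₁ j).indicator (fun _ => (1 : ℝ)) (Φ (lin (u j) n) x)
  have hw : ∀ n, Measurable (w n) := fun n => Finset.measurable_fun_prod _ fun j _ =>
    (measurable_const.indicator (hD₁ j)).comp (hΦ _).measurable
  have hind : ∀ (s : Set X) (x : X), 0 ≤ s.indicator (fun _ => (1 : ℝ)) x ∧
      s.indicator (fun _ => (1 : ℝ)) x ≤ 1 := fun s x =>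
    ⟨indicator_nonneg (fun _ _ => zero_le_one) _, indicator_le_self' (fun _ _ => zero_le_one) x⟩
  have hwa : ∀ n x, |w n x| ≤ 1 := fun n x => by
    rw [abs_of_nonneg (Finset.prod_nonneg fun j _ => (hind _ _).1)]
    exact Finset.prod_le_one (fun j _ => (hind _ _).1) fun j _ => (hind _ _).2
  have hov : ∀ᵐ ω ∂(PP ρ y₀), Tendsto (fun M => avr (box k M) fun n =>
      pv (ω ∉ V (Ov (fun j => Θ (lin (u j) n) ⁻¹' A j)))) atTop (𝓝 0) := by
    have h2 : ∀ᵐ ω ∂(PP ρ y₀), ∀ i j : Fin m, i < j → Tendsto (fun M => avr (box k M) fun n =>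
        pv (ω ∉ V (Θ (lin (u i) n) ⁻¹' A i ∩ Θ (lin (u j) n) ⁻¹' A j))) atTop (𝓝 0) := by
      rw [ae_all_iff]
      intro i
      rw [ae_all_iff]
      intro j
      by_cases hij : i < j
      · have hB : ∀ n, MeasurableSet (Θ (lin (u i) n) ⁻¹' A i ∩ Θ (lin (u j) n) ⁻¹' A j) :=
          fun n => (hC n i).inter (hC n j)
        have hBf : ∀ n, κ (Θ (lin (u i) n) ⁻¹' A i ∩ Θ (lin (u j) n) ⁻¹' A j) ≠ ∞ := fun n =>
          ne_top_of_le_ne_top (hCf n i) (measure_mono inter_subset_left)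
        have h3 := overlaps hΘ hΨ hE hEq (hu.ne hij.ne) (hA i) (hA j) (hAf i) (hs i j hij.ne)
        have h4 := transfer0 (P := ν) (P' := PP ρ y₀)
          (F := fun n => E (Θ (lin (u i) n) ⁻¹' A i ∩ Θ (lin (u j) n) ⁻¹' A j))
          (F' := fun n => V (Θ (lin (u i) n) ⁻¹' A i ∩ Θ (lin (u j) n) ⁻¹' A j))
          (fun n => hE.meas _ (hB n) (hBf n)) (fun n => V_meas (hB n))
          (fun J => (inter_prob hE hB hBf J).symm) h3
        filter_upwards [h4] with ω hω _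
        exact hω
      · exact Eventually.of_forall fun ω h => absurd h hij
    filter_upwards [h2] with ω hω
    exact ovl_sum (C := fun n j => Θ (lin (u j) n) ⁻¹' A j) hω
  have h1 := base_conv (𝔣 := atTop) (Bx := box k) (y₀ := y₀) hE hw hwa
    (C := fun n j => Θ (lin (u j) n) ⁻¹' A j) hC hCf
    (fun q _ h0 h1 => conv_marked hΘ u hJ hD₁ hA hAf q h0 h1) hov
  have h6 := mem_iff hE (b := fun j n => (Ψ (lin (u j) n) : Y → Y))
    (γ := fun j n => (Θ (lin (u j) n) : Wt → Wt)) (fun j n => hΘ _)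
    (fun j n A hA hAf => hEq _ A hA hAf) hA hAf
  have h6' : ∀ᵐ z ∂(μ.prod ν), ∀ n, (z.2 ∈ E (⋃ j, Θ (lin (u j) n) ⁻¹' A j)) ↔
      ∀ j, Ψ (lin (u j) n) z.2 ∈ E (A j) := Measure.quasiMeasurePreserving_snd.ae h6
  filter_upwards [h1, h6'] with z hz hz'
  obtain ⟨L, hL⟩ := hz
  refine ⟨(L : ℂ), ?_⟩
  have h12 := (Complex.continuous_ofReal.tendsto _).comp hL
  refine h12.congr fun N => ?_
  simp only [Function.comp_apply]
  rw [← av_ofReal]
  congr 1
  funext n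
  unfold pr
  have e6 : ∀ j, (D₁ j ×ˢ E (A j)).indicator (fun _ => (1 : ℂ))
      (Φ (lin (u j) n) z.1, Ψ (lin (u j) n) z.2) =
      (((D₁ j).indicator (fun _ => (1 : ℝ)) (Φ (lin (u j) n) z.1) *
        pv (Ψ (lin (u j) n) z.2 ∈ E (A j)) : ℝ) : ℂ) := by
    intro j
    by_cases c1 : Φ (lin (u j) n) z.1 ∈ D₁ j <;> by_cases c2 : Ψ (lin (u j) n) z.2 ∈ E (A j) <;>
      simp [c1, c2, Set.indicator, pv]
  simp only [e6]
  rw [← Complex.ofReal_prod, Finset.prod_mul_distrib]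
  congr 2
  rw [hz' n]
  by_cases c : ∀ j, Ψ (lin (u j) n) z.2 ∈ E (A j)
  · rw [pv_true c]
    exact (Finset.prod_eq_one fun j _ => pv_true (c j)).symm
  · rw [pv_false c]
    rw [not_forall] at c
    obtain ⟨j, hj⟩ := c
    exact (Finset.prod_eq_zero (Finset.mem_univ j) (pv_false hj)).symm

/-- **Convergence on the product with a Poisson suspension**, for bounded measurable functions and
distinct linear parts. -/
theorem lin_conv [SFinite κ] [Nonempty Wt] [IsProbabilityMeasure μ] [IsProbabilityMeasure ν]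
    {Φ : G →* Equiv.Perm X} (hΦ : ∀ g, MeasurePreserving (Φ g) μ μ) {Θ : G →* Equiv.Perm Wt}
    {Ψ : G →* Equiv.Perm Y} (hΨ : IsPoissonAction κ Θ ν Ψ)
    {u : Fin m → Fin k → G} (hu : Function.Injective u)
    (hJ : JC k m μ fun j n => (Φ (lin (u j) n) : X → X))
    {ℛ : Set (Set Wt)} (hℛ : ∀ A ∈ ℛ, MeasurableSet A ∧ κ A ≠ ∞)
    (hd : ∀ A, MeasurableSet A → κ A ≠ ∞ → ∀ ε : ℝ, 0 < ε → ∃ B ∈ ℛ, (κ (A ∆ B)).toReal ≤ ε)
    (hs : ∀ i j, i ≠ j → ∀ A ∈ ℛ, ∀ B ∈ ℛ, OvS κ Θ (u i) (u j) A B)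
    {F : Fin m → X × Y → ℂ} (hF : ∀ j, BM (F j)) :
    CZ atTop (box k) μ ν (fun j n z => (Φ (lin (u j) n) z.1, Ψ (lin (u j) n) z.2)) F := by
  obtain ⟨E, hE, hEq⟩ := hΨ.void
  have hg : ∀ j n, MeasurePreserving (fun z : X × Y => (Φ (lin (u j) n) z.1, Ψ (lin (u j) n) z.2))
      (μ.prod ν) (μ.prod ν) := fun j n => (hΦ _).prod (hΨ.mp _)
  have hgood : ∀ j, Good atTop (box k) (μ.prod ν)
      (fun n (z : X × Y) => (Φ (lin (u j) n) z.1, Ψ (lin (u j) n) z.2)) := fun j =>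
    good_lin (Φ := pact Φ Ψ) (pact_mp hΦ hΨ.mp) (u j)
  refine ext_all (P := CZ atTop (box k) μ ν
    (fun j n z => (Φ (lin (u j) n) z.1, Ψ (lin (u j) n) z.2))) (𝒬 := Qf (X := X) E ℛ)
    ?_ ?_ ?_ hF
  · rintro e ⟨D, A, hD, hA, rfl⟩
    exact ind_BM (hD.prod (hE.meas A (hℛ A hA).1 (hℛ A hA).2)) 1
  · intro f k hf hQ h hh
    exact CZ_step hE hg hgood hℛ hd f k hf hQ h hh
  · intro f hf
    choose D A hD hA e using hf
    have : f = fun j => (D j ×ˢ E (A j)).indicator fun _ => (1 : ℂ) := funext e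
    rw [this]
    exact lin_base hΦ hΨ.base hΨ.mp hE hEq hu hJ (fun j => (hℛ _ (hA j)).1)
      (fun j => (hℛ _ (hA j)).2) (fun i j hij => hs i j hij _ (hA i) _ (hA j)) hD

end Pool.Agent.TH739.PB
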