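import Mathlib
import Pool.Agent.TH739.PB.Main
import Pool.Agent.W761.Box.Core

/-!
# Gaussian actions jointly with an arbitrary system
-/

set_option autoImplicit false
set_option linter.unusedSectionVars false

open Filter Topology MeasureTheory ProbabilityTheory Set
open scoped ENNReal NNReal symmDiff

noncomputable section

namespace Pool.Agent.TH739.PB

open Pool.Agent.TH739.PA (av avr avr_add avr_sub avr_mul avr_mono avr_nonneg avr_const_le avr_abs
  avr_bound av_ofReal av_add av_mul av_sub av_norm Good int_lim Cls_conv closed_slot ind_BM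
  BM_update BM_add BM_smul ext_one ext_all pr pr_update int_fst int_snd Qf)
open Pool.Agent.W761.Gauss (BM GaussSpace ex ex_add ex_sum norm_ex meas_ex q q_comp q_smul Adm
  ext_of_finite_char sig meas_exh dense_EP EP)
open Pool.Agent.W761.Box (bx bxc bxc_of_bx orb orb_mp dz sh orb_sh proc meas_proc stationary)

theorem av_box (k : ℕ) (M : Fin k → ℕ) (a : (Fin k → ℕ) → ℂ) : av (box k M) a = bxc k M a := by
  rw [av, bxc, box_card]
  push_cast
  rfl

theorem av_box_bound {k : ℕ} {M : Fin k → ℕ} {a : (Fin k → ℕ) → ℂ} {C : ℝ} (hC : 0 ≤ C)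
    (h : ∀ n, ‖a n‖ ≤ C) : ‖av (box k M) a‖ ≤ C :=
  ((av_norm _ _).trans (avr_mono fun n _ => h n)).trans (avr_const_le hC)

/-- A rearrangement of a product of three probability spaces. -/
theorem mp3 {X₁ X₂ X₃ : Type*} [MeasurableSpace X₁] [MeasurableSpace X₂] [MeasurableSpace X₃]
    (P₁ : Measure X₁) (P₂ : Measure X₂) (P₃ : Measure X₃) [SFinite P₁] [SFinite P₂] [SFinite P₃] :
    MeasurePreserving (fun p : (X₁ × X₂) × X₃ => ((p.1.1, p.2), p.1.2))
      ((P₁.prod P₂).prod P₃) ((P₁.prod P₃).prod P₂) := by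
  have f1 := measurePreserving_prodAssoc P₁ P₂ P₃
  have f2 := (MeasurePreserving.id P₁).prod (Measure.measurePreserving_swap (μ := P₂) (ν := P₃))
  have f3 := (measurePreserving_prodAssoc P₁ P₃ P₂).symm
  exact f3.comp (f2.comp f1)

variable {Z : Type} [MeasurableSpace Z] {P : Measure Z} {k : ℕ} {σ : Fin k → Z → Z} {f : Z → ℝ}
  {Cf : ℝ}

/-- Convergence for the exponential of a stationary field, jointly with a system. -/
theorem pg_fieldZ [IsProbabilityMeasure P] (hσ : ∀ l, MeasurePreserving (σ l) P P)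
    (hf : Measurable f) (hfb : ∀ z, |f z| ≤ Cf)
    {Q : Measure ((Fin k → ℕ) → ℝ)} [IsProbabilityMeasure Q]
    (hQ : ∀ l, Q.map (sh (Pi.single l 1)) = Q) :
    ∀ᵐ p ∂(Q.prod P), ∃ L : ℂ, Tendsto (fun M => av (box k M) fun n =>
      ex (p.1 n) * (f (orb k σ n p.2) : ℂ)) atTop (𝓝 L) := by
  have hm : ∀ v : Fin k → ℕ, Measurable (sh v) := fun v =>
    measurable_pi_lambda _ fun n => measurable_pi_apply _
  have hS : ∀ l : Fin k, MeasurePreserving (sh (Pi.single l 1)) Q Q := fun l => ⟨hm _, hQ l⟩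
  have hit : ∀ (n : Fin k → ℕ) (ω : (Fin k → ℕ) → ℝ),
      orb k (fun l => sh (Pi.single l 1)) n ω 0 = ω n := by
    intro n ω
    rw [orb_sh]
    show ω (0 + ∑ l, n l • Pi.single l 1) = ω n
    rw [zero_add]
    congr 1
    funext i
    rw [Finset.sum_apply]
    simp [Pi.single_apply]
  have hτ : ∀ l : Fin k, MeasurePreserving
      (fun p : ((Fin k → ℕ) → ℝ) × Z => (sh (Pi.single l 1) p.1, σ l p.2)) (Q.prod P) (Q.prod P) :=
    fun l => (hS l).prod (hσ l)
  have hb : ∀ (c : ℝ) (z : Z), |c| ≤ 1 → |c * f z| ≤ Cf := by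
    intro c z hc
    rw [abs_mul]
    exact (mul_le_of_le_one_left (abs_nonneg _) hc).trans (hfb z)
  have h1 := good_orb k hτ (fun p => Real.cos (p.1 0) * f p.2)
    ((Real.measurable_cos.comp ((measurable_pi_apply 0).comp measurable_fst)).mul
      (hf.comp measurable_snd)) ⟨Cf, fun p => hb _ _ (Real.abs_cos_le_one _)⟩
  have h2 := good_orb k hτ (fun p => Real.sin (p.1 0) * f p.2)
    ((Real.measurable_sin.comp ((measurable_pi_apply 0).comp measurable_fst)).mul
      (hf.comp measurable_snd)) ⟨Cf, fun p => hb _ _ (Real.abs_sin_le_one _)⟩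
  filter_upwards [h1, h2] with p hp1 hp2
  simp only [orb_prod k (fun l => sh (Pi.single l 1)) σ, hit, avr_box] at hp1 hp2
  simp only [av_box]
  apply bxc_of_bx
  · simpa only [ex, Complex.re_mul_ofReal, Complex.exp_ofReal_mul_I_re] using hp1
  · simpa only [ex, Complex.im_mul_ofReal, Complex.exp_ofReal_mul_I_im] using hp2

variable {X : Type} [MeasurableSpace X] {μ : Measure X} {H : Submodule ℝ (X → ℝ)}
variable {I : Type} [Fintype I]

/-- **Core statement.** -/
theorem coreZ [IsProbabilityMeasure μ] [IsProbabilityMeasure P]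
    (hσ : ∀ l, MeasurePreserving (σ l) P P) (hf : Measurable f) (hfb : ∀ z, |f z| ≤ Cf)
    (hH : GaussSpace μ H)
    {ξ : (Fin k → ℕ) → X → ℝ} {u : I → (Fin k → ℕ) → X → ℝ} {v : I → X → ℝ}
    (hξ : ∀ n, ξ n ∈ H) (hu : ∀ i n, u i n ∈ H) (hv : ∀ i, v i ∈ H)
    (hst : ∀ (l : Fin k) (s : Finset (Fin k → ℕ)) (t : (Fin k → ℕ) → ℝ),
      q μ (∑ n ∈ s, t n • ξ (n + Pi.single l 1)) +
        ∑ i, q μ (∑ n ∈ s, t n • u i (n + Pi.single l 1)) =
      q μ (∑ n ∈ s, t n • ξ n) + ∑ i, q μ (∑ n ∈ s, t n • u i n))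
    {Q₀ : ℝ} (hQ : ∀ n, ∑ i, q μ (u i n + v i) = Q₀) :
    ∀ᵐ p ∂(μ.prod P), ∃ L : ℂ, Tendsto (fun N => av (box k N) fun n =>
      ex (ξ n p.1) * (f (orb k σ n p.2) : ℂ)) atTop (𝓝 L) := by
  have hξm : ∀ n, Measurable (ξ n) := fun n => hH.meas _ (hξ n)
  have hum : ∀ i n, Measurable (u i n) := fun i n => hH.meas _ (hu i n)
  have hvm : ∀ i, Measurable (v i) := fun i => hH.meas _ (hv i)
  have hpm : Measurable fun (p : X × (I → X)) (n : Fin k → ℕ) => proc ξ u n p :=
    measurable_pi_lambda _ fun n => meas_proc hξm hum n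
  have hP1 : IsProbabilityMeasure ((μ.prod (Measure.pi fun _ : I => μ)).map
      (fun p n => proc ξ u n p)) := Measure.isProbabilityMeasure_map hpm.aemeasurable
  have hB := pg_fieldZ (P := P) hσ hf hfb
    fun l => stationary hH hξ hu (Pi.single l 1) (hst l)
  have g1 : MeasurePreserving (Prod.map (fun (p : X × (I → X)) (n : Fin k → ℕ) => proc ξ u n p) id)
      ((μ.prod (Measure.pi fun _ : I => μ)).prod P)
      (((μ.prod (Measure.pi fun _ : I => μ)).map (fun p n => proc ξ u n p)).prod P) :=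
    MeasurePreserving.prod ⟨hpm, rfl⟩ (MeasurePreserving.id P)
  have g2 := g1.comp (mp3 μ P (Measure.pi fun _ : I => μ))
  have hB' := g2.quasiMeasurePreserving.ae hB
  have hB'' := Measure.ae_ae_of_ae_prod hB'
  filter_upwards [hB''] with x hx
  set ν : Measure (I → X) := Measure.pi fun _ => μ with hν
  let F : (Fin k → ℕ) → (I → X) → ℂ := fun N ω => av (box k N) (fun n =>
    ex (proc ξ u n (x.1, ω)) * (f (orb k σ n x.2) : ℂ)) * ex (∑ i, v i (ω i))
  have hterm : ∀ n, Measurable fun ω : I → X => ex (proc ξ u n (x.1, ω)) *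
      (f (orb k σ n x.2) : ℂ) := fun n =>
    (meas_ex.comp ((meas_proc hξm hum n).comp measurable_prodMk_left)).mul_const _
  have hvs : Measurable fun ω : I → X => ex (∑ i, v i (ω i)) := by
    apply meas_ex.comp
    exact Finset.measurable_fun_sum _ fun i _ => (hvm i).comp (measurable_pi_apply i)
  have hFm : ∀ N, AEStronglyMeasurable (F N) ν := by
    intro N
    apply Measurable.aestronglyMeasurable
    refine Measurable.mul ?_ hvs
    unfold av
    exact ((Finset.measurable_fun_sum _ fun n _ => hterm _).const_mul _)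
  have hFb : ∀ N, ∀ᵐ ω ∂ν, ‖F N ω‖ ≤ (fun _ => |Cf|) ω := by
    intro N
    refine Eventually.of_forall fun ω => ?_
    show ‖av (box k N) (fun n => ex (proc ξ u n (x.1, ω)) * (f (orb k σ n x.2) : ℂ)) *
      ex (∑ i, v i (ω i))‖ ≤ |Cf|
    rw [norm_mul, norm_ex, mul_one]
    refine av_box_bound (abs_nonneg _) fun n => ?_
    rw [norm_mul, norm_ex, one_mul, Complex.norm_real, Real.norm_eq_abs]
    exact (hfb _).trans (le_abs_self _)
  have hlim : ∀ᵐ ω ∂ν, Tendsto (fun N => F N ω) atTop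
      (𝓝 (limUnder atTop (fun N => F N ω))) := by
    filter_upwards [hx] with ω hω
    apply tendsto_nhds_limUnder
    obtain ⟨L, hL⟩ := hω
    exact ⟨L * ex (∑ i, v i (ω i)), hL.mul_const _⟩
  have hD := tendsto_integral_filter_of_dominated_convergence (l := atTop) (fun _ => |Cf|)
    (Eventually.of_forall hFm) (Eventually.of_forall hFb) (integrable_const _) hlim
  have hint : ∀ N, ∫ ω, F N ω ∂ν = Complex.exp ((-Q₀ / 2 : ℝ) : ℂ) *
      av (box k N) (fun n => ex (ξ n x.1) * (f (orb k σ n x.2) : ℂ)) := by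
    intro N
    have hsplit : ∀ n ω, ex (proc ξ u n (x.1, ω)) * (f (orb k σ n x.2) : ℂ) *
        ex (∑ i, v i (ω i)) =
        (ex (ξ n x.1) * (f (orb k σ n x.2) : ℂ)) * ex (∑ i, (u i n + v i) (ω i)) := by
      intro n ω
      have e1 : ex (proc ξ u n (x.1, ω)) * ex (∑ i, v i (ω i)) =
          ex (ξ n x.1) * ex (∑ i, (u i n + v i) (ω i)) := by
        rw [proc, ex_add, mul_assoc, ← ex_add, ← Finset.sum_add_distrib]
        rfl
      rw [mul_right_comm, e1]
      ring
    have h1 : ∀ ω, F N ω = ((box k N).card : ℂ)⁻¹ * ∑ n ∈ box k N,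
        (ex (ξ n x.1) * (f (orb k σ n x.2) : ℂ)) * ex (∑ i, (u i n + v i) (ω i)) := by
      intro ω
      show av (box k N) (fun n => ex (proc ξ u n (x.1, ω)) * (f (orb k σ n x.2) : ℂ)) *
        ex (∑ i, v i (ω i)) = _
      rw [av, mul_assoc, Finset.sum_mul]
      congr 1
      exact Finset.sum_congr rfl fun n _ => hsplit _ ω
    simp only [h1]
    rw [integral_const_mul, integral_finsetSum]
    · have h2 : ∀ n, ∫ ω, (ex (ξ n x.1) * (f (orb k σ n x.2) : ℂ)) *
          ex (∑ i, (u i n + v i) (ω i)) ∂ν =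
          (ex (ξ n x.1) * (f (orb k σ n x.2) : ℂ)) * Complex.exp ((-Q₀ / 2 : ℝ) : ℂ) := by
        intro n
        rw [integral_const_mul, hH.int_ex_pi fun i => H.add_mem (hu i n) (hv i), hQ n]
      rw [Finset.sum_congr rfl fun n _ => h2 n, ← Finset.sum_mul, av]
      ring
    · intro n _
      apply Integrable.const_mul
      refine Integrable.mono' (integrable_const (1 : ℝ)) ?_ (Eventually.of_forall fun ω => ?_)
      · apply Measurable.aestronglyMeasurable
        apply meas_ex.comp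
        exact Finset.measurable_fun_sum _ fun i _ =>
          ((hum i n).add (hvm i)).comp (measurable_pi_apply i)
      · rw [norm_ex]
  simp only [hint] at hD
  have hne : Complex.exp ((-Q₀ / 2 : ℝ) : ℂ) ≠ 0 := Complex.exp_ne_zero _
  refine ⟨(Complex.exp ((-Q₀ / 2 : ℝ) : ℂ))⁻¹ * _, (hD.const_mul
    (Complex.exp ((-Q₀ / 2 : ℝ) : ℂ))⁻¹).congr fun N => ?_⟩
  rw [← mul_assoc, inv_mul_cancel₀ hne, one_mul]

variable {J : Type} [Fintype J] {A : Type} [AddCommGroup A]

/-- **Convergence for exponentials.** -/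
theorem conv_expZ [IsProbabilityMeasure μ] [IsProbabilityMeasure P]
    (hσ : ∀ l, MeasurePreserving (σ l) P P) (hf : Measurable f) (hfb : ∀ z, |f z| ≤ Cf)
    (hH : GaussSpace μ H) {Φ : A → Equiv.Perm X}
    (hΦ : ∀ a b, Φ (a + b) = Φ a * Φ b) (hadm : ∀ a, Adm μ H (Φ a))
    {E : J → (Fin k → ℕ) → A}
    (hE : ∀ l : Fin k, ∃ a : J → A, ∀ j m, E j (m + Pi.single l 1) = E j m + a j)
    {h : J → X → ℝ} (hh : ∀ j, h j ∈ H) :
    ∀ᵐ p ∂(μ.prod P), ∃ L : ℂ, Tendsto (fun N => av (box k N) fun m =>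
      ex (∑ j, h j (Φ (E j m) p.1)) * (f (orb k σ m p.2) : ℂ)) atTop (𝓝 L) := by
  set c : ℝ := Real.sqrt 2⁻¹ with hcdef
  have hc2 : c ^ 2 = 2⁻¹ := Real.sq_sqrt (by norm_num)
  let ξ : (Fin k → ℕ) → X → ℝ := fun n => ∑ j, h j ∘ Φ (E j n)
  let u : (J × J) ⊕ (J × J) → (Fin k → ℕ) → X → ℝ := fun i n =>
    Sum.elim (fun p : J × J => c • (h p.1 ∘ Φ (E p.1 n) - h p.2 ∘ Φ (E p.2 n)))
      (fun p : J × J => c • (h p.1 ∘ Φ (E p.1 n - E p.2 n))) i
  let v : (J × J) ⊕ (J × J) → X → ℝ := Sum.elim (fun _ => 0) (fun p : J × J => c • h p.2)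
  have hξ : ∀ n, ξ n ∈ H := fun n => H.sum_mem fun j _ => (hadm _).st _ (hh j)
  have hu : ∀ i n, u i n ∈ H := by
    intro i n
    rcases i with p | p
    · exact H.smul_mem _ (H.sub_mem ((hadm _).st _ (hh _)) ((hadm _).st _ (hh _)))
    · exact H.smul_mem _ ((hadm _).st _ (hh _))
  have hv : ∀ i, v i ∈ H := by
    intro i
    rcases i with p | p
    · exact H.zero_mem
    · exact H.smul_mem _ (hh _)
  have hcore := coreZ (I := (J × J) ⊕ (J × J)) hσ hf hfb hH hξ hu hv
    (Q₀ := ∑ j, ∑ k, (q μ (h j) + q μ (h k))) ?_ ?_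
  · filter_upwards [hcore] with x hx
    obtain ⟨L, hL⟩ := hx
    refine ⟨L, hL.congr fun N => ?_⟩
    congr 1
    funext n
    show ex ((∑ j, h j ∘ Φ (E j n)) x.1) * _ = _
    rw [Finset.sum_apply]
    rfl
  · intro l s t
    obtain ⟨a, ha⟩ := hE l
    set e : Fin k → ℕ := Pi.single l 1 with he
    let B : J → X → ℝ := fun j => ∑ n ∈ s, t n • (h j ∘ Φ (E j n))
    let B' : J → X → ℝ := fun j => ∑ n ∈ s, t n • (h j ∘ Φ (E j (n + e)))
    let C : J → J → X → ℝ := fun j k => ∑ n ∈ s, t n • (h j ∘ Φ (E j n - E k n))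
    let C' : J → J → X → ℝ := fun j k => ∑ n ∈ s, t n • (h j ∘ Φ (E j (n + e) - E k (n + e)))
    have hB : ∀ j, B j ∈ H := fun j => H.sum_mem fun n _ =>
      H.smul_mem _ ((hadm _).st _ (hh j))
    have hB' : ∀ j, B' j ∈ H := fun j => H.sum_mem fun n _ =>
      H.smul_mem _ ((hadm _).st _ (hh j))
    have hC : ∀ j k, C j k ∈ H := fun j k => H.sum_mem fun n _ =>
      H.smul_mem _ ((hadm _).st _ (hh j))
    have hBB : ∀ j, q μ (B' j) = q μ (B j) := by
      intro j
      have : B' j = B j ∘ Φ (a j) := by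
        ext x
        show (∑ n ∈ s, t n • (h j ∘ Φ (E j (n + e)))) x =
          (∑ n ∈ s, t n • (h j ∘ Φ (E j n))) (Φ (a j) x)
        simp only [Finset.sum_apply, Pi.smul_apply, Function.comp_apply]
        apply Finset.sum_congr rfl
        intro n _
        rw [ha, hΦ, Equiv.Perm.mul_apply]
      rw [this, q_comp (hadm _).mp (hH.meas _ (hB j))]
    have hCC : ∀ j k, q μ (C' j k) = q μ (C j k) := by
      intro j k
      have : C' j k = C j k ∘ Φ (a j - a k) := by
        ext x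
        show (∑ n ∈ s, t n • (h j ∘ Φ (E j (n + e) - E k (n + e)))) x =
          (∑ n ∈ s, t n • (h j ∘ Φ (E j n - E k n))) (Φ (a j - a k) x)
        simp only [Finset.sum_apply, Pi.smul_apply, Function.comp_apply]
        apply Finset.sum_congr rfl
        intro n _
        rw [ha, ha, add_sub_add_comm, hΦ, Equiv.Perm.mul_apply]
      rw [this, q_comp (hadm _).mp (hH.meas _ (hC j k))]
    have e1 : ∑ n ∈ s, t n • ξ n = ∑ j, B j := by
      show ∑ n ∈ s, t n • (∑ j, h j ∘ Φ (E j n)) = _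
      simp only [Finset.smul_sum]
      rw [Finset.sum_comm]
    have e1' : ∑ n ∈ s, t n • ξ (n + e) = ∑ j, B' j := by
      show ∑ n ∈ s, t n • (∑ j, h j ∘ Φ (E j (n + e))) = _
      simp only [Finset.smul_sum]
      rw [Finset.sum_comm]
    have e2 : ∀ p : J × J, ∑ n ∈ s, t n • u (Sum.inl p) n = c • (B p.1 - B p.2) := by
      intro p
      show ∑ n ∈ s, t n • (c • (h p.1 ∘ Φ (E p.1 n) - h p.2 ∘ Φ (E p.2 n))) = _
      rw [← Finset.sum_sub_distrib, Finset.smul_sum]
      apply Finset.sum_congr rfl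
      intro n _
      rw [smul_comm, smul_sub]
    have e2' : ∀ p : J × J, ∑ n ∈ s, t n • u (Sum.inl p) (n + e) = c • (B' p.1 - B' p.2) := by
      intro p
      show ∑ n ∈ s, t n • (c • (h p.1 ∘ Φ (E p.1 (n + e)) - h p.2 ∘ Φ (E p.2 (n + e)))) = _
      rw [← Finset.sum_sub_distrib, Finset.smul_sum]
      apply Finset.sum_congr rfl
      intro n _
      rw [smul_comm, smul_sub]
    have e3 : ∀ p : J × J, ∑ n ∈ s, t n • u (Sum.inr p) n = c • C p.1 p.2 := by
      intro p
      show ∑ n ∈ s, t n • (c • (h p.1 ∘ Φ (E p.1 n - E p.2 n))) = _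
      rw [Finset.smul_sum]
      apply Finset.sum_congr rfl
      intro n _
      rw [smul_comm]
    have e3' : ∀ p : J × J, ∑ n ∈ s, t n • u (Sum.inr p) (n + e) = c • C' p.1 p.2 := by
      intro p
      show ∑ n ∈ s, t n • (c • (h p.1 ∘ Φ (E p.1 (n + e) - E p.2 (n + e)))) = _
      rw [Finset.smul_sum]
      apply Finset.sum_congr rfl
      intro n _
      rw [smul_comm]
    rw [Fintype.sum_sum_type, Fintype.sum_sum_type]
    simp only [e1, e1', e2, e2', e3, e3', q_smul, hc2]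
    rw [Fintype.sum_prod_type, Fintype.sum_prod_type, Fintype.sum_prod_type,
      Fintype.sum_prod_type]
    simp only [hCC]
    have i1 := hH.q_identity hB
    have i2 := hH.q_identity hB'
    simp only [hBB] at i2
    linarith
  · intro n
    rw [Fintype.sum_sum_type]
    have f1 : ∀ p : J × J, q μ (u (Sum.inl p) n + v (Sum.inl p)) =
        2⁻¹ * q μ (h p.1 ∘ Φ (E p.1 n) - h p.2 ∘ Φ (E p.2 n)) := by
      intro p
      show q μ (c • (h p.1 ∘ Φ (E p.1 n) - h p.2 ∘ Φ (E p.2 n)) + 0) = _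
      rw [add_zero, q_smul, hc2]
    have f2 : ∀ p : J × J, q μ (u (Sum.inr p) n + v (Sum.inr p)) =
        2⁻¹ * q μ (h p.1 ∘ Φ (E p.1 n) + h p.2 ∘ Φ (E p.2 n)) := by
      intro p
      show q μ (c • (h p.1 ∘ Φ (E p.1 n - E p.2 n)) + c • h p.2) = _
      rw [← smul_add, q_smul, hc2]
      congr 1
      have g1 : h p.1 ∘ Φ (E p.1 n - E p.2 n) + h p.2 ∈ H :=
        H.add_mem ((hadm _).st _ (hh _)) (hh _)
      rw [← q_comp (hadm (E p.2 n)).mp (hH.meas _ g1)]
      congr 1
      ext x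
      simp only [Function.comp_apply, Pi.add_apply]
      rw [← Equiv.Perm.mul_apply, ← hΦ, sub_add_cancel]
    simp only [f1, f2]
    rw [← Finset.sum_add_distrib, Fintype.sum_prod_type]
    apply Finset.sum_congr rfl
    intro j _
    apply Finset.sum_congr rfl
    intro k' _
    have g4 := hH.q_par ((hadm (E j n)).st _ (hh j)) ((hadm (E k' n)).st _ (hh k'))
    rw [q_comp (hadm (E j n)).mp (hH.meas _ (hh j)),
      q_comp (hadm (E k' n)).mp (hH.meas _ (hh k'))] at g4
    rw [← mul_add]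
    linarith


end Pool.Agent.TH739.PB
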