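import Mathlib
import Pool.Agent.TH739.PB.Gau
import Pool.Agent.W761.Gauss.Main

/-!
# Gaussian actions converge jointly with every system
-/

set_option autoImplicit false

open Filter Topology MeasureTheory ProbabilityTheory Set
open scoped ENNReal NNReal symmDiff

noncomputable section

namespace Pool.Agent.TH739.PB

open Pool.Agent.TH739.PA (av avr avr_add avr_sub avr_mul avr_mono avr_nonneg avr_const_le avr_abs
  avr_bound av_ofReal av_add av_mul av_sub av_norm Good int_lim Cls_conv closed_slot ind_BM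
  BM_update BM_add BM_smul ext_one ext_all pr pr_update int_fst int_snd Qf)
open Pool.Agent.W761.Gauss (BM GaussSpace ex ex_add ex_sum norm_ex meas_ex q q_comp q_smul Adm
  ext_of_finite_char sig meas_exh dense_EP EP sat le_sat sig_mono)
open Pool.Agent.W761.Box (bx bxc bxc_of_bx orb orb_mp dz sh orb_sh)

section closure

variable {X Z : Type} [MeasurableSpace X] [MeasurableSpace Z] {μ : Measure X} {P : Measure Z}
  {k : ℕ} {σ : Fin k → Z → Z} {f : Z → ℝ} {Cf : ℝ} {J : Type} [Fintype J] [DecidableEq J]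

/-- Convergence of the averages of the products, jointly with `f` along the orbit of `σ`. -/
def CJ (μ : Measure X) (P : Measure Z) (σ : Fin k → Z → Z) (f : Z → ℝ)
    (g : J → (Fin k → ℕ) → X → X) (F : J → X → ℂ) : Prop :=
  ∀ᵐ p ∂(μ.prod P), ∃ L : ℂ, Tendsto (fun M => av (box k M) fun n =>
    (∏ j, F j (g j n p.1)) * (f (orb k σ n p.2) : ℂ)) atTop (𝓝 L)

omit [MeasurableSpace X] in
theorem prod_upd (g : J → (Fin k → ℕ) → X → X) (F : J → X → ℂ) (j : J) (h : X → ℂ)
    (n : Fin k → ℕ) (x : X) :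
    ∏ l, (Function.update F j h) l (g l n x) =
      h (g j n x) * ∏ l ∈ Finset.univ.erase j, F l (g l n x) := by
  rw [← Finset.mul_prod_erase _ _ (Finset.mem_univ j), Function.update_self]
  congr 1
  refine Finset.prod_congr rfl fun l hl => ?_
  rw [Function.update_of_ne (Finset.ne_of_mem_erase hl)]

theorem CJ_closed [IsProbabilityMeasure μ] [IsProbabilityMeasure P]
    (hfb : ∀ z, |f z| ≤ Cf) {g : J → (Fin k → ℕ) → X → X}
    (hg : ∀ j n, MeasurePreserving (g j n) μ μ)
    (hgood : ∀ j, Good atTop (box k) (μ.prod P) (fun n p => (g j n p.1, p.2)))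
    {F : J → X → ℂ} (hF : ∀ l, BM (F l)) {j : J} {h : X → ℂ} (hh : BM h)
    (H : ∀ ε : ℝ, 0 < ε → ∃ h' : X → ℂ, BM h' ∧ ∫ x, ‖h x - h' x‖ ∂μ ≤ ε ∧
      CJ μ P σ f g (Function.update F j h')) : CJ μ P σ f g (Function.update F j h) := by
  choose hFm CF hCF using hF
  set D : ℝ := (∏ l ∈ Finset.univ.erase j, (|CF l| + 1)) * |Cf| with hD
  have hD0 : 0 ≤ D := mul_nonneg (Finset.prod_nonneg fun l _ => by positivity) (abs_nonneg _)
  have hR : ∀ (n : Fin k → ℕ) (p : X × Z),
      ‖(∏ l ∈ Finset.univ.erase j, F l (g l n p.1)) * (f (orb k σ n p.2) : ℂ)‖ ≤ D := by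
    intro n p
    rw [norm_mul, Complex.norm_real, Real.norm_eq_abs, norm_prod]
    refine mul_le_mul (Finset.prod_le_prod (fun l _ => norm_nonneg _) fun l _ => ?_)
      ((hfb _).trans (le_abs_self _)) (abs_nonneg _) (Finset.prod_nonneg fun l _ => by positivity)
    exact ((hCF l _).trans (le_abs_self _)).trans (by linarith)
  let Λ : (X × Z → ℂ) → (Fin k → ℕ) → X × Z → ℂ := fun h N p => av (box k N) fun n =>
    h (g j n p.1, p.2) * ((∏ l ∈ Finset.univ.erase j, F l (g l n p.1)) *
      (f (orb k σ n p.2) : ℂ))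
  have hΛ : ∀ (h : X → ℂ) (p : X × Z), (fun M : Fin k → ℕ => av (box k M) fun n =>
      (∏ l, Function.update F j h l (g l n p.1)) * (f (orb k σ n p.2) : ℂ)) =
      fun M => Λ (fun p => h p.1) M p := by
    intro h p
    funext M
    show _ = av _ _
    congr 1
    funext n
    rw [prod_upd, mul_assoc]
  obtain ⟨hhm, Ch, hCh⟩ := id hh
  have hmain := closed_slot (μ := μ.prod P) (Cls_conv atTop) (B := box k)
    (g := fun n p => (g j n p.1, p.2)) (fun n => (hg j n).prod (MeasurePreserving.id P)) (hgood j)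
    (Λ := Λ) hD0 (h := fun p => h p.1)
    (fun ε hε => by
      obtain ⟨h', hB, hi, hP⟩ := H ε hε
      refine ⟨fun p => h' p.1, ⟨hB.1.comp measurable_fst, hB.2.choose, fun p =>
        hB.2.choose_spec _⟩, ?_, ?_⟩
      · rw [int_fst (μ := μ) (ν := P) fun x => ‖h x - h' x‖]
        exact hi
      · filter_upwards [hP] with z hz
        rw [hΛ] at hz
        exact hz) ?_
  · filter_upwards [hmain] with z hz
    rw [hΛ]
    exact hz
  intro h' hh'
  obtain ⟨hhm', Ch', hCh'⟩ := id hh'
  refine ⟨fun p => ‖h p.1 - h' p‖, ((hhm.comp measurable_fst).sub hhm').norm,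
    ⟨Ch + Ch', fun z => ?_⟩, fun z => norm_nonneg _, ?_, ?_⟩
  · rw [abs_of_nonneg (norm_nonneg _)]
    exact (norm_sub_le _ _).trans (add_le_add (hCh _) (hCh' z))
  · have : 0 ≤ ∫ z, ‖h z.1 - h' z‖ ∂(μ.prod P) := integral_nonneg fun z => norm_nonneg _
    linarith
  · intro N z
    show ‖av _ _ - av _ _‖ ≤ _
    rw [← av_sub, ← avr_mul]
    refine (av_norm _ _).trans (avr_mono fun n _ => ?_)
    rw [← sub_mul, norm_mul, mul_comm]
    exact mul_le_mul_of_nonneg_right (hR n z) (norm_nonneg _)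

theorem CJ_add {g : J → (Fin k → ℕ) → X → X} {F : J → X → ℂ} {j : J} {h h' : X → ℂ}
    (h1 : CJ μ P σ f g (Function.update F j h)) (h2 : CJ μ P σ f g (Function.update F j h')) :
    CJ μ P σ f g (Function.update F j (h + h')) := by
  filter_upwards [h1, h2] with x hx hx'
  obtain ⟨L, hL⟩ := hx
  obtain ⟨L', hL'⟩ := hx'
  refine ⟨L + L', (hL.add hL').congr fun N => ?_⟩
  rw [← av_add]
  congr 1
  funext n
  rw [prod_upd, prod_upd, prod_upd, Pi.add_apply]
  ring

theorem CJ_smul {g : J → (Fin k → ℕ) → X → X} {F : J → X → ℂ} {j : J} {h : X → ℂ} (c : ℂ)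
    (h1 : CJ μ P σ f g (Function.update F j h)) :
    CJ μ P σ f g (Function.update F j (c • h)) := by
  filter_upwards [h1] with x hx
  obtain ⟨L, hL⟩ := hx
  refine ⟨c * L, (hL.const_mul c).congr fun N => ?_⟩
  rw [← av_mul]
  congr 1
  funext n
  rw [prod_upd, prod_upd, Pi.smul_apply, smul_eq_mul]
  ring

theorem CJ_zero {g : J → (Fin k → ℕ) → X → X} {F : J → X → ℂ} {j : J} :
    CJ μ P σ f g (Function.update F j (0 : X → ℂ)) := by
  refine Eventually.of_forall fun x => ⟨0, ?_⟩
  refine Tendsto.congr (fun N => ?_) (tendsto_const_nhds (x := (0 : ℂ)))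
  rw [av, Finset.sum_eq_zero, mul_zero]
  intro n _
  rw [prod_upd, Pi.zero_apply, zero_mul, zero_mul]

/-- Convergence for bounded measurable functions. -/
theorem CJ_BM [IsProbabilityMeasure μ] [IsProbabilityMeasure P]
    (hσ : ∀ l, MeasurePreserving (σ l) P P) (hf : Measurable f) (hfb : ∀ z, |f z| ≤ Cf)
    {H : Submodule ℝ (X → ℝ)} (hH : GaussSpace μ H)
    (hgen : ∀ A, MeasurableSet A → ∃ B, MeasurableSet[sig H] B ∧ A =ᵐ[μ] B)
    {A : Type} [AddCommGroup A] {Φ : A → Equiv.Perm X}
    (hΦ : ∀ a b, Φ (a + b) = Φ a * Φ b) (hadm : ∀ a, Adm μ H (Φ a))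
    (a : J → Fin k → A)
    (hgood : ∀ j, Good atTop (box k) (μ.prod P)
      (fun n p => (Φ (∑ l, n l • a j l) p.1, p.2))) {F : J → X → ℂ} (hF : ∀ j, BM (F j)) :
    CJ μ P σ f (fun j (n : Fin k → ℕ) => (Φ (∑ l, n l • a j l) : X → X)) F := by
  set g : J → (Fin k → ℕ) → X → X := fun j n => (Φ (∑ l, n l • a j l) : X → X) with hg
  have hE : ∀ l : Fin k, ∃ b : J → A, ∀ j (m : Fin k → ℕ),
      ∑ i, (m + Pi.single l 1 : Fin k → ℕ) i • a j i = ∑ i, m i • a j i + b j := by
    intro l
    refine ⟨fun j => a j l, fun j m => ?_⟩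
    simp only [Pi.add_apply, add_smul, Finset.sum_add_distrib]
    congr 1
    simp [Pi.single_apply]
  have key : ∀ (B : Finset J) (F : J → X → ℂ), (∀ j ∈ B, BM (F j)) →
      (∀ j ∉ B, ∃ h ∈ H, F j = fun x => ex (h x)) → CJ μ P σ f g F := by
    intro B
    induction B using Finset.induction_on with
    | empty =>
      intro F _ h2
      choose h hh hFh using fun j => h2 j (Finset.notMem_empty j)
      have h3 := conv_expZ (P := P) hσ hf hfb hH hΦ hadm
        (E := fun j (m : Fin k → ℕ) => ∑ l, m l • a j l) hE hh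
      filter_upwards [h3] with x hx
      obtain ⟨L, hL⟩ := hx
      refine ⟨L, hL.congr fun N => ?_⟩
      congr 1
      funext m
      rw [ex_sum]
      congr 1
      apply Finset.prod_congr rfl
      intro j _
      rw [hFh j]
    | insert j B hj ih =>
      intro F h1 h2
      have hBMall : ∀ l, BM (F l) := by
        intro l
        by_cases hl : l ∈ insert j B
        · exact h1 l hl
        · obtain ⟨h, hh, e⟩ := h2 l hl
          rw [e]
          exact ⟨meas_exh hH hh, 1, fun x => (norm_ex _).le⟩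
      have hbmj : BM (F j) := hBMall j
      have hmain : CJ μ P σ f g (Function.update F j (F j)) := by
        refine CJ_closed hfb (fun l m => (hadm _).mp) hgood hBMall hbmj ?_
        intro ε hε
        obtain ⟨hfm, C, hC⟩ := hbmj
        have hmem : MemLp (F j) 2 μ := MemLp.of_bound hfm.aestronglyMeasurable C
          (Eventually.of_forall hC)
        obtain ⟨f', hf', hff'⟩ := dense_EP hH hgen hmem hε
        have hg' : BM f' ∧ CJ μ P σ f g (Function.update F j f') := by
          refine Submodule.span_induction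
            (p := fun (f' : X → ℂ) _ => BM f' ∧ CJ μ P σ f g (Function.update F j f'))
            ?_ ?_ ?_ ?_ hf'
          · rintro _ ⟨h, hh, rfl⟩
            refine ⟨⟨meas_exh hH hh, 1, fun x => (norm_ex _).le⟩, ?_⟩
            apply ih
            · intro l hl
              have hlj : l ≠ j := fun e => hj (e ▸ hl)
              rw [Function.update_of_ne hlj]
              exact h1 l (Finset.mem_insert_of_mem hl)
            · intro l hl
              by_cases hlj : l = j
              · subst hlj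
                exact ⟨h, hh, by rw [Function.update_self]⟩
              · rw [Function.update_of_ne hlj]
                apply h2
                intro hmem'
                rcases Finset.mem_insert.mp hmem' with h5 | h5
                · exact hlj h5
                · exact hl h5
          · exact ⟨⟨measurable_const, 0, fun x => by simp⟩, CJ_zero⟩
          · rintro g₁ g₂ _ _ ⟨⟨m₁, C₁, b₁⟩, c₁⟩ ⟨⟨m₂, C₂, b₂⟩, c₂⟩
            exact ⟨⟨m₁.add m₂, C₁ + C₂, fun x => (norm_add_le _ _).trans
              (add_le_add (b₁ x) (b₂ x))⟩, CJ_add c₁ c₂⟩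
          · rintro c g₁ _ ⟨⟨m₁, C₁, b₁⟩, c₁⟩
            refine ⟨⟨m₁.const_smul c, ‖c‖ * C₁, fun x => ?_⟩, CJ_smul c c₁⟩
            rw [Pi.smul_apply, norm_smul]
            exact mul_le_mul_of_nonneg_left (b₁ x) (norm_nonneg _)
        exact ⟨f', hg'.1, hff', hg'.2⟩
      rwa [Function.update_eq_self] at hmain
  exact key Finset.univ F (fun j _ => hF j) fun j hj => absurd (Finset.mem_univ j) hj

end closure

/-- The action `Φ` of the group `G` on the probability space `(X, μ)` is Gaussian and its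
transformations commute: a linear space of centered Gaussian random variables is invariant modulo
null sets and generates the σ-algebra modulo null sets. (A one-point space is an example.) -/
structure IsGaussAct {G X : Type} [Group G] [MeasurableSpace X] (μ : Measure X)
    (Φ : G →* Equiv.Perm X) : Prop where
  mp : ∀ g, MeasurePreserving (Φ g) μ μ
  comm : ∀ g h, Commute (Φ g) (Φ h)
  gauss : ∃ H : Submodule ℝ (X → ℝ),
    (∀ h ∈ H, Measurable h ∧ ∃ v : ℝ≥0, μ.map h = gaussianReal 0 v) ∧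
    (∀ g, ∀ h ∈ H, ∃ h' ∈ H, h ∘ Φ g =ᵐ[μ] h') ∧
    (∀ A, MeasurableSet A → ∃ B,
      MeasurableSet[⨆ h : H, MeasurableSpace.comap (h : X → ℝ) inferInstance] B ∧ A =ᵐ[μ] B)

section act

variable {G X : Type} [Group G] [MeasurableSpace X] {μ : Measure X} {k m : ℕ}

/-- **Gaussian actions converge jointly with every system.** -/
theorem IsGaussAct.joint [IsProbabilityMeasure μ] {Φ : G →* Equiv.Perm X} (hΦ : IsGaussAct μ Φ)
    (u : Fin m → Fin k → G) : JC k m μ fun j n => (Φ (lin (u j) n) : X → X) := by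
  intro Z _ P _ σ hσ f hf ⟨Cf, hfb⟩ F hF
  obtain ⟨H, h1, h2, h3⟩ := hΦ.gauss
  have hH : GaussSpace μ H := ⟨fun h hh => (h1 h hh).1, fun h hh => (h1 h hh).2⟩
  have hadm : ∀ g, Adm μ (sat μ H) (Φ g) := by
    intro g
    have hinv : MeasurePreserving ((Φ g)⁻¹ : Equiv.Perm X) μ μ := by
      rw [← map_inv]
      exact hΦ.mp _
    refine ⟨hΦ.mp g, hinv, ?_, ?_⟩
    · rintro r ⟨hg, h, hh, e⟩
      obtain ⟨h', hh', e'⟩ := h2 g h hh
      refine ⟨hg.comp (hΦ.mp g).measurable, h', hh', ?_⟩
      exact ((hΦ.mp g).quasiMeasurePreserving.ae_eq_comp e).trans e'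
    · rintro r ⟨hg, h, hh, e⟩
      obtain ⟨h', hh', e'⟩ := h2 g⁻¹ h hh
      rw [map_inv] at e'
      refine ⟨hg.comp hinv.measurable, h', hh', ?_⟩
      exact (hinv.quasiMeasurePreserving.ae_eq_comp e).trans e'
  have hgen : ∀ A, MeasurableSet A → ∃ B, MeasurableSet[sig (sat μ H)] B ∧ A =ᵐ[μ] B := by
    intro A hA
    obtain ⟨B, hB, e⟩ := h3 A hA
    exact ⟨B, sig_mono (le_sat hH) B hB, e⟩
  let _ : CommGroup Φ.range := { (inferInstance : Group Φ.range) with
    mul_comm := by
      rintro ⟨_, g, rfl⟩ ⟨_, h, rfl⟩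
      exact Subtype.ext (hΦ.comm g h) }
  let A := Additive Φ.range
  let Ψ : A → Equiv.Perm X := fun a => (Additive.toMul a : Φ.range).1
  have hΨ : ∀ a b : A, Ψ (a + b) = Ψ a * Ψ b := fun a b => rfl
  have hΨadm : ∀ a : A, Adm μ (sat μ H) (Ψ a) := by
    intro a
    obtain ⟨g, hg⟩ := (Additive.toMul a : Φ.range).2
    show Adm μ (sat μ H) (Additive.toMul a : Φ.range).1
    rw [← hg]
    exact hadm g
  let a : Fin m → Fin k → A := fun j l => Additive.ofMul ⟨Φ (u j l), u j l, rfl⟩
  have hlin : ∀ j (n : Fin k → ℕ), Ψ (∑ l, n l • a j l) = Φ (lin (u j) n) := by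
    intro j n
    show ((Additive.toMul (∑ l, n l • a j l) : Φ.range) : Equiv.Perm X) = _
    rw [toMul_sum]
    have e1 : ∀ l, Additive.toMul (n l • a j l) =
        (⟨Φ (u j l), u j l, rfl⟩ : Φ.range) ^ n l := fun l => rfl
    simp only [e1]
    rw [← List.prod_ofFn, lin, map_list_prod]
    have e2 := map_list_prod Φ.range.subtype
      (List.ofFn fun l => (⟨Φ (u j l), u j l, rfl⟩ : Φ.range) ^ n l)
    refine e2.trans ?_
    rw [List.map_ofFn, List.map_ofFn]
    congr 2
    funext l
    show ((⟨Φ (u j l), u j l, rfl⟩ : Φ.range) ^ n l : Φ.range).1 = Φ (u j l ^ n l)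
    rw [map_pow]
    rfl
  have hgood : ∀ j, Good atTop (box k) (μ.prod P)
      (fun n p => (Ψ (∑ l, n l • a j l) p.1, p.2)) := by
    intro j
    have h4 := good_lin (Φ := pact Φ (1 : G →* Equiv.Perm Z))
      (pact_mp (μ := μ) (ν := P) hΦ.mp fun g => MeasurePreserving.id P) (u j)
    have e : (fun (n : Fin k → ℕ) (p : X × Z) => (Ψ (∑ l, n l • a j l) p.1, p.2)) =
        fun n p => pact Φ (1 : G →* Equiv.Perm Z) (lin (u j) n) p := by
      funext n p
      rw [hlin]
      rfl
    rw [e]
    exact h4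
  have hmain := CJ_BM hσ hf hfb hH.sat hgen hΨ hΨadm a hgood hF
  filter_upwards [hmain] with p hp
  obtain ⟨L, hL⟩ := hp
  refine ⟨L, hL.congr fun N => ?_⟩
  congr 1
  funext n
  simp only [hlin]

end act

end Pool.Agent.TH739.PB
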