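import Mathlib
import Pool.Agent.TH739.PB.Gaj

/-!
# Products with actions with discrete spectrum
-/

set_option autoImplicit false

open Filter Topology MeasureTheory ProbabilityTheory Set
open scoped ENNReal NNReal symmDiff

noncomputable section

namespace Pool.Agent.TH739.PB

open Pool.Agent.TH739.PA (av avr avr_add avr_sub avr_mul avr_mono avr_nonneg avr_const_le avr_abs
  avr_bound av_ofReal av_add av_mul av_sub av_norm Good int_lim Cls_conv closed_slot ind_BM
  BM_update BM_add BM_smul ext_one ext_all int_fst int_snd)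
open Pool.Agent.W761.Gauss (BM)
open Pool.Agent.W761.Box (bx bxc bxc_of_bx orb orb_mp)

/-- Bounded measurable eigenfunctions. -/
def Eig {G D : Type} [Group G] [MeasurableSpace D] (δ : Measure D) (Φ : G →* Equiv.Perm D) :
    Set (D → ℂ) :=
  {e | Measurable e ∧ (∃ C : ℝ, ∀ x, ‖e x‖ ≤ C) ∧
    ∃ χ : G → Circle, ∀ g, ∀ᵐ x ∂δ, e (Φ g x) = χ g * e x}

/-- The action `Φ` on the probability space `(D, δ)` has discrete spectrum: finite linear
combinations of bounded eigenfunctions are dense. (A one-point space is an example.) -/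
structure IsDiscAct {G D : Type} [Group G] [MeasurableSpace D] (δ : Measure D)
    (Φ : G →* Equiv.Perm D) : Prop where
  mp : ∀ g, MeasurePreserving (Φ g) δ δ
  dense : ∀ A, MeasurableSet A → ∀ ε : ℝ, 0 < ε → ∃ s ∈ Submodule.span ℂ (Eig δ Φ),
    ∫ x, ‖A.indicator (fun _ => (1 : ℂ)) x - s x‖ ∂δ ≤ ε

theorem exists_angle (ζ : Circle) : ∃ t : UnitAddCircle, AddCircle.toCircle t = ζ := by
  refine ⟨((Complex.arg ζ / (2 * Real.pi) : ℝ) : UnitAddCircle), ?_⟩
  rw [AddCircle.toCircle_apply_mk]
  have : 2 * Real.pi / 1 * (Complex.arg ζ / (2 * Real.pi)) = Complex.arg ζ := by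
    field_simp
  rw [this, Circle.exp_arg]

/-- Orbits of rotations. -/
theorem orb_rot : ∀ (k : ℕ) (θ : Fin k → UnitAddCircle) (n : Fin k → ℕ) (t : UnitAddCircle),
    orb k (fun l t => t + θ l) n t = t + ∑ l, n l • θ l
  | 0, θ, n, t => by simp [orb]
  | k + 1, θ, n, t => by
    have h1 := orb_rot k (Fin.tail θ) (Fin.tail n) t
    have h2 : ∀ (r : ℕ) (s t : UnitAddCircle), (fun t => t + s)^[r] t = t + r • s := by
      intro r s
      induction r with
      | zero => intro t; simp
      | succ r ih =>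
        intro t
        rw [Function.iterate_succ_apply, ih, succ_nsmul, add_assoc, add_comm s]
    show (fun t => t + θ 0)^[n 0] (orb k (fun l t => t + Fin.tail θ l) (Fin.tail n) t) = _
    rw [h1, h2, Fin.sum_univ_succ, add_assoc, add_comm (∑ l, _)]
    rfl

section main

variable {G D X : Type} [Group G] [MeasurableSpace D] [MeasurableSpace X]
  {δ : Measure D} {μ : Measure X} {k m : ℕ}

omit [MeasurableSpace X] in
/-- Eigenfunctions along linear sequences. -/
theorem eig_lin {ΦD : G →* Equiv.Perm D} (hD : ∀ g, MeasurePreserving (ΦD g) δ δ) {e : D → ℂ}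
    {χ : G → Circle} (he : ∀ g, ∀ᵐ x ∂δ, e (ΦD g x) = χ g * e x) :
    ∀ (k : ℕ) (u : Fin k → G) (n : Fin k → ℕ),
      ∀ᵐ x ∂δ, e (ΦD (lin u n) x) = ((∏ l, χ (u l) ^ n l : Circle) : ℂ) * e x
  | 0, u, n => by
    refine Eventually.of_forall fun x => ?_
    simp [lin]
  | k + 1, u, n => by
    have h1 := eig_lin hD he k (Fin.tail u) (Fin.tail n)
    have h2 : ∀ r : ℕ, ∀ᵐ x ∂δ, e (ΦD (u 0 ^ r) x) = ((χ (u 0) ^ r : Circle) : ℂ) * e x := by
      intro r
      induction r with
      | zero =>
        refine Eventually.of_forall fun x => ?_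
        simp
      | succ r ih =>
        have h3 := (hD (u 0)).quasiMeasurePreserving.ae ih
        filter_upwards [h3, he (u 0)] with x hx hx'
        rw [pow_succ, map_mul, Equiv.Perm.mul_apply, hx, hx', pow_succ, Circle.coe_mul]
        ring
    have h4 := (hD (lin (Fin.tail u) (Fin.tail n))).quasiMeasurePreserving.ae (h2 (n 0))
    filter_upwards [h1, h4] with x hx hx'
    have e1 : lin u n = u 0 ^ n 0 * lin (Fin.tail u) (Fin.tail n) := by
      rw [lin, lin, List.ofFn_succ, List.prod_cons]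
      rfl
    rw [e1, map_mul, Equiv.Perm.mul_apply, hx', hx, Fin.prod_univ_succ, Circle.coe_mul]
    simp only [Fin.tail]
    ring

/-- Joint convergence with phases. -/
theorem phase [IsProbabilityMeasure μ] {a : Fin m → (Fin k → ℕ) → X → X} (hJ : JC k m μ a)
    {Z : Type} [MeasurableSpace Z] {P : Measure Z} [IsProbabilityMeasure P]
    {σ : Fin k → Z → Z} (hσ : ∀ l, MeasurePreserving (σ l) P P) {f : Z → ℝ} (hf : Measurable f)
    {Cf : ℝ} (hfb : ∀ z, |f z| ≤ Cf) {h : Fin m → X → ℂ} (hh : ∀ j, BM (h j))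
    (ζ : Fin k → Circle) :
    ∀ᵐ p ∂(μ.prod P), ∃ L : ℂ, Tendsto (fun M => av (box k M) fun n =>
      ((∏ l, ζ l ^ n l : Circle) : ℂ) * ((∏ j, h j (a j n p.1)) * (f (orb k σ n p.2) : ℂ)))
      atTop (𝓝 L) := by
  choose θ hθ using fun l => exists_angle (ζ l)
  let R : Measure UnitAddCircle := AddCircle.haarAddCircle (T := (1 : ℝ))
  let σ' : Fin k → Z × UnitAddCircle → Z × UnitAddCircle := fun l p => (σ l p.1, p.2 + θ l)
  have hσ' : ∀ l, MeasurePreserving (σ' l) (P.prod R) (P.prod R) := fun l =>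
    (hσ l).prod (measurePreserving_add_right R (θ l))
  have horb : ∀ n p, orb k σ' n p = (orb k σ n p.1, p.2 + ∑ l, n l • θ l) := by
    intro n p
    have e1 := orb_prod k σ (fun l (t : UnitAddCircle) => t + θ l) n p
    rw [orb_rot] at e1
    exact e1
  have hc : Measurable fun t : UnitAddCircle => ((AddCircle.toCircle t : Circle) : ℂ) :=
    (Continuous.comp (by fun_prop : Continuous fun c : Circle => (c : ℂ))
      AddCircle.continuous_toCircle).measurable
  have hre : ∀ t : UnitAddCircle, |((AddCircle.toCircle t : Circle) : ℂ).re| ≤ 1 := fun t =>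
    (Complex.abs_re_le_norm _).trans (Circle.norm_coe _).le
  have him : ∀ t : UnitAddCircle, |((AddCircle.toCircle t : Circle) : ℂ).im| ≤ 1 := fun t =>
    (Complex.abs_im_le_norm _).trans (Circle.norm_coe _).le
  have hbd : ∀ (c : ℝ) (z : Z), |c| ≤ 1 → |c * f z| ≤ Cf := fun c z hc => by
    rw [abs_mul]
    exact (mul_le_of_le_one_left (abs_nonneg _) hc).trans (hfb z)
  have h1 := hJ (Z × UnitAddCircle) inferInstance (P.prod R) inferInstance σ' hσ'
    (fun p => ((AddCircle.toCircle p.2 : Circle) : ℂ).re * f p.1)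
    ((Complex.measurable_re.comp (hc.comp measurable_snd)).mul (hf.comp measurable_fst))
    ⟨Cf, fun p => hbd _ _ (hre _)⟩ h hh
  have h2 := hJ (Z × UnitAddCircle) inferInstance (P.prod R) inferInstance σ' hσ'
    (fun p => ((AddCircle.toCircle p.2 : Circle) : ℂ).im * f p.1)
    ((Complex.measurable_im.comp (hc.comp measurable_snd)).mul (hf.comp measurable_fst))
    ⟨Cf, fun p => hbd _ _ (him _)⟩ h hh
  have h3 : ∀ᵐ q ∂(μ.prod (P.prod R)), ∃ L : ℂ, Tendsto (fun M => av (box k M) fun n =>
      ((∏ l, ζ l ^ n l : Circle) : ℂ) * ((∏ j, h j (a j n q.1)) * (f (orb k σ n q.2.1) : ℂ)))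
      atTop (𝓝 L) := by
    filter_upwards [h1, h2] with q hq1 hq2
    obtain ⟨L₁, hL₁⟩ := hq1
    obtain ⟨L₂, hL₂⟩ := hq2
    have h4 := (hL₁.add (hL₂.const_mul Complex.I)).const_mul
      (((AddCircle.toCircle q.2.2)⁻¹ : Circle) : ℂ)
    refine ⟨_, h4.congr fun M => ?_⟩
    rw [← av_mul, ← av_add, ← av_mul]
    congr 1
    funext n
    rw [horb]
    have e1 : AddCircle.toCircle (q.2.2 + ∑ l, n l • θ l) =
        AddCircle.toCircle q.2.2 * ∏ l, ζ l ^ n l := by
      rw [AddCircle.toCircle_add]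
      congr 1
      have e2 : ∀ s : Finset (Fin k), AddCircle.toCircle (∑ l ∈ s, n l • θ l) =
          ∏ l ∈ s, ζ l ^ n l := by
        intro s
        classical
        induction s using Finset.induction_on with
        | empty => simp
        | insert l s hl ih =>
          rw [Finset.sum_insert hl, Finset.prod_insert hl, AddCircle.toCircle_add,
            AddCircle.toCircle_nsmul, hθ, ih]
      exact e2 Finset.univ
    have e3' : (∏ l, ζ l ^ n l) = (AddCircle.toCircle q.2.2)⁻¹ *
        AddCircle.toCircle (q.2.2 + ∑ l, n l • θ l) := by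
      rw [e1, inv_mul_cancel_left]
    have e3 : ((∏ l, ζ l ^ n l : Circle) : ℂ) = (((AddCircle.toCircle q.2.2)⁻¹ : Circle) : ℂ) *
        ((AddCircle.toCircle (q.2.2 + ∑ l, n l • θ l) : Circle) : ℂ) := by
      rw [e3', Circle.coe_mul]
    rw [e3]
    generalize AddCircle.toCircle (q.2.2 + ∑ l, n l • θ l) = c
    have e4 : (c : ℂ) = ((c : ℂ).re : ℂ) + ((c : ℂ).im : ℂ) * Complex.I :=
      (Complex.re_add_im _).symm
    nth_rewrite 3 [e4]
    push_cast
    ring
  have h5 := (measurePreserving_prodAssoc μ P R).quasiMeasurePreserving.ae h3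
  have h6 := Measure.ae_ae_of_ae_prod h5
  filter_upwards [h6] with p hp
  obtain ⟨t, ht⟩ := hp.exists
  exact ht

/-- **Products with discrete spectrum.** -/
theorem JC_disc [IsProbabilityMeasure δ] [IsProbabilityMeasure μ] {ΦD : G →* Equiv.Perm D}
    (hD : IsDiscAct δ ΦD) {Φ : G →* Equiv.Perm X} (hΦ : ∀ g, MeasurePreserving (Φ g) μ μ)
    (u : Fin m → Fin k → G) (hJ : JC k m μ fun j n => (Φ (lin (u j) n) : X → X)) :
    JC k m (δ.prod μ) fun j n => (pact ΦD Φ (lin (u j) n) : D × X → D × X) := by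
  intro Z _ P _ σ hσ f hf ⟨Cf, hfb⟩ F hF
  have hmp := pact_mp (μ := δ) (ν := μ) hD.mp hΦ
  have hgood : ∀ j, Good atTop (box k) ((δ.prod μ).prod P)
      (fun n p => (pact ΦD Φ (lin (u j) n) p.1, p.2)) := fun j =>
    good_lin (Φ := pact (pact ΦD Φ) (1 : G →* Equiv.Perm Z))
      (pact_mp (μ := δ.prod μ) (ν := P) hmp fun g => MeasurePreserving.id P) (u j)
  let g : Fin m → (Fin k → ℕ) → D × X → D × X := fun j n => pact ΦD Φ (lin (u j) n)
  let 𝒬 : Set (D × X → ℂ) := {e | ∃ (e₁ : D → ℂ) (B : Set X), e₁ ∈ Eig δ ΦD ∧ MeasurableSet B ∧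
    e = fun p => e₁ p.1 * B.indicator (fun _ => 1) p.2}
  have hprodBM : ∀ (s : D → ℂ) (B : Set X), BM s → MeasurableSet B →
      BM fun p : D × X => s p.1 * B.indicator (fun _ => (1 : ℂ)) p.2 := by
    rintro s B ⟨h1, C, hC⟩ hB
    refine ⟨(h1.comp measurable_fst).mul ((measurable_const.indicator hB).comp measurable_snd),
      C, fun p => ?_⟩
    rw [norm_mul]
    by_cases hp : p.2 ∈ B
    · rw [indicator_of_mem hp, norm_one, mul_one]
      exact hC _
    · rw [indicator_of_notMem hp, norm_zero, mul_zero]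
      exact (norm_nonneg _).trans (hC p.1)
  show CJ (δ.prod μ) P σ f g F
  refine ext_all (P := CJ (δ.prod μ) P σ f g) (𝒬 := 𝒬) ?_ ?_ ?_ hF
  · rintro e ⟨e₁, B, ⟨h1, h2, _⟩, hB, rfl⟩
    exact hprodBM e₁ B ⟨h1, h2⟩ hB
  · intro F j hF hQ h hh
    have hcl : ∀ h, BM h → (∀ ε : ℝ, 0 < ε → ∃ g' : D × X → ℂ, BM g' ∧
        ∫ z, ‖h z - g' z‖ ∂(δ.prod μ) ≤ ε ∧ CJ (δ.prod μ) P σ f g (Function.update F j g')) →
        CJ (δ.prod μ) P σ f g (Function.update F j h) := fun h hh H =>
      CJ_closed hfb (fun j n => hmp _) hgood hF hh H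
    refine ext_one (μ := δ.prod μ) (P := fun h => CJ (δ.prod μ) P σ f g (Function.update F j h))
      (fun h h' _ _ h1 h2 => CJ_add h1 h2) (fun c h _ h1 => CJ_smul c h1) hcl
      (𝒬 := Set.image2 (fun (s : Set D) (t : Set X) => s ×ˢ t) {s | MeasurableSet s}
        {t | MeasurableSet t}) ?_ isPiSystem_prod ?_ ?_ ?_ hh
    · rintro _ ⟨A, hA, B, hB, rfl⟩
      exact MeasurableSet.prod hA hB
    · exact ⟨univ, MeasurableSet.univ, univ, MeasurableSet.univ, univ_prod_univ⟩
    · intro C hC
      rw [generateFrom_prod]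
      exact ⟨C, hC, Filter.EventuallyEq.refl _ _⟩
    · rintro _ ⟨A, hA, B, hB, rfl⟩
      refine hcl _ (ind_BM (MeasurableSet.prod hA hB) 1) fun ε hε => ?_
      obtain ⟨s, hs, hi⟩ := hD.dense A hA ε hε
      have hs' : BM s ∧ CJ (δ.prod μ) P σ f g (Function.update F j
          fun p => s p.1 * B.indicator (fun _ => 1) p.2) := by
        refine Submodule.span_induction (p := fun (s : D → ℂ) _ => BM s ∧
          CJ (δ.prod μ) P σ f g (Function.update F j
            fun p => s p.1 * B.indicator (fun _ => 1) p.2)) ?_ ?_ ?_ ?_ hs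
        · rintro e he
          exact ⟨⟨he.1, he.2.1⟩, hQ _ ⟨e, B, he, hB, rfl⟩⟩
        · refine ⟨⟨measurable_const, 0, fun x => by simp⟩, ?_⟩
          have e0 : (fun p : D × X => (0 : D → ℂ) p.1 * B.indicator (fun _ => (1 : ℂ)) p.2) = 0 := by
            funext p
            simp
          rw [e0]
          exact CJ_zero
        · rintro s₁ s₂ _ _ ⟨b₁, c₁⟩ ⟨b₂, c₂⟩
          refine ⟨BM_add b₁ b₂, ?_⟩
          have e0 : (fun p : D × X => (s₁ + s₂) p.1 * B.indicator (fun _ => (1 : ℂ)) p.2) =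
              (fun p => s₁ p.1 * B.indicator (fun _ => 1) p.2) +
                fun p => s₂ p.1 * B.indicator (fun _ => 1) p.2 := by
            funext p
            simp only [Pi.add_apply]
            ring
          rw [e0]
          exact CJ_add c₁ c₂
        · rintro c s₁ _ ⟨b₁, c₁⟩
          refine ⟨BM_smul c b₁, ?_⟩
          have e0 : (fun p : D × X => (c • s₁) p.1 * B.indicator (fun _ => (1 : ℂ)) p.2) =
              c • fun p => s₁ p.1 * B.indicator (fun _ => 1) p.2 := by
            funext p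
            simp only [Pi.smul_apply, smul_eq_mul]
            ring
          rw [e0]
          exact CJ_smul c c₁
      refine ⟨_, hprodBM s B hs'.1 hB, ?_, hs'.2⟩
      refine le_trans ?_ hi
      rw [← int_fst (μ := δ) (ν := μ) fun x => ‖A.indicator (fun _ => (1 : ℂ)) x - s x‖]
      have hAs : BM fun x => A.indicator (fun _ => (1 : ℂ)) x - s x := by
        have h8 := BM_add (ind_BM hA 1) (BM_smul (-1) hs'.1)
        have e0 : (A.indicator fun _ => (1 : ℂ)) + (fun x => -1 * s x) =
            fun x => A.indicator (fun _ => (1 : ℂ)) x - s x := by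
          funext x
          simp only [Pi.add_apply]
          ring
        rwa [e0] at h8
      refine integral_mono_of_nonneg (Eventually.of_forall fun z => norm_nonneg _) ?_
        (Eventually.of_forall fun p => ?_)
      · obtain ⟨h9, C, hC⟩ := hAs
        exact Integrable.of_bound (h9.norm.comp measurable_fst).aestronglyMeasurable C
          (Eventually.of_forall fun z => by
            show ‖‖_‖‖ ≤ C
            rw [norm_norm]
            exact hC _)
      · show ‖(A ×ˢ B).indicator (fun _ => (1 : ℂ)) p - s p.1 * B.indicator (fun _ => 1) p.2‖ ≤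
          ‖A.indicator (fun _ => (1 : ℂ)) p.1 - s p.1‖
        by_cases h1 : p.1 ∈ A <;> by_cases h2 : p.2 ∈ B <;> simp [h1, h2, Set.indicator]
  · intro F hF
    choose e B he hB hFe using hF
    choose he1 he2 χ hχ using he
    have h1 := phase hJ hσ hf hfb (h := fun j => (B j).indicator fun _ => (1 : ℂ))
      (fun j => ind_BM (hB j) 1) fun l => ∏ j, χ j (u j l)
    have h2 : ∀ᵐ d ∂δ, ∀ (n : Fin k → ℕ) (j : Fin m), e j (ΦD (lin (u j) n) d) =
        ((∏ l, χ j (u j l) ^ n l : Circle) : ℂ) * e j d := by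
      rw [ae_all_iff]
      intro n
      rw [ae_all_iff]
      intro j
      exact eig_lin hD.mp (hχ j) k (u j) n
    have h3 : ∀ᵐ q ∂(δ.prod (μ.prod P)), ∃ L : ℂ, Tendsto (fun M => av (box k M) fun n =>
        (∏ j, F j (g j n (q.1, q.2.1))) * (f (orb k σ n q.2.2) : ℂ)) atTop (𝓝 L) := by
      filter_upwards [Measure.quasiMeasurePreserving_fst.ae h2,
        Measure.quasiMeasurePreserving_snd.ae h1] with q hq1 hq2
      obtain ⟨L, hL⟩ := hq2
      refine ⟨(∏ j, e j q.1) * L, (hL.const_mul (∏ j, e j q.1)).congr fun M => ?_⟩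
      rw [← av_mul]
      congr 1
      funext n
      have e1 : ∏ j, F j (g j n (q.1, q.2.1)) = (∏ j, e j q.1) *
          (((∏ l, (∏ j, χ j (u j l)) ^ n l : Circle) : ℂ) *
            ∏ j, (B j).indicator (fun _ => (1 : ℂ)) (Φ (lin (u j) n) q.2.1)) := by
        have e2 : ∀ j, F j (g j n (q.1, q.2.1)) = e j q.1 *
            (((∏ l, χ j (u j l) ^ n l : Circle) : ℂ) *
              (B j).indicator (fun _ => (1 : ℂ)) (Φ (lin (u j) n) q.2.1)) := by
          intro j
          rw [hFe j]
          show e j (ΦD (lin (u j) n) q.1) *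
            (B j).indicator (fun _ => (1 : ℂ)) (Φ (lin (u j) n) q.2.1) = _
          rw [hq1 n j]
          ring
        rw [Finset.prod_congr rfl fun j _ => e2 j, Finset.prod_mul_distrib,
          Finset.prod_mul_distrib]
        congr 2
        have e3 : ∏ l, (∏ j, χ j (u j l)) ^ n l = ∏ j, ∏ l, χ j (u j l) ^ n l := by
          rw [Finset.prod_comm]
          exact Finset.prod_congr rfl fun l _ => (Finset.prod_pow _ _ _).symm
        rw [e3]
        exact (map_prod Circle.coeHom _ _).symm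
      rw [e1]
      ring
    have h4 := (measurePreserving_prodAssoc δ μ P).quasiMeasurePreserving.ae h3
    exact h4

end main

end Pool.Agent.TH739.PB
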