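import Mathlib
import Pool.Agent.TH739.PB.Disc

/-!
# Products with Poisson suspensions, jointly with an arbitrary system
-/

set_option autoImplicit false

open Filter Topology MeasureTheory ProbabilityTheory Set
open scoped ENNReal NNReal symmDiff

noncomputable section

namespace Pool.Agent.TH739.PB

open Pool.Agent.TH739.PA (av avr avr_add avr_sub avr_mul avr_mono avr_nonneg avr_const_le avr_abs
  avr_bound av_ofReal av_add av_mul av_sub av_norm Good int_lim Cls_conv closed_slot ind_BM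
  BM_update BM_add BM_smul ext_one ext_all pr pr_update int_snd Qf IsPoissonAction
  exists_isPoissonAction)
open Pool.Agent.TH739.Poi (pv pv_nonneg pv_le pv_true pv_false measurable_pv pv_mem_meas
  Om PP Th TT W W_meas W_union prob_W pm pm_prob gU Hi V V_meas V_union prob_V Ov q_bd IsVoid
  fin_biUnion Rec Rec_pi Rec_univ Rec_gen)
open Pool.Agent.W761.Gauss (BM)
open Pool.Agent.W761.Box (bx orb orb_mp dz)

variable {X Y Wt G Z : Type} [Group G] [MeasurableSpace X] [MeasurableSpace Y]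
  [MeasurableSpace Wt] [MeasurableSpace Z] {μ : Measure X} {ν : Measure Y} {P : Measure Z}
  {k m : ℕ} {σ : Fin k → Z → Z} {f : Z → ℝ}

/-- **Convergence for the marked points**, jointly with a system. -/
theorem conv_markedZ {ρ : ℕ → Measure Wt} {y₀ : Wt} [∀ k, IsFiniteMeasure (ρ k)]
    [IsProbabilityMeasure μ] [IsProbabilityMeasure P] (hσ : ∀ l, MeasurePreserving (σ l) P P)
    (hf : Measurable f) (hfb : ∀ z, |f z| ≤ 1) {Θ : G →* Equiv.Perm Wt}
    (hΘ : ∀ g, MeasurePreserving (Θ g) (Measure.sum ρ) (Measure.sum ρ)) (u : Fin m → Fin k → G)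
    {a : Fin m → (Fin k → ℕ) → X → X} (hJ : JC k m μ a) {D₁ : Fin m → Set X}
    (hD₁ : ∀ j, MeasurableSet (D₁ j)) {A : Fin m → Set Wt} (hA : ∀ j, MeasurableSet (A j))
    (hAf : ∀ j, Measure.sum ρ (A j) ≠ ∞) (q : ℝ) [IsProbabilityMeasure (pm m q)] (h0 : 0 ≤ q)
    (h1 : m * q ≤ 1) :
    ∀ᵐ x ∂(μ.prod P), ∀ᵐ p ∂((PP ρ y₀).prod (TT m q)), Cn atTop (box k) fun n =>
      ((∏ j, (D₁ j).indicator (fun _ => (1 : ℝ)) (a j n x.1)) * f (orb k σ n x.2)) *
        pv (p ∈ W (fun j => Θ (lin (u j) n) ⁻¹' A j)) := by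
  have hne : Nonempty Wt := ⟨y₀⟩
  set κ := Measure.sum ρ with hκ
  have hsf : SFinite κ := by
    rw [hκ]
    infer_instance
  have hC : ∀ n j, MeasurableSet (Θ (lin (u j) n) ⁻¹' A j) := fun n j =>
    (hΘ _).measurable (hA j)
  have hCf : ∀ n j, κ (Θ (lin (u j) n) ⁻¹' A j) ≠ ∞ := fun n j => by
    rw [(hΘ _).measure_preimage (hA j).nullMeasurableSet]
    exact hAf j
  obtain ⟨Yq, mY, νq, Ψq, hprob, hP⟩ := exists_isPoissonAction (ENNReal.ofReal q • κ) Θ
    fun g => (hΘ g).smul_measure _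
  obtain ⟨E, hE, hEq⟩ := hP.void
  have hfin : ∀ B, κ B ≠ ∞ → (ENNReal.ofReal q • κ) B ≠ ∞ := fun B hB =>
    ENNReal.mul_ne_top ENNReal.ofReal_ne_top hB
  let Pq : Measure (Fin m → Yq) := Measure.pi fun _ => νq
  let τ : Fin k → (Fin m → Yq) → (Fin m → Yq) := fun l z j => Ψq (u j l) (z j)
  have hτ : ∀ l, MeasurePreserving (τ l) Pq Pq := fun l =>
    measurePreserving_pi _ _ fun j => hP.mp _
  let D : Set (Fin m → Yq) := Set.pi univ fun j => E (A j)
  have hDm : MeasurableSet D := MeasurableSet.univ_pi fun j => hE.meas _ (hA j) (hfin _ (hAf j))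
  let σ' : Fin k → Z × (Fin m → Yq) → Z × (Fin m → Yq) := fun l p => (σ l p.1, τ l p.2)
  have hσ' : ∀ l, MeasurePreserving (σ' l) (P.prod Pq) (P.prod Pq) := fun l =>
    (hσ l).prod (hτ l)
  have hJ1 := hJ (Z × (Fin m → Yq)) inferInstance (P.prod Pq) inferInstance σ' hσ'
    (fun z => f z.1 * pv (z.2 ∈ D))
    ((hf.comp measurable_fst).mul ((pv_mem_meas hDm).comp measurable_snd)) ⟨1, fun z => by
      rw [abs_mul, abs_of_nonneg (pv_nonneg _)]
      exact mul_le_one₀ (hfb _) (pv_nonneg _) (pv_le _)⟩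
    (fun j => (D₁ j).indicator fun _ => 1) fun j => ind_BM (hD₁ j) 1
  have hJ2 := (measurePreserving_prodAssoc μ P Pq).quasiMeasurePreserving.ae hJ1
  filter_upwards [Measure.ae_ae_of_ae_prod hJ2] with x hx
  have horb' : ∀ n z, orb k τ n z = fun j => Ψq (lin (u j) n) (z j) := by
    intro n z
    have h2 := orb_pi k (fun j l => (Ψq (u j l) : Yq → Yq)) n z
    refine h2.trans ?_
    funext j
    exact orb_lin Ψq k (u j) n (z j)
  have horb : ∀ n z, orb k σ' n z = (orb k σ n z.1, orb k τ n z.2) := fun n z =>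
    orb_prod k σ τ n z
  refine transfer (P := Pq) (F := fun n => {z | orb k τ n z ∈ D})
    (F' := fun n => W (fun j => Θ (lin (u j) n) ⁻¹' A j))
    (fun n => (orb_mp k τ hτ n).measurable hDm) (fun n => W_meas fun j => hC n j) ?_ ?_
  · intro J
    have e1 : (⋂ n ∈ J, {z | orb k τ n z ∈ D}) =
        Set.pi univ fun j => ⋂ n ∈ J, (Ψq (lin (u j) n) ⁻¹' E (A j)) := by
      ext z
      simp only [mem_iInter, mem_ofPred_eq, horb', D, Set.mem_pi, mem_univ, true_imp_iff,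
        mem_preimage]
      exact ⟨fun h j n hn => h n hn j, fun h n hn j => h j n hn⟩
    rw [e1, Measure.pi_pi]
    have e2 : ∀ j, νq (⋂ n ∈ J, (Ψq (lin (u j) n) ⁻¹' E (A j))) =
        ENNReal.ofReal (Real.exp (-(q * (κ (⋃ n ∈ J, Θ (lin (u j) n) ⁻¹' A j)).toReal))) := by
      intro j
      have hm := Finset.measurableSet_biUnion J fun n (_ : n ∈ J) => hC n j
      rw [← toReal_smul h0, ← hE.prob _ hm (hfin _ (fin_biUnion J fun n => hCf n j))]
      refine (measure_congr ?_).trans (measure_congr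
        (hE.biUnion J (B := fun n => Θ (lin (u j) n) ⁻¹' A j) (fun n => hC n j)
          fun n => hfin _ (hCf n j))).symm
      have h3 : ∀ᵐ y ∂νq, ∀ n ∈ J, (y ∈ (Ψq (lin (u j) n) ⁻¹' E (A j) : Set Yq)) =
          (y ∈ E (Θ (lin (u j) n) ⁻¹' A j)) := by
        rw [Finset.eventually_all J]
        intro n _
        exact hEq (lin (u j) n) (A j) (hA j) (hfin _ (hAf j))
      filter_upwards [h3] with y hy
      apply propext
      show y ∈ (⋂ n ∈ J, (Ψq (lin (u j) n) ⁻¹' E (A j))) ↔ y ∈ ⋂ n ∈ J, E (Θ (lin (u j) n) ⁻¹' A j)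
      simp only [mem_iInter]
      exact forall₂_congr fun n hn => Iff.of_eq (hy n hn)
    rw [Finset.prod_congr rfl fun j _ => e2 j, ← W_union,
      prob_W (y₀ := y₀) h0 h1 (fun j => Finset.measurableSet_biUnion J fun n _ => hC n j)
        fun j => fin_biUnion J fun n => hCf n j,
      ← ENNReal.ofReal_prod_of_nonneg fun j _ => (Real.exp_pos _).le, ← Real.exp_sum,
      Finset.sum_neg_distrib, Finset.mul_sum]
  · filter_upwards [hx] with z hz
    obtain ⟨L, hL⟩ := hz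
    refine ⟨L.re, ?_⟩
    have h3 := (Complex.continuous_re.tendsto L).comp hL
    refine h3.congr fun M => ?_
    have e3 : (fun n => (∏ j, (D₁ j).indicator (fun _ => (1 : ℂ)) (a j n x.1)) *
        ((f (orb k σ' n (x.2, z)).1 * pv ((orb k σ' n (x.2, z)).2 ∈ D) : ℝ) : ℂ)) = fun n =>
        ((((∏ j, (D₁ j).indicator (fun _ => (1 : ℝ)) (a j n x.1)) * f (orb k σ n x.2)) *
          pv (orb k τ n z ∈ D) : ℝ) : ℂ) := by
      funext n
      rw [horb]
      push_cast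
      rw [mul_assoc]
      congr 1
      refine Finset.prod_congr rfl fun j _ => ?_
      by_cases h : a j n x.1 ∈ D₁ j <;> simp [h]
    simp only [Function.comp_apply]
    have e4 : (av (box k M) fun n => (∏ j, (D₁ j).indicator (fun _ => (1 : ℂ)) (a j n x.1)) *
        ((f (orb k σ' n (x.2, z)).1 * pv ((orb k σ' n (x.2, z)).2 ∈ D) : ℝ) : ℂ)).re =
        avr (box k M) fun n => ((∏ j, (D₁ j).indicator (fun _ => (1 : ℝ)) (a j n x.1)) *
          f (orb k σ n x.2)) * pv (orb k τ n z ∈ D) := by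
      rw [e3, av_ofReal, Complex.ofReal_re]
    exact e4

variable {κ : Measure Wt}

/-- Base case. -/
theorem ext_base [SFinite κ] [Nonempty Wt] [IsProbabilityMeasure μ] [IsProbabilityMeasure ν]
    [IsProbabilityMeasure P] (hσ : ∀ l, MeasurePreserving (σ l) P P)
    (hf : Measurable f) (hfb : ∀ z, |f z| ≤ 1)
    {Φ : G →* Equiv.Perm X} (hΦ : ∀ g, MeasurePreserving (Φ g) μ μ) {Θ : G →* Equiv.Perm Wt}
    {Ψ : G →* Equiv.Perm Y} (hΘ : ∀ g, MeasurePreserving (Θ g) κ κ)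
    (hΨ : ∀ g, MeasurePreserving (Ψ g) ν ν) {E : Set Wt → Set Y} (hE : IsVoid κ id ν id E)
    (hEq : ∀ g A, MeasurableSet A → κ A ≠ ∞ → (Ψ g ⁻¹' E A : Set Y) =ᵐ[ν] E (Θ g ⁻¹' A))
    {u : Fin m → Fin k → G} (hu : Function.Injective u)
    (hJ : JC k m μ fun j n => (Φ (lin (u j) n) : X → X)) {A : Fin m → Set Wt}
    (hA : ∀ j, MeasurableSet (A j)) (hAf : ∀ j, κ (A j) ≠ ∞)
    (hs : ∀ i j, i ≠ j → OvS κ Θ (u i) (u j) (A i) (A j)) {D₁ : Fin m → Set X}
    (hD₁ : ∀ j, MeasurableSet (D₁ j)) :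
    CJ (μ.prod ν) P σ f (fun j n => (pact Φ Ψ (lin (u j) n) : X × Y → X × Y))
      (fun j => (D₁ j ×ˢ E (A j)).indicator fun _ => (1 : ℂ)) := by
  obtain ⟨y₀⟩ := (inferInstance : Nonempty Wt)
  obtain ⟨ρ, hρf, hρ⟩ : ∃ ρ : ℕ → Measure Wt, (∀ k, IsFiniteMeasure (ρ k)) ∧
      Measure.sum ρ = κ := ⟨sfiniteSeq κ, fun k => inferInstance, sum_sfiniteSeq κ⟩
  subst hρ
  set κ := Measure.sum ρ with hκ
  have hC : ∀ n j, MeasurableSet (Θ (lin (u j) n) ⁻¹' A j) := fun n j =>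
    (hΘ _).measurable (hA j)
  have hCf : ∀ n j, κ (Θ (lin (u j) n) ⁻¹' A j) ≠ ∞ := fun n j => by
    rw [(hΘ _).measure_preimage (hA j).nullMeasurableSet]
    exact hAf j
  let w : (Fin k → ℕ) → X × Z → ℝ := fun n x =>
    (∏ j, (D₁ j).indicator (fun _ => (1 : ℝ)) (Φ (lin (u j) n) x.1)) * f (orb k σ n x.2)
  have hw : ∀ n, Measurable (w n) := fun n =>
    ((Finset.measurable_fun_prod _ fun j _ =>
      (measurable_const.indicator (hD₁ j)).comp (hΦ _).measurable).comp measurable_fst).mul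
      ((hf.comp (orb_mp k σ hσ n).measurable).comp measurable_snd)
  have hind : ∀ (s : Set X) (x : X), 0 ≤ s.indicator (fun _ => (1 : ℝ)) x ∧
      s.indicator (fun _ => (1 : ℝ)) x ≤ 1 := fun s x =>
    ⟨indicator_nonneg (fun _ _ => zero_le_one) _, indicator_le_self' (fun _ _ => zero_le_one) x⟩
  have hwa : ∀ n x, |w n x| ≤ 1 := fun n x => by
    show |_ * _| ≤ 1
    rw [abs_mul, abs_of_nonneg (Finset.prod_nonneg fun j _ => (hind _ _).1)]
    exact mul_le_one₀ (Finset.prod_le_one (fun j _ => (hind _ _).1) fun j _ => (hind _ _).2)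
      (abs_nonneg _) (hfb _)
  have hov : ∀ᵐ ω ∂(PP ρ y₀), Tendsto (fun M => avr (box k M) fun n =>
      pv (ω ∉ V (Ov (fun j => Θ (lin (u j) n) ⁻¹' A j)))) atTop (𝓝 0) := by
    have h2 : ∀ᵐ ω ∂(PP ρ y₀), ∀ i j : Fin m, i < j → Tendsto (fun M => avr (box k M) fun n =>
        pv (ω ∉ V (Θ (lin (u i) n) ⁻¹' A i ∩ Θ (lin (u j) n) ⁻¹' A j))) atTop (𝓝 0) := by
      rw [ae_all_iff]
      intro i
      rw [ae_all_iff]
      intro j
      by_cases hij : i < j
      · have hB : ∀ n, MeasurableSet (Θ (lin (u i) n) ⁻¹' A i ∩ Θ (lin (u j) n) ⁻¹' A j) :=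
          fun n => (hC n i).inter (hC n j)
        have hBf : ∀ n, κ (Θ (lin (u i) n) ⁻¹' A i ∩ Θ (lin (u j) n) ⁻¹' A j) ≠ ∞ := fun n =>
          ne_top_of_le_ne_top (hCf n i) (measure_mono inter_subset_left)
        have h3 := overlaps hΘ hΨ hE hEq (hu.ne hij.ne) (hA i) (hA j) (hAf i) (hs i j hij.ne)
        have h4 := transfer0 (P := ν) (P' := PP ρ y₀)
          (F := fun n => E (Θ (lin (u i) n) ⁻¹' A i ∩ Θ (lin (u j) n) ⁻¹' A j))
          (F' := fun n => V (Θ (lin (u i) n) ⁻¹' A i ∩ Θ (lin (u j) n) ⁻¹' A j))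
          (fun n => hE.meas _ (hB n) (hBf n)) (fun n => V_meas (hB n))
          (fun J => (inter_prob hE hB hBf J).symm) h3
        filter_upwards [h4] with ω hω _
        exact hω
      · exact Eventually.of_forall fun ω h => absurd h hij
    filter_upwards [h2] with ω hω
    exact ovl_sum (C := fun n j => Θ (lin (u j) n) ⁻¹' A j) hω
  have h1 := base_conv (𝔣 := atTop) (Bx := box k) (y₀ := y₀) (μ := μ.prod P) hE hw hwa
    (C := fun n j => Θ (lin (u j) n) ⁻¹' A j) hC hCf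
    (fun q _ h0 h1 => conv_markedZ hσ hf hfb hΘ u hJ hD₁ hA hAf q h0 h1) hov
  have h1' := (mp3 μ ν P).quasiMeasurePreserving.ae h1
  have h6 := mem_iff hE (b := fun j n => (Ψ (lin (u j) n) : Y → Y))
    (γ := fun j n => (Θ (lin (u j) n) : Wt → Wt)) (fun j n => hΘ _)
    (fun j n A hA hAf => hEq _ A hA hAf) hA hAf
  have h6' : ∀ᵐ z ∂((μ.prod ν).prod P), ∀ n, (z.1.2 ∈ E (⋃ j, Θ (lin (u j) n) ⁻¹' A j)) ↔
      ∀ j, Ψ (lin (u j) n) z.1.2 ∈ E (A j) :=
    Measure.quasiMeasurePreserving_fst.ae (Measure.quasiMeasurePreserving_snd.ae h6)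
  filter_upwards [h1', h6'] with z hz hz'
  obtain ⟨L, hL⟩ := hz
  refine ⟨(L : ℂ), ?_⟩
  have h12 := (Complex.continuous_ofReal.tendsto _).comp hL
  refine h12.congr fun N => ?_
  simp only [Function.comp_apply]
  rw [← av_ofReal]
  congr 1
  funext n
  have e6 : ∀ j, (D₁ j ×ˢ E (A j)).indicator (fun _ => (1 : ℂ))
      (pact Φ Ψ (lin (u j) n) z.1) =
      (((D₁ j).indicator (fun _ => (1 : ℝ)) (Φ (lin (u j) n) z.1.1) *
        pv (Ψ (lin (u j) n) z.1.2 ∈ E (A j)) : ℝ) : ℂ) := by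
    intro j
    rw [pact_apply]
    by_cases c1 : Φ (lin (u j) n) z.1.1 ∈ D₁ j <;> by_cases c2 : Ψ (lin (u j) n) z.1.2 ∈ E (A j) <;>
      simp [c1, c2, Set.indicator, pv]
  simp only [e6]
  rw [← Complex.ofReal_prod, Finset.prod_mul_distrib, ← Complex.ofReal_mul]
  congr 1
  have e7 : pv (z.1.2 ∈ E (⋃ j, Θ (lin (u j) n) ⁻¹' A j)) =
      ∏ j, pv (Ψ (lin (u j) n) z.1.2 ∈ E (A j)) := by
    rw [hz' n]
    by_cases c : ∀ j, Ψ (lin (u j) n) z.1.2 ∈ E (A j)
    · rw [pv_true c]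
      exact (Finset.prod_eq_one fun j _ => pv_true (c j)).symm
    · rw [pv_false c]
      rw [not_forall] at c
      obtain ⟨j, hj⟩ := c
      exact (Finset.prod_eq_zero (Finset.mem_univ j) (pv_false hj)).symm
  show ((∏ j, (D₁ j).indicator (fun _ => (1 : ℝ)) (Φ (lin (u j) n) z.1.1)) *
    f (orb k σ n z.2)) * pv (z.1.2 ∈ E (⋃ j, Θ (lin (u j) n) ⁻¹' A j)) = _
  rw [e7]
  ring

/-- **Products with Poisson suspensions** converge jointly with every system. -/
theorem JC_poisson [SFinite κ] [Nonempty Wt] [IsProbabilityMeasure μ] [IsProbabilityMeasure ν]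
    {Φ : G →* Equiv.Perm X} (hΦ : ∀ g, MeasurePreserving (Φ g) μ μ) {Θ : G →* Equiv.Perm Wt}
    {Ψ : G →* Equiv.Perm Y} (hΨ : IsPoissonAction κ Θ ν Ψ)
    {u : Fin m → Fin k → G} (hu : Function.Injective u)
    (hJ : JC k m μ fun j n => (Φ (lin (u j) n) : X → X))
    {ℛ : Set (Set Wt)} (hℛ : ∀ A ∈ ℛ, MeasurableSet A ∧ κ A ≠ ∞)
    (hd : ∀ A, MeasurableSet A → κ A ≠ ∞ → ∀ ε : ℝ, 0 < ε → ∃ B ∈ ℛ, (κ (A ∆ B)).toReal ≤ ε)
    (hs : ∀ i j, i ≠ j → ∀ A ∈ ℛ, ∀ B ∈ ℛ, OvS κ Θ (u i) (u j) A B) :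
    JC k m (μ.prod ν) fun j n => (pact Φ Ψ (lin (u j) n) : X × Y → X × Y) := by
  intro Z _ P _ σ hσ f hf ⟨Cf, hfb⟩ F hF
  obtain ⟨E, hE, hEq⟩ := hΨ.void
  have hmp := pact_mp (μ := μ) (ν := ν) hΦ hΨ.mp
  have hgood : ∀ j, Good atTop (box k) ((μ.prod ν).prod P)
      (fun n p => (pact Φ Ψ (lin (u j) n) p.1, p.2)) := fun j =>
    good_lin (Φ := pact (pact Φ Ψ) (1 : G →* Equiv.Perm Z))
      (pact_mp (μ := μ.prod ν) (ν := P) hmp fun g => MeasurePreserving.id P) (u j)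
  let g : Fin m → (Fin k → ℕ) → X × Y → X × Y := fun j n => pact Φ Ψ (lin (u j) n)
  show CJ (μ.prod ν) P σ f g F
  refine ext_all (P := CJ (μ.prod ν) P σ f g) (𝒬 := Qf (X := X) E ℛ) ?_ ?_ ?_ hF
  · rintro e ⟨D, A, hD, hA, rfl⟩
    exact ind_BM (hD.prod (hE.meas A (hℛ A hA).1 (hℛ A hA).2)) 1
  · intro F j hF hQ h hh
    have hcl : ∀ h, BM h → (∀ ε : ℝ, 0 < ε → ∃ g' : X × Y → ℂ, BM g' ∧
        ∫ z, ‖h z - g' z‖ ∂(μ.prod ν) ≤ ε ∧ CJ (μ.prod ν) P σ f g (Function.update F j g')) →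
        CJ (μ.prod ν) P σ f g (Function.update F j h) := fun h hh H =>
      CJ_closed hfb (fun j n => hmp _) hgood hF hh H
    refine ext_one (μ := μ.prod ν) (P := fun h => CJ (μ.prod ν) P σ f g (Function.update F j h))
      (fun h h' _ _ h1 h2 => CJ_add h1 h2) (fun c h _ h1 => CJ_smul c h1) hcl
      (𝒬 := Rec μ ν κ E) (fun D hD => hD.1) (Rec_pi hE) ?_ (Rec_gen hE) ?_ hh
    · have := Rec_univ (μ₁ := μ) hE (MeasurableSet.univ (α := X))
      rwa [univ_prod_univ] at this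
    · rintro D ⟨hDm, D₁, A, hD₁, hA, hAf, e⟩
      refine hcl _ (ind_BM hDm 1) fun ε hε => ?_
      obtain ⟨B, hB, hAB⟩ := hd A hA hAf ε hε
      obtain ⟨hBm, hBf⟩ := hℛ B hB
      refine ⟨(D₁ ×ˢ E B).indicator fun _ => 1, ind_BM (hD₁.prod (hE.meas B hBm hBf)) 1, ?_,
        hQ _ ⟨D₁, B, hD₁, hB, rfl⟩⟩
      have e1 : (fun z => ‖D.indicator (fun _ => (1 : ℂ)) z -
          (D₁ ×ˢ E B).indicator (fun _ => (1 : ℂ)) z‖) ≤ᵐ[μ.prod ν] fun z =>
          ‖(E A).indicator (fun _ => (1 : ℂ)) z.2 - (E B).indicator (fun _ => (1 : ℂ)) z.2‖ := by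
        filter_upwards [indicator_ae_eq_of_ae_eq_set (f := fun _ : X × Y => (1 : ℂ)) e] with z hz
        rw [hz]
        by_cases h0 : z.1 ∈ D₁
        · by_cases h1 : z.2 ∈ E A <;> by_cases h2 : z.2 ∈ E B <;>
            simp [h0, h1, h2, Set.indicator]
        · have h3 : z ∉ D₁ ×ˢ E A := fun h => h0 h.1
          have h4 : z ∉ D₁ ×ˢ E B := fun h => h0 h.1
          rw [indicator_of_notMem h3, indicator_of_notMem h4, sub_self, norm_zero]
          exact norm_nonneg _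
      have hm2 : Measurable fun y => ‖(E A).indicator (fun _ => (1 : ℂ)) y -
          (E B).indicator (fun _ => (1 : ℂ)) y‖ :=
        ((measurable_const.indicator (hE.meas A hA hAf)).sub
          (measurable_const.indicator (hE.meas B hBm hBf))).norm
      have hb2 : ∀ y, ‖(E A).indicator (fun _ => (1 : ℂ)) y -
          (E B).indicator (fun _ => (1 : ℂ)) y‖ ≤ 1 := by
        intro y
        by_cases h1 : y ∈ E A <;> by_cases h2 : y ∈ E B <;> simp [h1, h2]
      refine (integral_mono_of_nonneg (Eventually.of_forall fun z => norm_nonneg _) ?_ e1).trans ?_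
      · exact Integrable.of_bound (hm2.comp measurable_snd).aestronglyMeasurable 1
          (Eventually.of_forall fun z => by
            rw [norm_norm]
            exact hb2 _)
      · have e2 := int_snd (μ := μ) (ν := ν) fun y => ‖(E A).indicator (fun _ => (1 : ℂ)) y -
          (E B).indicator (fun _ => (1 : ℂ)) y‖
        rw [e2]
        exact (hE.dist hA hBm hAf hBf).trans hAB
  · intro F hF
    choose D A hD hA e using hF
    have : F = fun j => (D j ×ˢ E (A j)).indicator fun _ => (1 : ℂ) := funext e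
    rw [this]
    -- normalise the weight
    have hC1 : (0 : ℝ) < |Cf| + 1 := by positivity
    have hb := ext_base (P := P) (σ := σ) (f := fun z => f z / (|Cf| + 1)) hσ (hf.div_const _)
      (fun z => by
        rw [abs_div, abs_of_pos hC1, div_le_one hC1]
        exact ((hfb z).trans (le_abs_self _)).trans (by linarith)) hΦ hΨ.base hΨ.mp hE hEq hu hJ
      (fun j => (hℛ _ (hA j)).1) (fun j => (hℛ _ (hA j)).2)
      (fun i j hij => hs i j hij _ (hA i) _ (hA j)) hD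
    filter_upwards [hb] with z hz
    obtain ⟨L, hL⟩ := hz
    refine ⟨((|Cf| + 1 : ℝ) : ℂ) * L, (hL.const_mul ((|Cf| + 1 : ℝ) : ℂ)).congr fun M => ?_⟩
    rw [← av_mul]
    congr 1
    funext n
    have hC2 : ((|Cf| + 1 : ℝ) : ℂ) ≠ 0 := by exact_mod_cast hC1.ne'
    rw [Complex.ofReal_div, mul_div_assoc', mul_div_cancel₀]
    exact hC2

end Pool.Agent.TH739.PB
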