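import Mathlib
import Pool.Agent.TH739.PB.Ext

/-!
# Assembling: arbitrary linear parts, constants, factors, essentially bounded functions
-/

set_option autoImplicit false

open Filter Topology MeasureTheory ProbabilityTheory Set
open scoped ENNReal NNReal symmDiff

noncomputable section

namespace Pool.Agent.TH739.PB

open Pool.Agent.TH739.PA (av avr av_add av_mul IsPoissonAction)
open Pool.Agent.W761.Gauss (BM BM_of_memLp)
open Pool.Agent.W761.Box (orb orb_mp bxc)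

section merge

variable {T G : Type} [Group G] [MeasurableSpace T] {τ : Measure T} {k m : ℕ}

theorem BM_prod {T ι : Type} [MeasurableSpace T] (s : Finset ι) {f : ι → T → ℂ}
    (hf : ∀ i, BM (f i)) : BM fun x => ∏ i ∈ s, f i x := by
  choose h1 C hC using hf
  refine ⟨Finset.measurable_fun_prod _ fun i _ => h1 i, ∏ i ∈ s, C i, fun x => ?_⟩
  rw [norm_prod]
  exact Finset.prod_le_prod (fun i _ => norm_nonneg _) fun i _ => hC i x

/-- Arbitrary linear parts and constants. -/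
theorem JC_merge {Γ : G →* Equiv.Perm T} (hΓ : ∀ g, MeasurePreserving (Γ g) τ τ)
    {u : Fin m → Fin k → G} (w : Fin m → G)
    (H : ∀ (r : ℕ) (v : Fin r → Fin k → G), Function.Injective v → (∀ s, ∃ j, u j = v s) →
      JC k r τ fun j n => (Γ (lin (v j) n) : T → T)) :
    JC k m τ fun j n => (Γ (w j * lin (u j) n) : T → T) := by
  classical
  intro Z _ P _ σ hσ f hf hfb F hF
  let S : Finset (Fin k → G) := Finset.univ.image u
  let e : S ≃ Fin S.card := S.equivFin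
  let v : Fin S.card → Fin k → G := fun s => (e.symm s).1
  let c : Fin m → Fin S.card := fun j => e ⟨u j, Finset.mem_image_of_mem u (Finset.mem_univ j)⟩
  have hvc : ∀ j, v (c j) = u j := fun j => by
    show (e.symm (e _)).1 = u j
    rw [Equiv.symm_apply_apply]
  have hv : Function.Injective v := fun s t h =>
    e.symm.injective (Subtype.ext h)
  have hvs : ∀ s, ∃ j, u j = v s := by
    intro s
    obtain ⟨j, _, hj⟩ := Finset.mem_image.mp (e.symm s).2
    exact ⟨j, hj⟩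
  let F' : Fin S.card → T → ℂ := fun s z =>
    ∏ j ∈ Finset.univ.filter (fun j => c j = s), F j (Γ (w j) z)
  have hF' : ∀ s, BM (F' s) := fun s => BM_prod _ fun j => by
    obtain ⟨h1, C, hC⟩ := hF j
    exact ⟨h1.comp (hΓ (w j)).measurable, C, fun z => hC _⟩
  have hmain := H _ v hv hvs Z inferInstance P inferInstance σ hσ f hf hfb F' hF'
  filter_upwards [hmain] with z hz
  obtain ⟨L, hL⟩ := hz
  refine ⟨L, hL.congr fun M => ?_⟩
  congr 1
  funext n
  congr 1
  show ∏ s, F' s (Γ (lin (v s) n) z.1) = _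
  rw [← Finset.prod_fiberwise Finset.univ c]
  refine Finset.prod_congr rfl fun s _ => ?_
  refine Finset.prod_congr rfl fun j hj => ?_
  rw [Finset.mem_filter] at hj
  rw [map_mul, Equiv.Perm.mul_apply, ← hj.2, hvc]

/-- Passage to factors. -/
theorem JC_fac {T' : Type} [MeasurableSpace T'] {ζ : Measure T'} {π : T → T'}
    [IsProbabilityMeasure τ] (hπ : MeasurePreserving π τ ζ) {Γ : G →* Equiv.Perm T}
    {Γ' : G →* Equiv.Perm T'}
    (hΓ' : ∀ g, MeasurePreserving (Γ' g) ζ ζ) (hint : ∀ g, ∀ᵐ t ∂τ, π (Γ g t) = Γ' g (π t))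
    {g : Fin m → (Fin k → ℕ) → G} (hJ : JC k m τ fun j n => (Γ (g j n) : T → T)) :
    JC k m ζ fun j n => (Γ' (g j n) : T' → T') := by
  intro Z _ P _ σ hσ f hf hfb F hF
  have : IsProbabilityMeasure ζ := by
    rw [← hπ.map_eq]
    exact Measure.isProbabilityMeasure_map hπ.measurable.aemeasurable
  have h1 := hJ Z inferInstance P inferInstance σ hσ f hf hfb (fun j => F j ∘ π) fun j => by
    obtain ⟨gm, C, hC⟩ := hF j
    exact ⟨gm.comp hπ.measurable, C, fun x => hC _⟩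
  have h2 : ∀ᵐ t ∂τ, ∀ (n : Fin k → ℕ) (j : Fin m), π (Γ (g j n) t) = Γ' (g j n) (π t) := by
    rw [ae_all_iff]
    intro n
    rw [ae_all_iff]
    intro j
    exact hint (g j n)
  let 𝒢 : Set (T' × Z) := {p | ∃ L : ℂ, Tendsto (fun M => av (box k M) fun n =>
    (∏ j, F j (Γ' (g j n) p.1)) * (f (orb k σ n p.2) : ℂ)) atTop (𝓝 L)}
  have hms : MeasurableSet 𝒢 := by
    apply measurableSet_exists_tendsto
    intro M
    unfold av
    refine (Finset.measurable_fun_sum _ fun n _ => Measurable.mul ?_ ?_).const_mul _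
    · exact Finset.measurable_fun_prod _ fun j _ =>
        ((hF j).1.comp (hΓ' _).measurable).comp measurable_fst
    · exact Complex.measurable_ofReal.comp ((hf.comp (orb_mp k σ hσ n).measurable).comp
        measurable_snd)
  have h3 : ∀ᵐ p ∂(τ.prod P), Prod.map π id p ∈ 𝒢 := by
    filter_upwards [h1, Measure.quasiMeasurePreserving_fst.ae h2] with p hp1 hp2
    obtain ⟨L, hL⟩ := hp1
    refine ⟨L, hL.congr fun M => ?_⟩
    congr 1
    funext n
    congr 1
    refine Finset.prod_congr rfl fun j _ => ?_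
    rw [Function.comp_apply, hp2]
    rfl
  have hmp : MeasurePreserving (Prod.map π id) (τ.prod P) (ζ.prod P) :=
    hπ.prod (MeasurePreserving.id P)
  have h4 : ∀ᵐ p ∂(ζ.prod P), p ∈ 𝒢 := by
    rw [← hmp.map_eq]
    exact (ae_map_iff hmp.measurable.aemeasurable hms).mpr h3
  exact h4

/-- Essentially bounded functions. -/
theorem JC_final [IsProbabilityMeasure τ] {Γ : G →* Equiv.Perm T}
    (hΓ : ∀ g, MeasurePreserving (Γ g) τ τ) {g : Fin m → (Fin k → ℕ) → G}
    (hJ : JC k m τ fun j n => (Γ (g j n) : T → T)) {f : Fin m → T → ℂ}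
    (hf : ∀ j, MemLp (f j) ∞ τ) {Ω : Type} [MeasurableSpace Ω] {P : Measure Ω}
    [IsProbabilityMeasure P] {V : Fin k → Equiv.Perm Ω} (hV : ∀ l, MeasurePreserving (V l) P P)
    {h : Ω → ℂ} (hh : MemLp h ∞ P) :
    ∀ᵐ p ∂(τ.prod P), ∃ L : ℂ, Tendsto (fun M : Fin k → ℕ => (∏ l, (M l : ℂ))⁻¹ *
      ∑ n ∈ Fintype.piFinset (fun l => Finset.range (M l)),
        (∏ j, f j (Γ (g j n) p.1)) * h ((List.ofFn fun l => V l ^ n l).prod p.2))
      atTop (𝓝 L) := by
  choose F hF hfF using fun j => BM_of_memLp (hf j)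
  obtain ⟨h', ⟨hm', C', hC'⟩, hhh⟩ := BM_of_memLp hh
  have horb : ∀ (n : Fin k → ℕ) (ω : Ω), orb k (fun l => (V l : Ω → Ω)) n ω =
      (List.ofFn fun l => V l ^ n l).prod ω := fun n ω =>
    orb_lin (MonoidHom.id (Equiv.Perm Ω)) k V n ω
  have hVm : ∀ n : Fin k → ℕ, MeasurePreserving ((List.ofFn fun l => V l ^ n l).prod : Ω → Ω) P P := by
    intro n
    have h0 := orb_mp k (fun l => (V l : Ω → Ω)) hV n
    have e : orb k (fun l => (V l : Ω → Ω)) n = ((List.ofFn fun l => V l ^ n l).prod : Ω → Ω) :=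
      funext (horb n)
    rwa [e] at h0
  have h1 := hJ Ω inferInstance P inferInstance (fun l => (V l : Ω → Ω)) hV (fun ω => (h' ω).re)
    (Complex.measurable_re.comp hm') ⟨C', fun ω => (Complex.abs_re_le_norm _).trans (hC' ω)⟩ F hF
  have h2 := hJ Ω inferInstance P inferInstance (fun l => (V l : Ω → Ω)) hV (fun ω => (h' ω).im)
    (Complex.measurable_im.comp hm') ⟨C', fun ω => (Complex.abs_im_le_norm _).trans (hC' ω)⟩ F hF
  have h5 : ∀ᵐ z ∂τ, ∀ (n : Fin k → ℕ) (j : Fin m), f j (Γ (g j n) z) = F j (Γ (g j n) z) := by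
    rw [ae_all_iff]
    intro n
    rw [ae_all_iff]
    intro j
    exact (hΓ _).quasiMeasurePreserving.ae (hfF j)
  have h6 : ∀ᵐ ω ∂P, ∀ n : Fin k → ℕ, h ((List.ofFn fun l => V l ^ n l).prod ω) =
      h' ((List.ofFn fun l => V l ^ n l).prod ω) := by
    rw [ae_all_iff]
    intro n
    exact (hVm n).quasiMeasurePreserving.ae hhh
  filter_upwards [h1, h2, Measure.quasiMeasurePreserving_fst.ae h5,
    Measure.quasiMeasurePreserving_snd.ae h6] with p hp1 hp2 hp5 hp6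
  obtain ⟨L₁, hL₁⟩ := hp1
  obtain ⟨L₂, hL₂⟩ := hp2
  refine ⟨L₁ + Complex.I * L₂, (hL₁.add (hL₂.const_mul Complex.I)).congr fun M => ?_⟩
  rw [← av_mul, ← av_add, av_box]
  show bxc k M _ = bxc k M _
  congr 1
  funext n
  rw [hp6, horb]
  have e1 : ∏ j, f j (Γ (g j n) p.1) = ∏ j, F j (Γ (g j n) p.1) :=
    Finset.prod_congr rfl fun j _ => hp5 n j
  rw [e1]
  nth_rewrite 3 [← Complex.re_add_im (h' ((List.ofFn fun l => V l ^ n l).prod p.2))]
  ring

end merge

/-- The action `Γ'` on `(T', ζ)` is a factor of the action `Γ` on `(T, τ)`. -/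
def IsFac {G T T' : Type} [Group G] [MeasurableSpace T] [MeasurableSpace T'] (τ : Measure T)
    (Γ : G →* Equiv.Perm T) (ζ : Measure T') (Γ' : G →* Equiv.Perm T') : Prop :=
  (∀ g, MeasurePreserving (Γ' g) ζ ζ) ∧
    ∃ π : T → T', MeasurePreserving π τ ζ ∧ ∀ g, ∀ᵐ t ∂τ, π (Γ g t) = Γ' g (π t)

/-- **Factors of products of an action with discrete spectrum, a Gaussian action and a Poisson
suspension**: unrestricted box averages along linear sequences, jointly with a further system. -/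
theorem main {G D X Y W Z Ω : Type} [Group G] [MeasurableSpace D] [MeasurableSpace X]
    [MeasurableSpace Y] [MeasurableSpace W] [MeasurableSpace Z] [MeasurableSpace Ω] [Nonempty W]
    {k m : ℕ} {δ : Measure D} [IsProbabilityMeasure δ] {μ : Measure X} [IsProbabilityMeasure μ]
    {κ : Measure W} [SFinite κ] {ν : Measure Y} [IsProbabilityMeasure ν] {ζ : Measure Z}
    {P : Measure Ω} [IsProbabilityMeasure P] {Δ : G →* Equiv.Perm D} (hΔ : IsDiscAct δ Δ)
    {Φ : G →* Equiv.Perm X} (hΦ : IsGaussAct μ Φ) {Θ : G →* Equiv.Perm W}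
    {Ψ : G →* Equiv.Perm Y} (hΨ : IsPoissonAction κ Θ ν Ψ) {Γ : G →* Equiv.Perm Z}
    (hΓ : IsFac ((δ.prod μ).prod ν) (pact (pact Δ Φ) Ψ) ζ Γ) (u : Fin m → Fin k → G)
    (w : Fin m → G) {ℛ : Set (Set W)} (hℛ : ∀ A ∈ ℛ, MeasurableSet A ∧ κ A ≠ ∞)
    (hd : ∀ A, MeasurableSet A → κ A ≠ ∞ → ∀ ε : ℝ, 0 < ε → ∃ B ∈ ℛ, (κ (A ∆ B)).toReal ≤ ε)
    (hs : ∀ i j, u i ≠ u j → ∀ A ∈ ℛ, ∀ B ∈ ℛ,
      Summable fun p : {p : Fin k → ℕ // ∀ l, u i l = u j l ∧ u i l ∈ Subgroup.center G →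
        p l = 0} => κ.real (Θ (List.ofFn fun l => u i l ^ p.1 l).prod ⁻¹' A ∩
          Θ (List.ofFn fun l => u j l ^ p.1 l).prod ⁻¹' B) / ∏ l, (1 + (p.1 l : ℝ)))
    {f : Fin m → Z → ℂ} (hf : ∀ j, MemLp (f j) ∞ ζ) {V : Fin k → Equiv.Perm Ω}
    (hV : ∀ l, MeasurePreserving (V l) P P) {h : Ω → ℂ} (hh : MemLp h ∞ P) :
    ∀ᵐ z ∂(ζ.prod P), ∃ L : ℂ, Tendsto (fun M : Fin k → ℕ => (∏ l, (M l : ℂ))⁻¹ *
      ∑ n ∈ Fintype.piFinset (fun l => Finset.range (M l)),
        (∏ j, f j (Γ (w j * (List.ofFn fun l => u j l ^ n l).prod) z.1)) *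
          h ((List.ofFn fun l => V l ^ n l).prod z.2)) atTop (𝓝 L) := by
  obtain ⟨hΓ', π, hπ, hint⟩ := hΓ
  have hζ : IsProbabilityMeasure ζ := by
    rw [← hπ.map_eq]
    exact Measure.isProbabilityMeasure_map hπ.measurable.aemeasurable
  have hmp1 : ∀ g, MeasurePreserving (pact Δ Φ g) (δ.prod μ) (δ.prod μ) := pact_mp hΔ.mp hΦ.mp
  have hmp2 : ∀ g, MeasurePreserving (pact (pact Δ Φ) Ψ g) ((δ.prod μ).prod ν)
      ((δ.prod μ).prod ν) := pact_mp hmp1 hΨ.mp
  have h1 : JC k m ((δ.prod μ).prod ν) fun j n =>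
      (pact (pact Δ Φ) Ψ (w j * lin (u j) n) : (D × X) × Y → (D × X) × Y) := by
    refine JC_merge hmp2 w fun r v hv hvu => ?_
    refine JC_poisson hmp1 hΨ hv (JC_disc hΔ hΦ.mp v (hΦ.joint v)) hℛ hd fun s t hst A hA B hB => ?_
    obtain ⟨i, hi⟩ := hvu s
    obtain ⟨j, hj⟩ := hvu t
    rw [← hi, ← hj]
    refine hs i j (fun h => hst (hv ?_)) A hA B hB
    rw [← hi, ← hj, h]
  have h2 := JC_fac hπ hΓ' hint h1
  exact JC_final hΓ' h2 hf hV hh

end Pool.Agent.TH739.PB
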